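import Pool.Agent.MP_be5fd0_gt.Mg.Hodge

-- part MP_be5fd0_gt.H13.Pf
section

/-! The Pfaffian, averages over the torus, and nondegeneracy of the class of a symplectic form. -/

namespace Pool.Agent.MP_be5fd0_gt.H13

open Set Filter Topology Metric MeasureTheory
open scoped ContDiff

noncomputable section

/-- coordinate vectors -/
def ee (i : Fin 4) : E := Pi.single i 1

/-- the Pfaffian -/
def Pf (θ : A2) : ℝ := θ ![ee 0, ee 1] * θ ![ee 2, ee 3] - θ ![ee 0, ee 2] * θ ![ee 1, ee 3] +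
  θ ![ee 0, ee 3] * θ ![ee 1, ee 2]

theorem expand' (θ : A2) (u q : E) : θ ![u, q] = u 0 * θ ![ee 0, q] + u 1 * θ ![ee 1, q]
    + u 2 * θ ![ee 2, q] + u 3 * θ ![ee 3, q] := by
  have h := expand (Pi.basisFun ℝ (Fin 4)) θ u q
  simpa only [Pi.basisFun_repr, Pi.basisFun_apply, ee] using h

theorem Nd_of_Pf {θ : A2} (h : Pf θ ≠ 0) : Nd θ := fun u hu => by
  by_contra hn
  push Not at hn
  have h0 := expand' θ u (ee 0)
  have h1 := expand' θ u (ee 1)
  have h2 := expand' θ u (ee 2)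
  have h3 := expand' θ u (ee 3)
  rw [hn, A2_self, A2_swap θ (ee 1) (ee 0), A2_swap θ (ee 2) (ee 0), A2_swap θ (ee 3) (ee 0)] at h0
  rw [hn, A2_self, A2_swap θ (ee 2) (ee 1), A2_swap θ (ee 3) (ee 1)] at h1
  rw [hn, A2_self, A2_swap θ (ee 3) (ee 2)] at h2
  rw [hn, A2_self] at h3
  unfold Pf at h
  apply hu
  funext i
  fin_cases i
  · refine (mul_eq_zero.1 (?_ : _ * u 0 = 0)).resolve_left h
    linear_combination (-θ ![ee 2, ee 3]) * h1 + θ ![ee 1, ee 3] * h2 - θ ![ee 1, ee 2] * h3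
  · refine (mul_eq_zero.1 (?_ : _ * u 1 = 0)).resolve_left h
    linear_combination θ ![ee 2, ee 3] * h0 - θ ![ee 0, ee 3] * h2 + θ ![ee 0, ee 2] * h3
  · refine (mul_eq_zero.1 (?_ : _ * u 2 = 0)).resolve_left h
    linear_combination (-θ ![ee 1, ee 3]) * h0 + θ ![ee 0, ee 3] * h1 - θ ![ee 0, ee 1] * h3
  · refine (mul_eq_zero.1 (?_ : _ * u 3 = 0)).resolve_left h
    linear_combination θ ![ee 1, ee 2] * h0 - θ ![ee 0, ee 2] * h1 + θ ![ee 0, ee 1] * h2

theorem zero_of_Nd {θ : A2} (h : Nd θ) {u : E} (hu : ∀ j, θ ![u, ee j] = 0) : u = 0 := by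
  by_contra hne
  obtain ⟨q, hq⟩ := h u hne
  apply hq
  rw [A2_swap, expand', A2_swap θ (ee 0), A2_swap θ (ee 1), A2_swap θ (ee 2), A2_swap θ (ee 3),
    hu, hu, hu, hu]
  ring

theorem Pf_of_Nd {θ : A2} (h : Nd θ) : Pf θ ≠ 0 := fun hP => by
  unfold Pf at hP
  have key : ∀ u : E, (∀ j, u 0 * θ ![ee 0, ee j] + u 1 * θ ![ee 1, ee j]
      + u 2 * θ ![ee 2, ee j] + u 3 * θ ![ee 3, ee j] = 0) → u = 0 := fun u hu =>
    zero_of_Nd h fun j => by rw [expand', hu]
  have s10 := A2_swap θ (ee 1) (ee 0)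
  have s20 := A2_swap θ (ee 2) (ee 0)
  have s30 := A2_swap θ (ee 3) (ee 0)
  have s21 := A2_swap θ (ee 2) (ee 1)
  have s31 := A2_swap θ (ee 3) (ee 1)
  have s32 := A2_swap θ (ee 3) (ee 2)
  have z0 := A2_self θ (ee 0)
  have z1 := A2_self θ (ee 1)
  have z2 := A2_self θ (ee 2)
  have z3 := A2_self θ (ee 3)
  have k2 := key ![θ ![ee 1, ee 3], -θ ![ee 0, ee 3], 0, θ ![ee 0, ee 1]] (fun j => by
    fin_cases j <;> simp [s10, s20, s30, s21, s31, s32, z0, z1, z2, z3] <;> linarith)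
  have k3 := key ![-θ ![ee 1, ee 2], θ ![ee 0, ee 2], -θ ![ee 0, ee 1], 0] (fun j => by
    fin_cases j <;> simp [s10, s20, s30, s21, s31, s32, z0, z1, z2, z3] <;> linarith)
  have a1 : θ ![ee 0, ee 1] = 0 := by simpa using congrFun k2 3
  have a3 : θ ![ee 0, ee 3] = 0 := by simpa using congrFun k2 1
  have a2 : θ ![ee 0, ee 2] = 0 := by simpa using congrFun k3 1
  have k := zero_of_Nd h (u := ee 0) (fun j => by
    fin_cases j
    · exact z0
    · exact a1
    · exact a2
    · exact a3)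
  have := congrFun k 0
  simp [ee] at this

theorem continuous_ap (m : Fin 2 → E) : Continuous fun θ : A2 => θ m :=
  (ContinuousAlternatingMap.apply ℝ E ℝ m).continuous

theorem continuous_Pf : Continuous Pf :=
  (((continuous_ap _).mul (continuous_ap _)).sub ((continuous_ap _).mul (continuous_ap _))).add
    ((continuous_ap _).mul (continuous_ap _))

theorem isOpen_Nd : IsOpen {θ : A2 | Nd θ} := by
  have : {θ : A2 | Nd θ} = Pf ⁻¹' {0}ᶜ := by
    ext θ
    exact ⟨Pf_of_Nd, Nd_of_Pf⟩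
  rw [this]
  exact isOpen_compl_singleton.preimage continuous_Pf

/-- the unit cube -/
def Q : Set E := Icc 0 1

theorem isCompact_Q : IsCompact Q := isCompact_Icc

theorem volume_Q : volume Q = 1 := by
  simp [Q, Real.volume_Icc_pi]

/-- invariance under integer translations -/
def Per {F : Type*} (f : E → F) : Prop :=
  ∀ (n : Fin 4 → ℤ) (x : E), f (x + fun i => (n i : ℝ)) = f x

theorem exists_Q (x : E) : ∃ y ∈ Q, ∃ n : Fin 4 → ℤ, x = y + fun i => (n i : ℝ) :=
  ⟨fun i => Int.fract (x i), ⟨fun _ => Int.fract_nonneg _, fun _ => (Int.fract_lt_one _).le⟩,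
    fun i => ⌊x i⌋, funext fun i => (Int.fract_add_floor (x i)).symm⟩

theorem int_fderiv {F : Type*} [NormedAddCommGroup F] [NormedSpace ℝ F] [CompleteSpace F]
    {f : E → F} (hf : ContDiff ℝ ∞ f) (hp : Per f) (i : Fin 4) :
    ∫ x in Q, fderiv ℝ f x (ee i) = 0 := by
  classical
  have hc : Continuous (fderiv ℝ f) := hf.continuous_fderiv (by simp)
  have h := integral_divergence_of_hasFDerivAt_off_countable' (n := 3) (0 : E) 1 zero_le_one
    (fun j => if j = i then f else fun _ => 0)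
    (fun j x => if j = i then fderiv ℝ f x else 0) ∅ countable_empty
    (fun j => by
      split_ifs
      · exact hf.continuous.continuousOn
      · exact continuousOn_const)
    (fun x _ j => by
      split_ifs
      · exact (hf.differentiable (by simp) x).hasFDerivAt
      · exact hasFDerivAt_const _ _)
    (by
      refine Continuous.integrableOn_Icc (continuous_finsetSum _ fun j _ => ?_)
      split_ifs
      · exact hc.clm_apply continuous_const
      · exact continuous_const)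
  have h1 : ∀ x : E, (∑ j : Fin 4, (if j = i then fderiv ℝ f x else 0) (Pi.single j 1)) =
      fderiv ℝ f x (ee i) := fun x => by
    rw [Finset.sum_eq_single i]
    · simp [ee]
    · intro j _ hj
      simp [hj]
    · simp
  simp only [h1] at h
  rw [Q, h]
  refine Finset.sum_eq_zero fun j _ => ?_
  rw [sub_eq_zero]
  congr 1
  funext x
  split_ifs
  · have := hp (Pi.single j 1) (Fin.insertNth j ((0 : E) j) x)
    rw [← this]
    congr 1
    funext k
    refine Fin.succAboveCases j ?_ (fun k => ?_) k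
    · simp
    · simp [Pi.single_apply, Fin.succAbove_ne]
  · rfl

/-- alternation -/
def alt : (E →L[ℝ] A1) →L[ℝ] A2 := ContinuousAlternatingMap.alternatizeUncurryFinCLM ℝ E ℝ

theorem extDeriv_eq (l : E → A1) (x : E) : extDeriv l x = alt (fderiv ℝ l x) := rfl

theorem int_clm {F G : Type*} [NormedAddCommGroup F] [NormedSpace ℝ F] [CompleteSpace F]
    [NormedAddCommGroup G] [NormedSpace ℝ G] [CompleteSpace G]
    {f : E → F} (hf : ContDiff ℝ ∞ f) (hp : Per f) (L : (E →L[ℝ] F) →L[ℝ] G) :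
    ∫ x in Q, L (fderiv ℝ f x) = 0 := by
  have hc : Continuous (fderiv ℝ f) := hf.continuous_fderiv (by simp)
  have hi : IntegrableOn (fderiv ℝ f) Q := hc.integrableOn_Icc
  have h3 : ∫ x in Q, fderiv ℝ f x = 0 := by
    refine ContinuousLinearMap.coe_injective ((Pi.basisFun ℝ (Fin 4)).ext fun i => ?_)
    rw [ContinuousLinearMap.coe_coe, ContinuousLinearMap.integral_apply hi, Pi.basisFun_apply]
    exact int_fderiv hf hp i
  rw [L.integral_comp_comm hi, h3, map_zero]

theorem intOn {F : Type*} [NormedAddCommGroup F] {f : E → F} (hf : Continuous f) :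
    IntegrableOn f Q := hf.integrableOn_Icc

theorem int_Ex {a : A2} {θ : E → A2} (h : Ex a θ) : ∫ x in Q, θ x = a := by
  obtain ⟨l, h1, h2⟩ := h
  have h3 : ∫ x in Q, extDeriv l x = 0 := int_clm (F := A1) (G := A2) h1.1 h1.2 alt
  simp only [h2]
  rw [integral_add (intOn continuous_const) (intOn h1.extDeriv.1.continuous), h3, add_zero,
    setIntegral_const, Measure.real, volume_Q]
  simp

theorem norm_cls {a b : A2} {θ τ : E → A2} (h : Ex a θ) (h' : Ex b τ) {δ : ℝ}
    (hd : ∀ x, ‖θ x - τ x‖ ≤ δ) : ‖a - b‖ ≤ δ := by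
  rw [← int_Ex h, ← int_Ex h', ← integral_sub (intOn h.isForm.1.continuous)
    (intOn h'.isForm.1.continuous)]
  have := norm_setIntegral_le_of_norm_le_const (μ := volume) (s := Q) (f := fun x => θ x - τ x)
    (C := δ) (by rw [volume_Q]; simp) (fun x _ => hd x)
  rwa [Measure.real, volume_Q, ENNReal.toReal_one, mul_one] at this

theorem Nd_cls {a : A2} {θ : E → A2} (h : Sy a θ) : Nd a := by
  have hF := h.1.isForm
  have hcl := h.1.closed
  obtain ⟨⟨l, h1, h2⟩, h3⟩ := h
  have hτ : IsForm fun x => θ x + a := hF.add (isForm_const a)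
  have hdτ : ∀ x, extDeriv (fun x => θ x + a) x = 0 := fun x => by
    rw [extDeriv_fun_add (hF.diff x) (differentiableAt_const a), hcl, extDeriv_const]
    simp
  let L : Fin 4 → E → ℝ := fun j x => l x ![ee j]
  let T : Fin 4 → Fin 4 → E → ℝ := fun j k x => (θ x + a) ![ee j, ee k]
  have sL : ∀ j, ContDiff ℝ ∞ (L j) := fun j => h1.smooth_apply _
  have sT : ∀ j k, ContDiff ℝ ∞ (T j k) := fun j k => hτ.smooth_apply _
  let D : Fin 4 → Fin 4 → Fin 4 → Fin 4 → E → ℝ := fun i j k m x =>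
    fderiv ℝ (fun y => L j y * T k m y) x (ee i)
  have hD : ∀ i j k m, ∫ x in Q, D i j k m x = 0 := fun i j k m =>
    int_fderiv ((sL j).mul (sT k m)) (fun n x => by simp only [L, T, h1.2 n x, hF.2 n x]) i
  have cD : ∀ i j k m, IntegrableOn (D i j k m) Q := fun i j k m =>
    ((((sL j).mul (sT k m)).continuous_fderiv (by simp)).clm_apply
      continuous_const).integrableOn_Icc
  have eD : ∀ i j k m x, D i j k m x =
      L j x * fderiv ℝ (T k m) x (ee i) + T k m x * fderiv ℝ (L j) x (ee i) := fun i j k m x => by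
    simp only [D]
    rw [fderiv_fun_mul ((sL j).differentiable (by simp) x) ((sT k m).differentiable (by simp) x)]
    simp
  have e1 : ∀ i j x, θ x ![ee i, ee j] = a ![ee i, ee j] +
      (fderiv ℝ (L j) x (ee i) - fderiv ℝ (L i) x (ee j)) := fun i j x => by
    rw [h2, ContinuousAlternatingMap.add_apply, d1 h1]
  have e2 : ∀ i j k x, fderiv ℝ (T j k) x (ee i) - fderiv ℝ (T i k) x (ee j) +
      fderiv ℝ (T i j) x (ee k) = 0 := fun i j k x => by
    have := d2 hτ x (ee i) (ee j) (ee k)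
    rw [hdτ] at this
    exact this.symm
  have e3 : ∀ j k x, T j k x = θ x ![ee j, ee k] + a ![ee j, ee k] := fun j k x => rfl
  have key : ∀ x, 2 * Pf (θ x) - 2 * Pf a =
      D 0 1 2 3 x - D 0 2 1 3 x + D 0 3 1 2 x - D 1 0 2 3 x + D 1 2 0 3 x - D 1 3 0 2 x
      + D 2 0 1 3 x - D 2 1 0 3 x + D 2 3 0 1 x - D 3 0 1 2 x + D 3 1 0 2 x - D 3 2 0 1 x :=
    fun x => by
    simp only [eD, e3, Pf]
    linear_combination (θ x ![ee 2, ee 3] + a ![ee 2, ee 3]) * e1 0 1 x
      - (θ x ![ee 1, ee 3] + a ![ee 1, ee 3]) * e1 0 2 x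
      + (θ x ![ee 1, ee 2] + a ![ee 1, ee 2]) * e1 0 3 x
      + (θ x ![ee 0, ee 3] + a ![ee 0, ee 3]) * e1 1 2 x
      - (θ x ![ee 0, ee 2] + a ![ee 0, ee 2]) * e1 1 3 x
      + (θ x ![ee 0, ee 1] + a ![ee 0, ee 1]) * e1 2 3 x
      + L 0 x * e2 1 2 3 x - L 1 x * e2 0 2 3 x + L 2 x * e2 0 1 3 x - L 3 x * e2 0 1 2 x
  have hint : ∫ x in Q, (2 * Pf (θ x) - 2 * Pf a) = 0 := by
    simp only [key]
    repeat' first
      | rw [integral_sub]
      | rw [integral_add]
    all_goals first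
      | (simp only [hD]; norm_num; done)
      | (repeat' first
          | exact cD _ _ _ _
          | apply Integrable.sub
          | apply Integrable.add)
  have hc : Continuous fun x => 2 * Pf (θ x) - 2 * Pf a :=
    (continuous_const.mul (continuous_Pf.comp hF.1.continuous)).sub continuous_const
  obtain ⟨c, -, hc2⟩ := exists_eq_setAverage (μ := volume) (s := Q)
    ((convex_Icc (0 : E) 1).isConnected ⟨0, left_mem_Icc.2 zero_le_one⟩) hc.continuousOn
    hc.integrableOn_Icc (by rw [volume_Q]; simp) (by rw [volume_Q]; simp)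
  rw [setAverage_eq, hint, smul_zero] at hc2
  refine Nd_of_Pf fun h0 => Pf_of_Nd (h3 c) ?_
  linarith

end

end Pool.Agent.MP_be5fd0_gt.H13

end

-- part MP_be5fd0_gt.H13.Pth
section

/-! Compactness lemmas and paths of symplectic forms with smooth families of primitives. -/

namespace Pool.Agent.MP_be5fd0_gt.H13

open Set Filter Topology Metric MeasureTheory
open scoped ContDiff

noncomputable section

theorem margin {X : Type*} [TopologicalSpace X] {Φ : X → E → A2}
    (hc : Continuous fun p : X × E => Φ p.1 p.2) (hp : ∀ t, Per (Φ t)) {K : Set X}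
    (hK : IsCompact K) (hN : ∀ t ∈ K, ∀ x, Nd (Φ t x)) :
    ∃ ε > 0, ∀ t ∈ K, ∀ x η, ‖η‖ ≤ ε → Nd (Φ t x + η) := by
  obtain ⟨ε, hε, h⟩ := ((hK.prod isCompact_Q).image hc).exists_cthickening_subset_open isOpen_Nd
    (by
      rintro _ ⟨p, hp, rfl⟩
      exact hN _ hp.1 _)
  refine ⟨ε, hε, fun t ht x η hη => ?_⟩
  obtain ⟨y, hy, n, rfl⟩ := exists_Q x
  rw [hp t n y]
  refine h (mem_cthickening_of_dist_le _ (Φ t y) _ _ ⟨(t, y), ⟨ht, hy⟩, rfl⟩ ?_)
  rwa [dist_eq_norm, add_sub_cancel_left]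

theorem bdd {X F : Type*} [TopologicalSpace X] [NormedAddCommGroup F] {Φ : X → E → F}
    (hc : Continuous fun p : X × E => Φ p.1 p.2) (hp : ∀ t, Per (Φ t)) {K : Set X}
    (hK : IsCompact K) : ∃ C > 0, ∀ t ∈ K, ∀ x, ‖Φ t x‖ ≤ C := by
  obtain ⟨C, hC⟩ := (hK.prod isCompact_Q).exists_bound_of_continuousOn hc.continuousOn
  refine ⟨max C 1, by positivity, fun t ht x => ?_⟩
  obtain ⟨y, hy, n, rfl⟩ := exists_Q x
  rw [hp t n y]
  exact (hC (t, y) ⟨ht, hy⟩).trans (le_max_left _ _)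

theorem near {X F : Type*} [TopologicalSpace X] [NormedAddCommGroup F] {Φ : X → E → F}
    (hc : Continuous fun p : X × E => Φ p.1 p.2) (hp : ∀ t, Per (Φ t)) (t₀ : X) {ε : ℝ}
    (hε : 0 < ε) : ∀ᶠ t in 𝓝 t₀, ∀ x, ‖Φ t x - Φ t₀ x‖ ≤ ε := by
  have h := isCompact_Q.eventually_forall_of_forall_eventually (x₀ := t₀)
    (P := fun t x => ‖Φ t x - Φ t₀ x‖ ≤ ε) (fun y _ => by
      have h1 : Continuous fun p : X × E => ‖Φ p.1 p.2 - Φ t₀ p.2‖ :=
        (hc.sub (hc.comp (f := fun p : X × E => (t₀, p.2)) (by fun_prop))).norm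
      exact (h1.continuousAt.eventually_lt continuousAt_const (by simpa using hε)).mono
        fun _ h => h.le)
  refine h.mono fun t ht x => ?_
  obtain ⟨y, hy, n, rfl⟩ := exists_Q x
  rw [hp t n y, hp t₀ n y]
  exact ht y hy

/-- smooth families of one-forms -/
def Fam (F : ℝ → E → A1) : Prop :=
  ContDiff ℝ ∞ (fun p : ℝ × E => F p.1 p.2) ∧ ∀ t, Per (F t)

theorem Fam.isForm {F : ℝ → E → A1} (h : Fam F) (t : ℝ) : IsForm (F t) :=
  ⟨h.1.comp (f := fun x : E => (t, x)) (by fun_prop), h.2 t⟩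

theorem contDiff_fderiv2 {G : Type*} [NormedAddCommGroup G] [NormedSpace ℝ G] {F : ℝ → E → G}
    (h : ContDiff ℝ ∞ (fun p : ℝ × E => F p.1 p.2)) :
    ContDiff ℝ ∞ fun p : ℝ × E => fderiv ℝ (F p.1) p.2 :=
  ContDiff.fderiv (f := fun (p : ℝ × E) (y : E) => F p.1 y) (g := fun p => p.2) (m := ∞)
    (h.comp (f := fun q : (ℝ × E) × E => (q.1.1, q.2)) (by fun_prop)) contDiff_snd le_rfl

theorem Fam.smooth_d {F : ℝ → E → A1} (h : Fam F) :
    ContDiff ℝ ∞ fun p : ℝ × E => extDeriv (F p.1) p.2 := by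
  have h1 := (ContinuousAlternatingMap.alternatizeUncurryFinCLM (n := 1) ℝ E ℝ).contDiff.comp
    (contDiff_fderiv2 (G := A1) h.1)
  exact h1

/-- joined by a path with a smooth family of primitives -/
def Pth (a : A2) (θ θ' : E → A2) : Prop :=
  ∃ F : ℝ → E → A1, Fam F ∧ (∀ t ≤ 0, ∀ x, a + extDeriv (F t) x = θ x) ∧
    (∀ t, 1 ≤ t → ∀ x, a + extDeriv (F t) x = θ' x) ∧ ∀ t x, Nd (a + extDeriv (F t) x)

theorem Pth.rel {a : A2} {θ θ' : E → A2} (h : Pth a θ θ') : Rel a θ θ' := by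
  obtain ⟨F, h1, h2, h3, h4⟩ := h
  exact ⟨fun t x => a + extDeriv (F t) x, contDiff_const.add h1.smooth_d,
    fun t ht => funext (h2 t ht), fun t ht => funext (h3 t ht),
    fun t => ⟨⟨F t, h1.isForm t, fun _ => rfl⟩, h4 t⟩⟩

theorem Pth.symm {a : A2} {θ θ' : E → A2} (h : Pth a θ θ') : Pth a θ' θ := by
  obtain ⟨F, h1, h2, h3, h4⟩ := h
  refine ⟨fun t => F (1 - t), ⟨?_, fun t => h1.2 _⟩, fun t ht => h3 _ (by linarith),
    fun t ht => h2 _ (by linarith), fun t => h4 _⟩
  exact h1.1.comp (f := fun p : ℝ × E => (1 - p.1, p.2)) (by fun_prop)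

theorem d_comb {l m n : E → A1} (hl : IsForm l) (hm : IsForm m) (hn : IsForm n) (r s : ℝ) (x : E) :
    extDeriv (fun y => l y + r • m y + s • n y) x =
      extDeriv l x + r • extDeriv m x + s • extDeriv n x := by
  have e1 : extDeriv (fun y => r • m y) x = r • extDeriv m x := extDeriv_smul _ _
  have e2 : extDeriv (fun y => s • n y) x = s • extDeriv n x := extDeriv_smul _ _
  rw [extDeriv_fun_add ((hl.add (hm.smul r)).diff x) ((hn.smul s).diff x),
    extDeriv_fun_add (hl.diff x) ((hm.smul r).diff x), e1, e2]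

theorem Pth.trans {a : A2} {θ θ' θ'' : E → A2} (h : Pth a θ θ') (h' : Pth a θ' θ'') :
    Pth a θ θ'' := by
  obtain ⟨F, h1, h2, h3, h4⟩ := h
  obtain ⟨G, g1, g2, g3, g4⟩ := h'
  have key : ∀ t x, a + extDeriv
      (fun y => F (2 * t) y + (1 : ℝ) • G (2 * t - 1) y + (-1 : ℝ) • G 0 y) x =
      (a + extDeriv (F (2 * t)) x) + (a + extDeriv (G (2 * t - 1)) x) - θ' x := fun t x => by
    rw [d_comb (h1.isForm _) (g1.isForm _) (g1.isForm _), ← g2 0 le_rfl x]
    module
  refine ⟨fun t y => F (2 * t) y + (1 : ℝ) • G (2 * t - 1) y + (-1 : ℝ) • G 0 y, ⟨?_, ?_⟩,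
    fun t ht x => ?_, fun t ht x => ?_, fun t x => ?_⟩
  · exact ((h1.1.comp (f := fun p : ℝ × E => (2 * p.1, p.2)) (by fun_prop)).add
      ((g1.1.comp (f := fun p : ℝ × E => (2 * p.1 - 1, p.2)) (by fun_prop)).const_smul _)).add
      (((g1.isForm 0).1.comp contDiff_snd).const_smul _)
  · intro t n x
    simp only [h1.2 _ n x, g1.2 _ n x]
  · rw [key, h2 _ (by linarith), g2 _ (by linarith), add_sub_cancel_right]
  · rw [key, h3 _ (by linarith), g3 _ (by linarith), add_sub_cancel_left]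
  · rw [key]
    rcases le_total t (1 / 2) with ht | ht
    · rw [g2 _ (by linarith), add_sub_cancel_right]
      exact h4 _ _
    · rw [h3 _ (by linarith), add_sub_cancel_left]
      exact g4 _ _

theorem Pth.seg {a : A2} {θ θ' : E → A2} (h : Ex a θ) (h' : Ex a θ')
    (hn : ∀ s ∈ Icc (0 : ℝ) 1, ∀ x, Nd (θ x + s • (θ' x - θ x))) : Pth a θ θ' := by
  obtain ⟨l, h1, h2⟩ := h
  obtain ⟨m, g1, g2⟩ := h'
  have key : ∀ t x, a + extDeriv (fun y => l y + Real.smoothTransition t • m y +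
      (-Real.smoothTransition t) • l y) x =
      θ x + Real.smoothTransition t • (θ' x - θ x) := fun t x => by
    rw [d_comb h1 g1 h1, h2, g2]
    module
  refine ⟨fun t y => l y + Real.smoothTransition t • m y + (-Real.smoothTransition t) • l y,
    ⟨?_, ?_⟩, fun t ht x => ?_, fun t ht x => ?_, fun t x => ?_⟩
  · exact ((h1.1.comp contDiff_snd).add ((Real.smoothTransition.contDiff.comp contDiff_fst).smul
      (g1.1.comp contDiff_snd))).add
      ((Real.smoothTransition.contDiff.comp contDiff_fst).neg.smul (h1.1.comp contDiff_snd))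
  · intro t n x
    simp only [h1.2 n x, g1.2 n x]
  · rw [key, Real.smoothTransition.zero_of_nonpos ht]
    simp
  · rw [key, Real.smoothTransition.one_of_one_le ht]
    simp
  · rw [key]
    exact hn _ ⟨Real.smoothTransition.nonneg t, Real.smoothTransition.le_one t⟩ x

theorem Pth.of_close {a : A2} {θ θ' : E → A2} (h : Ex a θ) (h' : Ex a θ') {ε : ℝ}
    (hε : ∀ x η, ‖η‖ ≤ ε → Nd (θ x + η)) (hd : ∀ x, ‖θ' x - θ x‖ ≤ ε) : Pth a θ θ' :=
  Pth.seg h h' fun s hs x => hε x _ (by
    rw [norm_smul, Real.norm_of_nonneg hs.1]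
    exact (mul_le_of_le_one_left (norm_nonneg _) hs.2).trans (hd x))

theorem pth_of_cont {a : A2} {Ω : ℝ → E → A2} (hc : Continuous fun p : ℝ × E => Ω p.1 p.2)
    (hs : ∀ t, Ex a (Ω t)) {t₀ t₁ : ℝ} (h01 : t₀ ≤ t₁) (hN : ∀ t ∈ Icc t₀ t₁, ∀ x, Nd (Ω t x)) :
    Pth a (Ω t₀) (Ω t₁) := by
  have hp : ∀ t, Per (Ω t) := fun t => (hs t).isForm.2
  obtain ⟨ε, hε, h⟩ := margin hc hp isCompact_Icc hN
  refine isPreconnected_Icc.induction₂ (fun s t => Pth a (Ω s) (Ω t)) (fun s hs' => ?_)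
    (fun _ _ _ _ _ _ => Pth.trans) (fun _ _ _ _ => Pth.symm) (left_mem_Icc.2 h01)
    (right_mem_Icc.2 h01)
  exact mem_nhdsWithin_of_mem_nhds ((near hc hp s hε).mono fun t ht =>
    Pth.of_close (hs s) (hs t) (h s hs') ht)

/-- the normalised pull-back under the covering given by multiplication by `N` -/
def sc {F : Type*} (N : ℕ) (θ : E → F) : E → F := fun x => θ ((N : ℝ) • x)

theorem Per.sc {F : Type*} {θ : E → F} (h : Per θ) (N : ℕ) : Per (sc N θ) := fun n x => by
  have := h (fun i => N * n i) ((N : ℝ) • x)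
  unfold H13.sc
  rw [← this]
  congr 1
  funext i
  simp [mul_add]

theorem fderiv_sc {G : Type*} [NormedAddCommGroup G] [NormedSpace ℝ G] {f : E → G}
    (hf : ContDiff ℝ ∞ f) (c : ℝ) (x : E) :
    fderiv ℝ (fun y => f (c • y)) x = c • fderiv ℝ f (c • x) := by
  have h1 : HasFDerivAt (fun y : E => c • y) (c • ContinuousLinearMap.id ℝ E) x :=
    (hasFDerivAt_id x).const_smul c
  have h2 := ((hf.differentiable (by simp) (c • x)).hasFDerivAt.comp x h1).fderiv
  rw [show (fun y => f (c • y)) = f ∘ fun y => c • y from rfl, h2]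
  ext v
  simp

theorem Ex.sc {a : A2} {θ : E → A2} (h : Ex a θ) {N : ℕ} (hN : 0 < N) : Ex a (sc N θ) := by
  obtain ⟨l, h1, h2⟩ := h
  have h3 : IsForm (H13.sc N l) :=
    ⟨h1.1.comp (f := fun x : E => (N : ℝ) • x) (by fun_prop), Per.sc h1.2 N⟩
  refine ⟨fun x => (N : ℝ)⁻¹ • H13.sc N l x, h3.smul _, fun x => ?_⟩
  have e1 : extDeriv (fun y => (N : ℝ)⁻¹ • H13.sc N l y) x =
      (N : ℝ)⁻¹ • extDeriv (H13.sc N l) x := extDeriv_smul _ _
  have e2 : fderiv ℝ (H13.sc N l) x = (N : ℝ) • fderiv ℝ l ((N : ℝ) • x) :=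
    fderiv_sc (G := A1) h1.1 _ x
  have hN' : (N : ℝ) ≠ 0 := by positivity
  rw [e1, extDeriv_eq, e2, map_smul, smul_smul, inv_mul_cancel₀ hN', one_smul, ← extDeriv_eq]
  exact h2 _

end

end Pool.Agent.MP_be5fd0_gt.H13

end

-- part MP_be5fd0_gt.H13.Lam
section

/-! Lamination: a path whose classes move in one coordinate direction is straightened on a cover. -/

namespace Pool.Agent.MP_be5fd0_gt.H13

open Set Filter Topology Metric MeasureTheory
open scoped ContDiff

noncomputable section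

/-- coordinate functionals -/
def pj (i : Fin 4) : E →L[ℝ] ℝ := ContinuousLinearMap.proj i

/-- the map sending `v` to the operator `x ↦ x i • v` -/
def sr {V : Type*} [NormedAddCommGroup V] [NormedSpace ℝ V] (i : Fin 4) : V →L[ℝ] (E →L[ℝ] V) :=
  ContinuousLinearMap.smulRightL ℝ E V (pj i)

theorem sr_apply {V : Type*} [NormedAddCommGroup V] [NormedSpace ℝ V] (i : Fin 4) (v : V) (x : E) :
    sr i v x = x i • v := rfl

/-- wedge product with a coordinate covector -/
def wd (i : Fin 4) : A1 →L[ℝ] A2 := alt.comp (sr (V := A1) i)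

theorem wd_apply (i : Fin 4) (v : A1) : wd i v = alt (sr (V := A1) i v) := rfl

section Calc

variable {V : Type*} [NormedAddCommGroup V] [NormedSpace ℝ V]

/-- derivative in the parameter -/
def dP (F : ℝ → E → V) (s : ℝ) (x : E) : V := fderiv ℝ (fun p : ℝ × E => F p.1 p.2) (s, x) (1, 0)

theorem continuous_dP {F : ℝ → E → V} (h : ContDiff ℝ ∞ fun p : ℝ × E => F p.1 p.2) :
    Continuous fun p : ℝ × E => dP F p.1 p.2 :=
  (h.continuous_fderiv (by simp)).clm_apply continuous_const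

theorem per_dP {F : ℝ → E → V} (hp : ∀ t, Per (F t)) (s : ℝ) : Per (dP F s) := fun n x => by
  unfold dP
  have h1 : ((s, x + fun i => (n i : ℝ)) : ℝ × E) = (s, x) + (0, fun i => (n i : ℝ)) := by simp
  rw [h1, ← fderiv_comp_add_right]
  simp only [Prod.fst_add, add_zero, Prod.snd_add, hp _ n]

theorem fderiv_lam {F : ℝ → E → V} (h : ContDiff ℝ ∞ fun p : ℝ × E => F p.1 p.2) {S : ℝ → ℝ}
    {S' : ℝ} (i : Fin 4) (c : ℝ) (x : E) (hS : HasDerivAt S S' (x i)) :
    HasFDerivAt (fun y : E => F (S (y i)) (c • y))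
      (sr i (S' • dP F (S (x i)) (c • x)) + c • fderiv ℝ (F (S (x i))) (c • x)) x := by
  have h0 := (h.differentiable (by simp) (S (x i), c • x)).hasFDerivAt
  have h1 : HasFDerivAt (fun y : E => S (y i)) (S' • pj i) x :=
    hS.comp_hasFDerivAt (f := fun y : E => y i) x (pj i).hasFDerivAt
  have h2 : HasFDerivAt (fun y : E => c • y) (c • ContinuousLinearMap.id ℝ E) x :=
    (hasFDerivAt_id x).const_smul c
  have h3 := h0.comp x (h1.prodMk h2)
  have h4 : HasFDerivAt (F (S (x i))) _ (c • x) :=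
    h0.comp (f := fun y : E => (S (x i), y)) (c • x) (hasFDerivAt_prodMk_right _ _)
  rw [h4.fderiv]
  refine h3.congr_fderiv ?_
  ext v
  have e : ((S' * v i, c • v) : ℝ × E) = (v i * S') • ((1, 0) : ℝ × E) + c • ((0, v) : ℝ × E) := by
    simp [mul_comm]
  simp only [ContinuousLinearMap.comp_apply, ContinuousLinearMap.prod_apply,
    smul_apply, ContinuousLinearMap.id_apply, add_apply,
    sr_apply, dP, smul_smul, ContinuousLinearMap.inr_apply, pj, ContinuousLinearMap.proj_apply,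
    smul_eq_mul]
  rw [e, map_add, map_smul, map_smul]

theorem fderiv_H {H : ℝ → V} {H' : V} (i : Fin 4) (x : E) (hH : HasDerivAt H H' (x i)) :
    HasFDerivAt (fun y : E => H (y i)) (sr i H') x := by
  have h := hH.hasFDerivAt.comp (f := fun y : E => y i) x (pj i).hasFDerivAt
  refine h.congr_fderiv ?_
  ext v
  simp [sr_apply, pj]

theorem exists_prim [CompleteSpace V] {h : ℝ → V} (hs : ContDiff ℝ ∞ h)
    (hp : Function.Periodic h 1) : ∃ H : ℝ → V, ContDiff ℝ ∞ H ∧ Function.Periodic H 1 ∧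
      ∀ u, HasDerivAt H (h u - ∫ v in (0 : ℝ)..1, h v) u := by
  set m := ∫ v in (0 : ℝ)..1, h v with hm
  have hc : Continuous fun u => h u - m := hs.continuous.sub continuous_const
  have hd : ∀ u, HasDerivAt (fun u => ∫ v in (0 : ℝ)..u, (h v - m)) (h u - m) u := fun u =>
    (hc.integral_hasStrictDerivAt 0 u).hasDerivAt
  refine ⟨fun u => ∫ v in (0 : ℝ)..u, (h v - m), ?_, fun u => ?_, hd⟩
  · rw [contDiff_infty_iff_deriv]
    refine ⟨fun u => (hd u).differentiableAt, ?_⟩
    rw [show deriv (fun u => ∫ v in (0 : ℝ)..u, (h v - m)) = fun u => h u - m from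
      funext fun u => (hd u).deriv]
    exact hs.sub contDiff_const
  · have hp' : Function.Periodic (fun u => h u - m) 1 := fun u => by simp only [hp u]
    have h1 := hp'.intervalIntegral_add_eq_add 0 u (fun _ _ => hc.intervalIntegrable _ _)
    simp only [h1, zero_add]
    rw [intervalIntegral.integral_sub (hs.continuous.intervalIntegrable 0 1)
      (continuous_const.intervalIntegrable 0 1), ← hm]
    simp

/-- the slowly varying parameter -/
def SS (η t u : ℝ) : ℝ := Real.smoothTransition ((Real.cos (2 * Real.pi * u) + t) / η)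

theorem SS_mem (η t u : ℝ) : SS η t u ∈ Icc (0 : ℝ) 1 :=
  ⟨Real.smoothTransition.nonneg _, Real.smoothTransition.le_one _⟩

theorem SS_smooth (η : ℝ) : ContDiff ℝ ∞ fun p : ℝ × ℝ => SS η p.1 p.2 := by
  unfold SS
  refine Real.smoothTransition.contDiff.comp (ContDiff.div_const ?_ _)
  fun_prop

theorem SS_per (η t : ℝ) : Function.Periodic (SS η t) 1 := fun u => by
  unfold SS
  rw [mul_add, mul_one, Real.cos_add_two_pi]

theorem null_level (t : ℝ) : ∀ᵐ u : ℝ, Real.cos (2 * Real.pi * u) + t ≠ 0 := by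
  rw [ae_iff]
  refine Set.Countable.measure_zero ?_ _
  by_cases h : ∃ u₀, Real.cos (2 * Real.pi * u₀) + t = 0
  · obtain ⟨u₀, h₀⟩ := h
    refine ((countable_range fun k : ℤ => (k : ℝ) + u₀).union
      (countable_range fun k : ℤ => (k : ℝ) - u₀)).mono fun u hu => ?_
    have hu' : Real.cos (2 * Real.pi * u) + t = 0 := by simpa using hu
    obtain ⟨k, hk⟩ := Real.cos_eq_cos_iff.1
      (show Real.cos (2 * Real.pi * u₀) = Real.cos (2 * Real.pi * u) by linarith)
    have hpi : (2 * Real.pi) ≠ 0 := by positivity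
    rcases hk with hk | hk
    · exact Or.inl ⟨k, mul_left_cancel₀ hpi (by simp only; linarith)⟩
    · exact Or.inr ⟨k, mul_left_cancel₀ hpi (by simp only; linarith)⟩
  · push Not at h
    simp [h]

theorem small_mean {β : ℝ → V} (hβ : Continuous β) (h0 : β 0 = 0) (h1 : β 1 = 0) {δ : ℝ}
    (hδ : 0 < δ) : ∃ η, 0 < η ∧ η ≤ 1 ∧ ∀ t ∈ Icc (-2 : ℝ) 2,
      ‖∫ u in (0 : ℝ)..1, β (SS η t u)‖ ≤ δ := by
  obtain ⟨C, hC⟩ := isCompact_Icc.exists_bound_of_continuousOn (s := Icc (0 : ℝ) 1)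
    hβ.continuousOn
  have key := (isCompact_Icc (a := (-2 : ℝ)) (b := 2)).eventually_forall_of_forall_eventually
    (x₀ := (0 : ℝ)) (P := fun η t => ‖∫ u in (0 : ℝ)..1, β (SS η t u)‖ ≤ δ) (fun t₀ _ => by
      have hc : ContinuousAt (fun z : ℝ × ℝ => ∫ u in (0 : ℝ)..1, β (SS z.1 z.2 u)) (0, t₀) := by
        refine intervalIntegral.continuousAt_of_dominated_interval (bound := fun _ => C)
          (Eventually.of_forall fun z => ?_)
          (Eventually.of_forall fun z => Eventually.of_forall fun u _ => hC _ (SS_mem _ _ _))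
          (continuous_const.intervalIntegrable _ _) ((null_level t₀).mono fun u hu _ => ?_)
        · exact (hβ.comp ((SS_smooth z.1).continuous.comp
            (f := fun u : ℝ => (z.2, u)) (by fun_prop))).aestronglyMeasurable
        · have hlt : ∀ᶠ z : ℝ × ℝ in 𝓝 (0, t₀), |z.1| < |Real.cos (2 * Real.pi * u) + z.2| :=
            ContinuousAt.eventually_lt (by fun_prop) (by fun_prop) (by simpa using hu)
          refine (continuousAt_const (y := (0 : V))).congr (hlt.mono fun z hz => ?_)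
          unfold SS
          rcases le_or_gt ((Real.cos (2 * Real.pi * u) + z.2) / z.1) 0 with h | h
          · simp only [Real.smoothTransition.zero_of_nonpos h, h0]
          · have hz1 : z.1 ≠ 0 := fun h' => by simp [h'] at h
            have h2 : 1 ≤ (Real.cos (2 * Real.pi * u) + z.2) / z.1 := by
              rw [← abs_of_pos h, abs_div, le_div_iff₀ (abs_pos.2 hz1), one_mul]
              exact hz.le
            simp only [Real.smoothTransition.one_of_one_le h2, h1]
      have hv : ‖∫ u in (0 : ℝ)..1, β (SS 0 t₀ u)‖ < δ := by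
        simpa [SS, Real.smoothTransition.zero, h0] using hδ
      exact (hc.norm.eventually_lt continuousAt_const hv).mono fun _ h => h.le)
  have h2 : ∀ᶠ η in 𝓝[>] (0 : ℝ), η ≤ 1 := mem_nhdsWithin_of_mem_nhds (Iic_mem_nhds one_pos)
  obtain ⟨η, ⟨h3, h4⟩, h5⟩ :=
    (((eventually_nhdsWithin_of_eventually_nhds key).and h2).and self_mem_nhdsWithin).exists
  exact ⟨η, h5, h4, h3⟩

end Calc

theorem lam {a : A2} (i : Fin 4) {F : ℝ → E → A1} (hF : Fam F) {β : ℝ → A1}
    (hβ : ContDiff ℝ ∞ β) (h0 : β 0 = 0) (h1 : β 1 = 0)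
    (hN : ∀ s ∈ Icc (0 : ℝ) 1, ∀ x, Nd (a + wd i (β s) + extDeriv (F s) x)) :
    ∃ M : ℕ, 0 < M ∧ Pth a (sc M fun x => a + extDeriv (F 0) x)
      (sc M fun x => a + extDeriv (F 1) x) := by
  have cβ : Continuous β := hβ.continuous
  have cd : Continuous fun p : ℝ × E => extDeriv (F p.1) p.2 := hF.smooth_d.continuous
  have cP : Continuous fun p : ℝ × E => dP F p.1 p.2 := continuous_dP (V := A1) hF.1
  obtain ⟨ε, hε, hm⟩ := margin (Φ := fun s x => a + wd i (β s) + extDeriv (F s) x)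
    ((continuous_const.add ((wd i).continuous.comp (cβ.comp continuous_fst))).add cd)
    (fun s n x => by simp only [(hF.isForm s).extDeriv.2 n x]) isCompact_Icc hN
  obtain ⟨δ, hδ, hw⟩ : ∃ δ > 0, ∀ v : A1, ‖v‖ ≤ δ → ‖wd i v‖ ≤ ε := by
    refine ⟨ε / (‖wd i‖ + 1), by positivity, fun v hv => ((wd i).le_opNorm v).trans ?_⟩
    rw [le_div_iff₀ (by positivity)] at hv
    nlinarith [norm_nonneg v]
  obtain ⟨η, hη, hη1, hsm⟩ := small_mean cβ h0 h1 (half_pos hδ)
  have sS := SS_smooth η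
  have sSt : ∀ t, ContDiff ℝ ∞ (SS η t) := fun t =>
    sS.comp (f := fun u : ℝ => (t, u)) (by fun_prop)
  have dS : ∀ t u, HasDerivAt (SS η t) (deriv (SS η t) u) u := fun t u =>
    ((sSt t).differentiable (by simp) u).hasDerivAt
  have cS' : Continuous fun p : ℝ × ℝ => deriv (SS η p.1) p.2 :=
    (ContDiff.fderiv_apply (f := fun (p : ℝ × ℝ) (u : ℝ) => SS η p.1 u) (g := fun p => p.2)
      (k := fun _ => (1 : ℝ)) (m := ∞) (n := 0)
      (sS.comp (f := fun q : (ℝ × ℝ) × ℝ => (q.1.1, q.2)) (by fun_prop)) contDiff_snd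
      contDiff_const (by simp)).continuous
  have pS : ∀ t (n : Fin 4 → ℤ) (x : E),
      SS η t ((x + fun j => (n j : ℝ)) i) = SS η t (x i) := fun t n x => by
    simpa using (SS_per η t).int_mul (n i) (x i)
  have pS' : ∀ t, Per fun x : E => deriv (SS η t) (x i) := fun t n x => by
    have h2 : (fun u => SS η t (u + (n i : ℝ))) = SS η t := funext fun u => by
      simpa using (SS_per η t).int_mul (n i) u
    simp only [Pi.add_apply]
    rw [← deriv_comp_add_const, h2]
  obtain ⟨C₁, hC₁, b1⟩ := bdd cP (per_dP hF.2) (isCompact_Icc (a := (0 : ℝ)) (b := 1))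
  obtain ⟨C₂, hC₂, b2⟩ := bdd (Φ := fun t (x : E) => deriv (SS η t) (x i))
    (cS'.comp (f := fun p : ℝ × E => (p.1, p.2 i)) (by fun_prop)) pS'
    (isCompact_Icc (a := (-2 : ℝ)) (b := 2))
  obtain ⟨M, hM⟩ := exists_nat_gt (C₂ * C₁ / (δ / 2))
  have hM0 : (0 : ℝ) < M := lt_trans (by positivity) hM
  refine ⟨M, by exact_mod_cast hM0, ?_⟩
  let m : ℝ → A1 := fun t => ∫ u in (0 : ℝ)..1, β (SS η t u)
  have cm : Continuous m :=
    intervalIntegral.continuous_parametric_intervalIntegral_of_continuous'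
      (f := fun t u => β (SS η t u)) (cβ.comp sS.continuous) 0 1
  let Ω : ℝ → E → A2 := fun t x =>
    a + wd i (β (SS η t (x i))) + extDeriv (F (SS η t (x i))) ((M : ℝ) • x) +
      wd i ((M : ℝ)⁻¹ • deriv (SS η t) (x i) • dP F (SS η t (x i)) ((M : ℝ) • x) - m t)
  have cS : Continuous fun p : ℝ × E => SS η p.1 (p.2 i) :=
    sS.continuous.comp (f := fun p : ℝ × E => (p.1, p.2 i)) (by fun_prop)
  have cq : Continuous fun p : ℝ × E => ((SS η p.1 (p.2 i), (M : ℝ) • p.2) : ℝ × E) :=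
    cS.prodMk (by fun_prop)
  have cΩ : Continuous fun p : ℝ × E => Ω p.1 p.2 :=
    ((continuous_const.add ((wd i).continuous.comp (cβ.comp cS))).add (cd.comp cq)).add
      ((wd i).continuous.comp ((((cS'.comp (f := fun p : ℝ × E => (p.1, p.2 i))
        (by fun_prop)).smul (cP.comp cq)).const_smul (M : ℝ)⁻¹).sub (cm.comp continuous_fst)))
  have eΩ : ∀ t, Ex a (Ω t) := fun t => by
    obtain ⟨H, sH, pH, dH⟩ := exists_prim (V := A1) (h := fun u => β (SS η t u))
      (hβ.comp (sSt t)) (fun u => by simp only [SS_per η t u])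
    refine ⟨fun x => H (x i) + (M : ℝ)⁻¹ • F (SS η t (x i)) ((M : ℝ) • x), ⟨?_, fun n x => ?_⟩,
      fun x => ?_⟩
    · exact (sH.comp (pj i).contDiff).add ((hF.1.comp
        (f := fun x : E => (SS η t (x i), (M : ℝ) • x))
        (((sSt t).comp (pj i).contDiff).prodMk (by fun_prop))).const_smul _)
    · have e1 : H ((x + fun j => (n j : ℝ)) i) = H (x i) := by
        simpa using pH.int_mul (n i) (x i)
      have e2 := Per.sc (hF.2 (SS η t (x i))) M n x
      unfold sc at e2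
      simp only [e1, pS, e2]
    · have hd := (fderiv_H (V := A1) i x (dH (x i))).add
        ((fderiv_lam (V := A1) hF.1 i M x (dS t (x i))).const_smul (M : ℝ)⁻¹)
      have hd2 : fderiv ℝ (fun x : E => H (x i) + (M : ℝ)⁻¹ • F (SS η t (x i)) ((M : ℝ) • x)) x
          = _ := hd.fderiv
      rw [extDeriv_eq, hd2]
      simp only [Ω, m, map_add, map_smul, map_sub, smul_add, smul_smul, ← wd_apply,
        inv_mul_cancel₀ hM0.ne', one_smul, ← extDeriv_eq]
      module
  have nΩ : ∀ t ∈ Icc (-2 : ℝ) 2, ∀ x, Nd (Ω t x) := fun t ht x => by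
    refine hm _ (SS_mem _ _ _) _ _ (hw _ ((norm_sub_le _ _).trans ?_))
    have e1 := hsm t ht
    have e2 := b1 _ (SS_mem η t (x i)) ((M : ℝ) • x)
    have e3 := b2 t ht x
    have e4 : ‖(M : ℝ)⁻¹ • deriv (SS η t) (x i) • dP F (SS η t (x i)) ((M : ℝ) • x)‖ ≤ δ / 2 := by
      rw [norm_smul, norm_smul, Real.norm_of_nonneg (inv_nonneg.2 hM0.le), inv_mul_le_iff₀ hM0]
      rw [div_lt_iff₀ (half_pos hδ)] at hM
      exact (mul_le_mul e3 e2 (norm_nonneg _) hC₂.le).trans hM.le
    linarith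
  have hP := pth_of_cont cΩ eΩ (by norm_num) nΩ
  have s0 : SS η (-2) = fun _ => 0 := funext fun u =>
    Real.smoothTransition.zero_of_nonpos (div_nonpos_of_nonpos_of_nonneg
      (by linarith [Real.cos_le_one (2 * Real.pi * u)]) hη.le)
  have s1 : SS η 2 = fun _ => 1 := funext fun u =>
    Real.smoothTransition.one_of_one_le (by
      rw [le_div_iff₀ hη]
      linarith [Real.neg_one_le_cos (2 * Real.pi * u)])
  have o0 : Ω (-2) = sc M fun x => a + extDeriv (F 0) x := funext fun x => by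
    simp [Ω, m, s0, h0, sc]
  have o1 : Ω 2 = sc M fun x => a + extDeriv (F 1) x := funext fun x => by
    simp [Ω, m, s1, h1, sc]
  rwa [o0, o1] at hP

end

end Pool.Agent.MP_be5fd0_gt.H13

end

-- part MP_be5fd0_gt.H13.Good
section

/-! Forms which become isotopic to a constant form on a finite cover. -/

namespace Pool.Agent.MP_be5fd0_gt.H13

open Set Filter Topology Metric MeasureTheory
open scoped ContDiff

noncomputable section

/-- isotopic to the constant form on a finite cover -/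
def Good (a : A2) (θ : E → A2) : Prop := ∃ N : ℕ, 0 < N ∧ Pth a (sc N θ) fun _ => a

theorem Ex.shift {a : A2} {θ : E → A2} (h : Ex a θ) (b : A2) : Ex (a + b) fun x => θ x + b := by
  obtain ⟨l, h1, h2⟩ := h
  exact ⟨l, h1, fun x => by beta_reduce; rw [h2, add_right_comm]⟩

theorem good_move {c : A2} {z : E → A2} (hz : Ex c z) (i : Fin 4) (v : A1)
    (hN : ∀ t ∈ Icc (0 : ℝ) 1, ∀ x, Nd (z x + t • wd i v)) (h : Good c z) :
    Good (c + wd i v) fun x => z x + wd i v := by
  obtain ⟨N, hN0, F, h1, h2, h3, h4⟩ := h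
  have hF : Fam fun s => F (3 * s - 1) :=
    ⟨h1.1.comp (f := fun p : ℝ × E => (3 * p.1 - 1, p.2)) (by fun_prop), fun _ => h1.2 _⟩
  have z0 := @Real.smoothTransition.zero_of_nonpos
  have z1 := @Real.smoothTransition.one_of_one_le
  obtain ⟨M, hM, hP⟩ := lam (a := c + wd i v) i hF
    (β := fun s => (Real.smoothTransition (3 * s - 2) - Real.smoothTransition (3 * s)) • v)
    (((Real.smoothTransition.contDiff.comp (by fun_prop)).sub
      (Real.smoothTransition.contDiff.comp (by fun_prop))).smul contDiff_const)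
    (by rw [z0 (by norm_num), z0 (by norm_num)]; simp)
    (by rw [z1 (by norm_num), z1 (by norm_num)]; simp)
    (fun s _ x => by
      have e : c + wd i v + wd i ((Real.smoothTransition (3 * s - 2) -
          Real.smoothTransition (3 * s)) • v) + extDeriv (F (3 * s - 1)) x =
          (c + extDeriv (F (3 * s - 1)) x) + (1 + Real.smoothTransition (3 * s - 2) -
          Real.smoothTransition (3 * s)) • wd i v := by
        rw [map_smul]
        module
      rw [e]
      rcases le_total (3 * s) 1 with hs | hs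
      · rw [h2 _ (by linarith), z0 (x := 3 * s - 2) (by linarith)]
        exact hN _ ⟨by linarith [Real.smoothTransition.le_one (3 * s)],
          by linarith [Real.smoothTransition.nonneg (3 * s)]⟩ _
      · rw [z1 hs]
        rcases le_total (3 * s) 2 with hs' | hs'
        · rw [z0 (by linarith)]
          simpa using h4 _ _
        · rw [h3 _ (by linarith)]
          exact Nd_cls ⟨Ex.shift hz _, hN _
            ⟨by linarith [Real.smoothTransition.nonneg (3 * s - 2)],
              by linarith [Real.smoothTransition.le_one (3 * s - 2)]⟩⟩)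
  refine ⟨N * M, Nat.mul_pos hN0 hM, ?_⟩
  have e0 : (sc M fun x => c + wd i v + extDeriv (F (3 * 0 - 1)) x) =
      sc (N * M) fun x => z x + wd i v := funext fun x => by
    simp only [sc]
    rw [add_right_comm, h2 _ (by norm_num), sc, smul_smul, Nat.cast_mul]
  have e1 : (sc M fun x => c + wd i v + extDeriv (F (3 * 1 - 1)) x) = fun _ => c + wd i v :=
    funext fun x => by
      simp only [sc]
      rw [add_right_comm, h3 _ (by norm_num)]
  rwa [e0, e1] at hP

theorem good_shift {c : A2} {z : E → A2} (hz : Ex c z) {ε : ℝ}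
    (hε : ∀ x η, ‖η‖ ≤ ε → Nd (z x + η)) (v : Fin 4 → A1) (hv : ∑ i, ‖wd i (v i)‖ ≤ ε)
    (h : Good c z) (s : Finset (Fin 4)) :
    Good (c + ∑ i ∈ s, wd i (v i)) fun x => z x + ∑ i ∈ s, wd i (v i) := by
  classical
  induction s using Finset.induction_on with
  | empty => simpa using h
  | insert j s hj ih =>
    have h2 := good_move (Ex.shift hz _) j (v j) (fun t ht x => by
      rw [add_assoc]
      refine hε x _ ((norm_add_le _ _).trans (le_trans ?_ hv))
      calc ‖∑ i ∈ s, wd i (v i)‖ + ‖t • wd j (v j)‖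
          ≤ ∑ i ∈ s, ‖wd i (v i)‖ + ‖wd j (v j)‖ := by
            refine add_le_add (norm_sum_le _ _) ?_
            rw [norm_smul, Real.norm_of_nonneg ht.1]
            exact mul_le_of_le_one_left (norm_nonneg _) ht.2
        _ = ∑ i ∈ insert j s, ‖wd i (v i)‖ := by rw [Finset.sum_insert hj, add_comm]
        _ ≤ _ := Finset.sum_le_sum_of_subset_of_nonneg (Finset.subset_univ _)
            fun _ _ _ => norm_nonneg _) ih
    simpa only [Finset.sum_insert hj, add_assoc, add_comm (wd j (v j))] using h2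

theorem alt_apply (L : E →L[ℝ] A1) (p q : E) : alt L ![p, q] = L p ![q] - L q ![p] := by
  have h : alt L ![p, q] = ContinuousAlternatingMap.alternatizeUncurryFin L ![p, q] := rfl
  rw [h, ContinuousAlternatingMap.alternatizeUncurryFin_apply, Fin.sum_univ_two]
  have h0 : Fin.removeNth (0 : Fin 2) ![p, q] = ![q] := by funext i; fin_cases i; rfl
  have h1 : Fin.removeNth (1 : Fin 2) ![p, q] = ![p] := by funext i; fin_cases i; rfl
  rw [h0, h1]
  simp [sub_eq_add_neg]

theorem exists_dec : ∃ K > 0, ∀ b : A2, ∃ v : Fin 4 → A1,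
    ∑ i, wd i (v i) = b ∧ ∑ i, ‖wd i (v i)‖ ≤ K * ‖b‖ := by
  refine ⟨∑ i, ‖wd i‖ + 1, by positivity, fun b =>
    ⟨fun i => (1 / 2 : ℝ) • b.curryLeft (ee i), ?_, ?_⟩⟩
  · ext m
    have h2 : m = ![m 0, m 1] := by funext i; fin_cases i <;> rfl
    rw [h2, Fin.sum_univ_four]
    simp only [ContinuousAlternatingMap.add_apply, wd_apply, alt_apply, sr_apply,
      ContinuousAlternatingMap.smul_apply, ContinuousAlternatingMap.curryLeft_apply_apply,
      smul_eq_mul]
    have e1 := expand' b (m 0) (m 1)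
    have e2 := expand' b (m 1) (m 0)
    have e3 := A2_swap b (m 0) (m 1)
    linear_combination (-1 / 2 : ℝ) * e1 + (1 / 2 : ℝ) * e2 - (1 / 2 : ℝ) * e3
  · rw [add_mul, Finset.sum_mul]
    refine le_trans (Finset.sum_le_sum fun i _ => ((wd i).le_opNorm _).trans ?_)
      (le_add_of_nonneg_right (by positivity))
    refine mul_le_mul_of_nonneg_left ?_ (norm_nonneg _)
    have e1 : ‖b.curryLeft (ee i)‖ ≤ ‖b‖ * ‖ee i‖ := by
      rw [← b.norm_curryLeft]
      exact ContinuousLinearMap.le_opNorm (E := E) (F := A1) b.curryLeft (ee i)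
    have e2 : ‖ee i‖ = 1 := by simp [ee, Pi.norm_single]
    rw [norm_smul, Real.norm_of_nonneg (by norm_num)]
    rw [e2] at e1
    nlinarith [norm_nonneg b]

theorem good_close {ε : ℝ} (hε : 0 < ε) : ∃ δ > 0, ∀ (a a' : A2) (θ θ' : E → A2), Ex a θ →
    Ex a' θ' → (∀ x η, ‖η‖ ≤ ε → Nd (θ x + η)) → (∀ x, ‖θ' x - θ x‖ ≤ δ) → Good a θ →
    Good a' θ' := by
  obtain ⟨K, hK, hd⟩ := exists_dec
  refine ⟨min (ε / K) (ε / 3), by positivity, fun a a' θ θ' h h' hm hc hg => ?_⟩
  have hb := norm_cls h' h hc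
  have hb1 := hb.trans (min_le_left _ _)
  have hb2 := hb.trans (min_le_right _ _)
  obtain ⟨v, hv1, hv2⟩ := hd (a' - a)
  have h1 := good_shift h hm v (hv2.trans (by rwa [le_div_iff₀ hK, mul_comm] at hb1)) hg
    Finset.univ
  have h2 := Ex.shift h (a' - a)
  rw [hv1] at h1
  rw [add_sub_cancel] at h1 h2
  obtain ⟨N, hN, hP⟩ := h1
  refine ⟨N, hN, (Pth.of_close (ε := 2 * (ε / 3)) (Ex.sc h2 hN) (Ex.sc h' hN) (fun x η hη => ?_)
    fun x => ?_).symm.trans hP⟩
  · unfold sc
    rw [add_assoc]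
    exact hm _ _ ((norm_add_le _ _).trans (by linarith))
  · unfold sc
    rw [← sub_sub]
    exact (norm_sub_le _ _).trans (by linarith [(hc ((N : ℝ) • x)).trans (min_le_right _ _)])

theorem good_of_path {Ω : unitInterval → E → A2}
    (hc : Continuous fun p : unitInterval × E => Ω p.1 p.2) (hs : ∀ t, IsSymp (Ω t)) {b : A2}
    (h1 : Ω 1 = fun _ => b) {a : A2} (ha : Ex a (Ω 0)) : Good a (Ω 0) := by
  have hp : ∀ t, Per (Ω t) := fun t => (hs t).1.2
  obtain ⟨ε, hε, hm⟩ := margin hc hp isCompact_univ fun t _ => (hs t).2.2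
  obtain ⟨δ, hδ, hg⟩ := good_close hε
  have key := PreconnectedSpace.induction₂' (fun s t : unitInterval =>
    (∀ c, Ex c (Ω s) → Good c (Ω s)) → ∀ c, Ex c (Ω t) → Good c (Ω t))
    (fun s => (near hc hp s hδ).mono fun t ht => by
      obtain ⟨cs, hcs⟩ := exists_const (hs s).1 (hs s).2.1
      obtain ⟨ct, hct⟩ := exists_const (hs t).1 (hs t).2.1
      exact ⟨fun h c hc' => hg _ _ _ _ hcs hc' (hm s trivial) ht (h _ hcs),
        fun h c hc' => hg _ _ _ _ hct hc' (hm t trivial)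
          (fun x => by rw [norm_sub_rev]; exact ht x) (h _ hct)⟩)
    ⟨fun _ _ _ h h' h'' => h' (h h'')⟩ 1 0
  refine key (fun c hc' => ?_) a ha
  have hN := hm 1 trivial
  rw [h1] at hc' hN ⊢
  have e : c = b := by
    have := norm_cls hc' (Ex_const b) (δ := 0) (fun x => by simp)
    simpa [sub_eq_zero] using this
  subst e
  have h2 : Pth c (fun _ => c) fun _ => c :=
    Pth.of_close (Ex_const c) (Ex_const c) hN fun x => by simpa using hε.le
  exact ⟨1, one_pos, h2⟩

theorem Rel.sc {a : A2} {θ θ' : E → A2} (h : Rel a θ θ') {N : ℕ} (hN : 0 < N) :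
    Rel a (sc N θ) (sc N θ') := by
  obtain ⟨Ω, h1, h2, h3, h4⟩ := h
  exact ⟨fun t => H13.sc N (Ω t),
    h1.comp (f := fun p : ℝ × E => (p.1, (N : ℝ) • p.2)) (by fun_prop),
    fun t ht => by simp only [h2 t ht], fun t ht => by simp only [h3 t ht],
    fun t => ⟨Ex.sc (h4 t).1 hN, fun x => (h4 t).2 _⟩⟩

theorem Good.rel {a : A2} {θ : E → A2} (h : Good a θ) :
    ∃ N₀ : ℕ, 0 < N₀ ∧ ∀ N, 0 < N → N₀ ∣ N → Rel a (sc N θ) fun _ => a := by
  obtain ⟨N₀, h0, hP⟩ := h
  refine ⟨N₀, h0, ?_⟩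
  rintro _ hN ⟨k, rfl⟩
  have h1 := Rel.sc hP.rel (N := k) (Nat.pos_of_mul_pos_left hN)
  have e : sc k (sc N₀ θ) = sc (N₀ * k) θ := funext fun x => by
    simp only [sc, smul_smul, Nat.cast_mul]
  rwa [e] at h1

end

end Pool.Agent.MP_be5fd0_gt.H13

end
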