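import Mathlib
import Pool.Agent.MP_be5fd0_gt.Defs

-- part MP_be5fd0_gt.Four
section

/-! Fourier coefficients of continuous functions on the four-torus, directional derivatives. -/

namespace Pool.Agent.MP_be5fd0_gt

open Set Filter Topology MeasureTheory UnitAddTorus
open scoped ComplexConjugate

noncomputable section

abbrev G := Fin 4 → ℤ
abbrev E := Fin 4 → ℝ
abbrev T4 := UnitAddTorus (Fin 4)
abbrev C4 := C(T4, ℂ)

@[simp] theorem zero_smulC (F : C4) : (0 : ℂ) • F = 0 := by ext y; simp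

@[simp] theorem smul_zeroC (c : ℂ) : c • (0 : C4) = 0 := by ext y; simp

@[simp] theorem one_smulC (F : C4) : (1 : ℂ) • F = F := by ext y; simp

/-- Haar probability measure of the torus -/
def ν : Measure T4 := Measure.pi fun _ => AddCircle.haarAddCircle

instance : IsProbabilityMeasure ν := by unfold ν; infer_instance

instance : ν.IsAddHaarMeasure := by unfold ν; infer_instance

/-- the projection to the torus -/
def pr : E →+ T4 where
  toFun x := fun i => (x i : UnitAddCircle)
  map_zero' := by funext i; simp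
  map_add' x y := by funext i; simp

theorem pr_apply (x : E) (i : Fin 4) : pr x i = (x i : UnitAddCircle) := rfl

theorem continuous_pr : Continuous pr :=
  continuous_pi fun i => (AddCircle.continuous_mk' 1).comp (continuous_apply i)

theorem isOpenQuotientMap_pr : IsOpenQuotientMap pr :=
  IsOpenQuotientMap.piMap fun _ : Fin 4 =>
    (QuotientAddGroup.isOpenQuotientMap_mk (N := AddSubgroup.zmultiples (1 : ℝ)))

theorem pr_surj : Function.Surjective pr := isOpenQuotientMap_pr.surjective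

/-- the exponentials -/
def e (N : G) : C4 := mFourier N

theorem e_zero : e 0 = 1 := mFourier_zero

theorem e_add (M N : G) : e (M + N) = e M * e N := by
  ext x; exact mFourier_add

theorem e_neg (N : G) (x : T4) : e (-N) x = conj (e N x) := mFourier_neg

theorem norm_e (N : G) : ‖e N‖ = 1 := mFourier_norm

theorem e_apply_add (N : G) (x y : T4) : e N (x + y) = e N x * e N y := by
  simp only [e, mFourier, ContinuousMap.coe_mk, Pi.add_apply, ← Finset.prod_mul_distrib]
  refine Finset.prod_congr rfl fun i _ => ?_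
  simp [fourier_apply, AddCircle.toCircle_add]

theorem norm_e_apply (N : G) (x : T4) : ‖e N x‖ = 1 := by
  simp [e, mFourier, fourier_apply]

/-- the symbol of the derivative in direction `u` -/
def sym (u : E) (N : G) : ℂ := 2 * Real.pi * Complex.I * ((∑ j, (N j : ℝ) * u j : ℝ) : ℂ)

theorem e_pr (N : G) (x : E) : e N (pr x) = Complex.exp (sym x N) := by
  simp only [e, mFourier, ContinuousMap.coe_mk, pr_apply, fourier_coe_apply, sym]
  rw [← Complex.exp_sum]
  congr 1
  push_cast
  rw [Finset.mul_sum]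
  refine Finset.sum_congr rfl fun j _ => ?_
  ring

theorem sym_smul (s : ℝ) (u : E) (N : G) : sym (s • u) N = s * sym u N := by
  simp only [sym, Pi.smul_apply, smul_eq_mul]
  push_cast
  rw [Finset.mul_sum, Finset.mul_sum, Finset.mul_sum]
  refine Finset.sum_congr rfl fun j _ => ?_
  ring

theorem sym_add (u : E) (M N : G) : sym u (M + N) = sym u M + sym u N := by
  simp only [sym, Pi.add_apply]
  push_cast
  rw [← mul_add, ← Finset.sum_add_distrib]
  congr 1
  refine Finset.sum_congr rfl fun j _ => ?_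
  ring

theorem sym_zero (u : E) : sym u 0 = 0 := by simp [sym]

theorem sym_neg (u : E) (N : G) : sym u (-N) = -sym u N := by
  have := sym_add u N (-N)
  rw [add_neg_cancel, sym_zero] at this
  linear_combination -this

theorem conj_sym (u : E) (N : G) : conj (sym u N) = -sym u N := by
  simp only [sym, map_mul, Complex.conj_ofReal, Complex.conj_I, map_ofNat]
  ring

theorem norm_sym_le (u : E) (N : G) : ‖sym u N‖ ≤ 2 * Real.pi * (4 * ‖u‖) * ‖N‖ := by
  have h1 : |∑ j, (N j : ℝ) * u j| ≤ 4 * ‖u‖ * ‖N‖ := by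
    refine (Finset.abs_sum_le_sum_abs _ _).trans ?_
    have : ∀ j ∈ (Finset.univ : Finset (Fin 4)), |(N j : ℝ) * u j| ≤ ‖u‖ * ‖N‖ := fun j _ => by
      rw [abs_mul, mul_comm]
      exact mul_le_mul (norm_le_pi_norm u j) (norm_le_pi_norm N j) (abs_nonneg _) (norm_nonneg _)
    refine (Finset.sum_le_card_nsmul _ _ _ this).trans (le_of_eq ?_)
    simp; ring
  have hpi := Real.pi_pos
  rw [sym, norm_mul, norm_mul, norm_mul, Complex.norm_I, Complex.norm_real, Complex.norm_real,
    Real.norm_eq_abs, Real.norm_eq_abs, abs_of_pos hpi, Complex.norm_ofNat]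
  nlinarith

theorem C4_int (F : C4) : Integrable F ν :=
  F.continuous.integrable_of_hasCompactSupport (HasCompactSupport.of_compactSpace _)

/-- Fourier coefficient -/
def co (N : G) : C4 →L[ℂ] ℂ :=
  LinearMap.mkContinuous
    { toFun := fun F => ∫ x, (e (-N) * F) x ∂ν
      map_add' := fun F F' => by
        rw [mul_add]
        exact integral_add (C4_int _) (C4_int _)
      map_smul' := fun c F => by
        rw [mul_smul_comm]
        exact integral_const_mul c _ } 1 fun F => by
    have : ∀ x, ‖(e (-N) * F) x‖ ≤ ‖F‖ := fun x => by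
      rw [ContinuousMap.mul_apply, norm_mul, norm_e_apply, one_mul]
      exact F.norm_coe_le_norm x
    simpa using norm_integral_le_of_norm_le_const (μ := ν) (Eventually.of_forall this)

theorem co_apply (N : G) (F : C4) : co N F = ∫ x, e (-N) x * F x ∂ν := rfl

theorem co_eq (N : G) (F : C4) : co N F = mFourierCoeff F N := rfl

theorem norm_co_le (N : G) (F : C4) : ‖co N F‖ ≤ ‖F‖ := by
  have : ‖co N‖ ≤ 1 := LinearMap.mkContinuous_norm_le _ zero_le_one _
  simpa using (co N).le_of_opNorm_le this F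

theorem co_e_mul (N K : G) (F : C4) : co N (e K * F) = co (N - K) F := by
  simp only [co_apply, ContinuousMap.mul_apply]
  congr 1
  funext x
  rw [← mul_assoc, neg_sub, sub_eq_neg_add, e_add, ContinuousMap.mul_apply]

theorem hasSum_co {F : C4} (h : Summable fun N => co N F) :
    HasSum (fun N => co N F • e N) F :=
  hasSum_mFourier_series_of_summable h

theorem co_ext {F F' : C4} (h : ∀ N, co N F = co N F') : F = F' := by
  have h1 : ∀ N, co N (F - F') = 0 := fun N => by rw [map_sub, h, sub_self]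
  have h2 := hasSum_co (F := F - F') (by simp [h1])
  have h3 : (fun N => co N (F - F') • e N) = fun _ => 0 := by
    funext N; rw [h1, zero_smulC]
  rw [h3] at h2
  exact sub_eq_zero.1 (h2.unique hasSum_zero)

theorem parseval (F : C4) : HasSum (fun N => ‖co N F‖ ^ 2) (∫ x, ‖F x‖ ^ 2 ∂ν) := by
  have h := hasSum_sq_mFourierCoeff (ContinuousMap.toLp 2 ν ℂ F)
  have h1 : ∀ N, mFourierCoeff (ContinuousMap.toLp 2 ν ℂ F) N = co N F := fun N =>
    mFourierCoeff_toLp F N
  have h2 : ∫ x, ‖(ContinuousMap.toLp 2 ν ℂ F) x‖ ^ 2 ∂ν = ∫ x, ‖F x‖ ^ 2 ∂ν := by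
    refine integral_congr_ae ?_
    filter_upwards [ContinuousMap.coeFn_toLp (p := 2) (𝕜 := ℂ) ν F] with x hx
    rw [hx]
  rw [← h2]
  exact HasSum.congr_fun h fun N => by rw [← h1 N]; rfl

/-- translation -/
def tr (τ : T4) : C4 →L[ℂ] C4 :=
  LinearMap.mkContinuous
    { toFun := fun F => F.comp ⟨fun y => y + τ, by fun_prop⟩
      map_add' := fun _ _ => rfl
      map_smul' := fun _ _ => rfl } 1 fun F => by
    rw [one_mul]
    exact (ContinuousMap.norm_le _ (norm_nonneg F)).2 fun y => F.norm_coe_le_norm _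

@[simp] theorem tr_apply (τ : T4) (F : C4) (y : T4) : tr τ F y = F (y + τ) := rfl

theorem tr_e (τ : T4) (N : G) : tr τ (e N) = e N τ • e N := by
  ext y; simp [e_apply_add, mul_comm]

theorem co_tr (τ : T4) (N : G) (F : C4) : co N (tr τ F) = e N τ * co N F := by
  simp only [co_apply, tr_apply]
  rw [← integral_add_right_eq_self (fun x => e (-N) x * F x) τ, ← integral_const_mul]
  congr 1
  funext x
  have : e N τ * e (-N) τ = 1 := by
    rw [← ContinuousMap.mul_apply, ← e_add, add_neg_cancel, e_zero, ContinuousMap.one_apply]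
  rw [e_apply_add]
  linear_combination (-(e (-N) x * F (x + τ))) * this

theorem exists_e_ne {N : G} (hN : N ≠ 0) : ∃ τ, e N τ ≠ 1 := by
  obtain ⟨j, hj⟩ := Function.ne_iff.1 hN
  have hj' : (N j : ℝ) ≠ 0 := by exact_mod_cast hj
  refine ⟨pr (Pi.single j (1 / (2 * N j))), ?_⟩
  have : (∑ i, (N i : ℝ) * (Pi.single j (1 / (2 * (N j : ℝ))) : E) i) = 1 / 2 := by
    rw [Finset.sum_eq_single j]
    · simp; field_simp
    · intro i _ hi; simp [Pi.single_eq_of_ne hi]
    · simp
  rw [e_pr, sym, this]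
  have h2 : (2 * Real.pi * Complex.I * ((1 / 2 : ℝ) : ℂ)) = Real.pi * Complex.I := by
    push_cast; ring
  rw [h2, Complex.exp_pi_mul_I]
  norm_num

theorem co_one (N : G) : co N 1 = if N = 0 then 1 else 0 := by
  split_ifs with h
  · simp [co_apply, h, e_zero]
  · obtain ⟨τ, hτ⟩ := exists_e_ne h
    have h1 := co_tr τ N 1
    have h2 : tr τ 1 = 1 := rfl
    rw [h2] at h1
    have : (e N τ - 1) * co N 1 = 0 := by linear_combination -h1
    exact (mul_eq_zero.1 this).resolve_left (sub_ne_zero.2 hτ)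

theorem co_e (N M : G) : co N (e M) = if N = M then 1 else 0 := by
  rw [← mul_one (e M), co_e_mul, co_one]
  simp [sub_eq_zero]

theorem dense_span_e : Dense (Submodule.span ℂ (range e) : Set C4) :=
  Submodule.dense_iff_topologicalClosure_eq_top.2 span_mFourier_closure_eq_top

theorem clm_ext {X : Type*} [NormedAddCommGroup X] [NormedSpace ℂ X] {A B : C4 →L[ℂ] X}
    (h : ∀ N, A (e N) = B (e N)) : A = B :=
  ContinuousLinearMap.ext_on (s := range e) dense_span_e (by rintro _ ⟨N, rfl⟩; exact h N)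

/-- `F'` is the derivative of `F` in the direction `u`. -/
def HD (u : E) (F F' : C4) : Prop :=
  ∀ y, HasDerivAt (fun s : ℝ => F (y + pr (s • u))) (F' y) 0

theorem HD.at {u : E} {F F' : C4} (h : HD u F F') (y : T4) (s : ℝ) :
    HasDerivAt (fun s : ℝ => F (y + pr (s • u))) (F' (y + pr (s • u))) s := by
  have h1 := h (y + pr (s • u))
  have h2 : HasDerivAt (fun r : ℝ => r - s) 1 s := (hasDerivAt_id s).sub_const s
  have h3 := HasDerivAt.scomp_of_eq s h1 h2 (sub_self s).symm
  simp only [one_smul] at h3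
  refine h3.congr_of_eventuallyEq (Eventually.of_forall fun r => ?_)
  simp only [Function.comp, add_assoc, ← map_add, ← add_smul]
  congr 4
  ring

theorem HD.add {u : E} {F F' H H' : C4} (h : HD u F F') (h' : HD u H H') :
    HD u (F + H) (F' + H') := fun y => (h y).add (h' y)

theorem HD.smul {u : E} {F F' : C4} (c : ℂ) (h : HD u F F') : HD u (c • F) (c • F') :=
  fun y => (h y).const_mul c

theorem HD.mul {u : E} {F F' H H' : C4} (h : HD u F F') (h' : HD u H H') :
    HD u (F * H) (F' * H + F * H') := fun y => by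
  have := (h y).fun_mul (h' y)
  simp only [zero_smul, map_zero, add_zero] at this
  exact this

theorem hasDerivAt_e (u : E) (N : G) (s : ℝ) :
    HasDerivAt (fun s : ℝ => e N (pr (s • u))) (e N (pr (s • u)) * sym u N) s := by
  simp only [e_pr, sym_smul]
  have : HasDerivAt (fun s : ℝ => (s : ℂ) * sym u N) (sym u N) s := by
    simpa using (Complex.ofRealCLM.hasDerivAt (x := s)).mul_const (sym u N)
  exact this.cexp

theorem HD_e (u : E) (N : G) : HD u (e N) (sym u N • e N) := fun y => by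
  simp only [e_apply_add]
  have := (hasDerivAt_e u N 0).const_mul (e N y)
  refine this.congr_deriv ?_
  rw [e_pr, sym_smul]
  simp [mul_comm]

theorem HD.co {u : E} {F F' : C4} (h : HD u F F') (N : G) : co N F' = sym u N * co N F := by
  have h1 : HasDerivAt (fun s : ℝ => ∫ x, e (-N) x * F (x + pr (s • u)) ∂ν)
      (∫ x, e (-N) x * F' (x + pr ((0 : ℝ) • u)) ∂ν) 0 := by
    refine (hasDerivAt_integral_of_dominated_loc_of_deriv_le (s := univ) (bound := fun _ => ‖F'‖)
      (F' := fun s x => e (-N) x * F' (x + pr (s • u))) univ_mem ?_ ?_ ?_ ?_ ?_ ?_).2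
    · exact Eventually.of_forall fun s => (C4_int (e (-N) * tr _ F)).aestronglyMeasurable
    · exact C4_int (e (-N) * tr _ F)
    · exact (C4_int (e (-N) * tr _ F')).aestronglyMeasurable
    · refine Eventually.of_forall fun x s _ => ?_
      rw [norm_mul, norm_e_apply, one_mul]
      exact F'.norm_coe_le_norm _
    · exact integrable_const _
    · exact Eventually.of_forall fun x s _ => (h.at x s).const_mul _
  have h2 : (fun s : ℝ => ∫ x, e (-N) x * F (x + pr (s • u)) ∂ν) =
      fun s : ℝ => e N (pr (s • u)) * MP_be5fd0_gt.co N F := by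
    funext s; exact co_tr _ N F
  rw [h2] at h1
  have h3 := h1.unique ((hasDerivAt_e u N 0).mul_const _)
  simp only [zero_smul, map_zero, add_zero] at h3
  rw [co_apply, h3]
  have : e N 0 = 1 := by
    have := e_pr N 0
    rw [map_zero] at this
    rw [this]; simp [sym]
  rw [this, one_mul]

end

end Pool.Agent.MP_be5fd0_gt

end

-- part MP_be5fd0_gt.Proj
section

/-! Averaging over the closure of the leaves of a linear foliation of the torus. -/

namespace Pool.Agent.MP_be5fd0_gt

open Set Filter Topology MeasureTheory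
open scoped ComplexConjugate

noncomputable section

variable (v w : E)

/-- the leaf through zero -/
def lf : ℝ × ℝ →+ T4 where
  toFun p := pr (p.1 • v + p.2 • w)
  map_zero' := by simp
  map_add' p q := by
    rw [← map_add]; congr 1; simp only [Prod.fst_add, Prod.snd_add, add_smul]; abel

theorem lf_apply (p : ℝ × ℝ) : lf v w p = pr (p.1 • v + p.2 • w) := rfl

/-- the closure of the leaf -/
def HH : AddSubgroup T4 := (lf v w).range.topologicalClosure

instance : CompactSpace (HH v w) :=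
  isCompact_iff_compactSpace.1 (AddSubgroup.isClosed_topologicalClosure _).isCompact

/-- Haar measure on the closure of the leaf -/
def μH : Measure (HH v w) := Measure.addHaarMeasure ⊤

instance : (μH v w).IsAddHaarMeasure := by unfold μH; infer_instance

instance : IsProbabilityMeasure (μH v w) :=
  ⟨by simpa [μH] using Measure.addHaarMeasure_self (G := HH v w) (K₀ := ⊤)⟩

theorem lf_mem (p : ℝ × ℝ) : lf v w p ∈ HH v w :=
  AddSubgroup.le_topologicalClosure _ ⟨p, rfl⟩

variable {v w} in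
theorem HH_induction {φ : T4 → ℂ} (hφ : Continuous φ) {c : ℂ} (h : ∀ p, φ (lf v w p) = c)
    (τ : HH v w) : φ τ = c := by
  have : closure ((lf v w).range : Set T4) ⊆ {τ | φ τ = c} :=
    closure_minimal (by rintro _ ⟨p, rfl⟩; exact h p) (isClosed_eq hφ continuous_const)
  exact this τ.2

theorem H_int (F : C4) (y : T4) : Integrable (fun τ : HH v w => F (y + τ)) (μH v w) :=
  (by fun_prop : Continuous fun τ : HH v w => F (y + τ)).integrable_of_hasCompactSupport
    (HasCompactSupport.of_compactSpace _)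

/-- the leafwise average -/
def Pj : C4 →L[ℂ] C4 :=
  LinearMap.mkContinuous
    { toFun := fun F => ⟨fun y => ∫ τ : HH v w, F (y + τ) ∂μH v w, by
        refine continuous_of_dominated (bound := fun _ => ‖F‖)
          (fun y => (H_int v w F y).aestronglyMeasurable)
          (fun y => Eventually.of_forall fun τ => F.norm_coe_le_norm _) (integrable_const _)
          (Eventually.of_forall fun τ => by fun_prop)⟩
      map_add' := fun F F' => by
        ext y; exact integral_add (H_int v w F y) (H_int v w F' y)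
      map_smul' := fun c F => by
        ext y; exact integral_const_mul c _ } 1 fun F => by
    rw [one_mul]
    refine (ContinuousMap.norm_le _ (norm_nonneg F)).2 fun y => ?_
    simpa using norm_integral_le_of_norm_le_const (μ := μH v w)
      (f := fun τ : HH v w => F (y + τ)) (Eventually.of_forall fun τ => F.norm_coe_le_norm _)

theorem Pj_apply (F : C4) (y : T4) : Pj v w F y = ∫ τ : HH v w, F (y + τ) ∂μH v w := rfl

/-- constant along the leaves -/
def Lc (p : C4) : Prop := ∀ q y, p (y + lf v w q) = p y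

/-- frequencies that are constant along the leaves -/
def Zf (N : G) : Prop := sym v N = 0 ∧ sym w N = 0

variable {v w}

theorem Lc.H {p : C4} (h : Lc v w p) (y : T4) (τ : HH v w) : p (y + τ) = p y :=
  HH_induction (φ := fun τ => p (y + τ)) (by fun_prop) (fun q => h q y) τ

theorem Pj_mul {p : C4} (h : Lc v w p) (F : C4) : Pj v w (p * F) = p * Pj v w F := by
  ext y
  simp only [Pj_apply, ContinuousMap.mul_apply, h.H]
  exact integral_const_mul _ _

theorem Pj_of_Lc {p : C4} (h : Lc v w p) : Pj v w p = p := by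
  ext y
  simp [Pj_apply, h.H]

theorem Pj_zero {F : C4} {y : T4} (h : ∀ q, F (y + lf v w q) = 0) : Pj v w F y = 0 := by
  have : ∀ τ : HH v w, F (y + τ) = 0 :=
    HH_induction (φ := fun τ => F (y + τ)) (by fun_prop) h
  simp [Pj_apply, this]

theorem Pj_pos {F : C4} (h : ∀ y, 0 < (F y).re) (y : T4) : 0 < (Pj v w F y).re := by
  obtain ⟨y0, -, h0⟩ := isCompact_univ.exists_isMinOn univ_nonempty
    (f := fun y => (F y).re) (by fun_prop)
  have h1 : (Pj v w F y).re = ∫ τ : HH v w, (F (y + τ)).re ∂μH v w :=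
    (integral_re (H_int v w F y)).symm
  have h2 : ∫ _ : HH v w, (F y0).re ∂μH v w ≤ ∫ τ : HH v w, (F (y + τ)).re ∂μH v w :=
    integral_mono (integrable_const _) (H_int v w F y).re fun τ => h0 (mem_univ _)
  rw [h1]
  refine lt_of_lt_of_le ?_ h2
  simpa using h y0

theorem Pj_star (F : C4) : Pj v w (star F) = star (Pj v w F) := by
  ext y
  exact integral_conj

theorem Lc_Pj (F : C4) : Lc v w (Pj v w F) := fun q y => by
  simp only [Pj_apply]
  rw [← integral_add_left_eq_self (fun τ : HH v w => F (y + τ)) ⟨lf v w q, lf_mem v w q⟩]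
  simp [add_assoc]

theorem Pj_tr (τ : T4) (F : C4) : Pj v w (tr τ F) = tr τ (Pj v w F) := by
  ext y
  simp only [Pj_apply, tr_apply, add_right_comm]

theorem e_lf (N : G) (q : ℝ × ℝ) :
    e N (lf v w q) = Complex.exp (q.1 * sym v N + q.2 * sym w N) := by
  rw [lf_apply, map_add, e_apply_add, e_pr, e_pr, sym_smul, sym_smul, Complex.exp_add]

theorem Zf.lc {N : G} (h : Zf v w N) : Lc v w (e N) := fun q y => by
  rw [e_apply_add, e_lf, h.1, h.2]; simp

theorem exists_exp_ne {z : ℂ} (hz : z ≠ 0) : ∃ s : ℝ, Complex.exp (s * z) ≠ 1 := by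
  by_contra h
  push Not at h
  have h1 : HasDerivAt (fun s : ℝ => Complex.exp (s * z)) (Complex.exp ((0 : ℝ) * z) * z) 0 := by
    have : HasDerivAt (fun s : ℝ => (s : ℂ) * z) z 0 := by
      simpa using (Complex.ofRealCLM.hasDerivAt (x := 0)).mul_const z
    exact this.cexp
  simp only [h] at h1
  have := h1.unique (hasDerivAt_const (0 : ℝ) (1 : ℂ))
  exact hz (by simpa using this)

theorem Pj_e_of_not {N : G} (h : ¬ Zf v w N) : Pj v w (e N) = 0 := by
  obtain ⟨q, hq⟩ : ∃ q, e N (lf v w q) ≠ 1 := by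
    by_cases h1 : sym v N = 0
    · obtain ⟨s, hs⟩ := exists_exp_ne (fun h2 => h ⟨h1, h2⟩)
      exact ⟨(0, s), by simpa [e_lf] using hs⟩
    · obtain ⟨s, hs⟩ := exists_exp_ne h1
      exact ⟨(s, 0), by simpa [e_lf] using hs⟩
  ext y
  have h1 := Lc_Pj (v := v) (w := w) (e N) q y
  have h2 : Pj v w (e N) (y + lf v w q) = e N (lf v w q) * Pj v w (e N) y := by
    rw [← tr_apply, ← Pj_tr, tr_e, map_smul]; rfl
  have : (e N (lf v w q) - 1) * Pj v w (e N) y = 0 := by linear_combination h1 - h2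
  exact (mul_eq_zero.1 this).resolve_left (sub_ne_zero.2 hq)

theorem Pj_e_of {N : G} (h : Zf v w N) : Pj v w (e N) = e N := Pj_of_Lc h.lc

theorem co_Pj_of {N : G} (h : Zf v w N) (F : C4) : co N (Pj v w F) = co N F := by
  have : (co N).comp (Pj v w) = co N := clm_ext fun M => by
    by_cases hM : Zf v w M
    · simp [Pj_e_of hM]
    · have : N ≠ M := fun hh => hM (hh ▸ h)
      simp [Pj_e_of_not hM, co_e, this]
  exact DFunLike.congr_fun this F

theorem co_Pj_of_not {N : G} (h : ¬ Zf v w N) (F : C4) : co N (Pj v w F) = 0 := by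
  have : (co N).comp (Pj v w) = 0 := clm_ext fun M => by
    by_cases hM : Zf v w M
    · have : N ≠ M := fun hh => h (hh ▸ hM)
      simp [Pj_e_of hM, co_e, this]
    · simp [Pj_e_of_not hM]
  exact DFunLike.congr_fun this F

theorem Lc.co {p : C4} (hp : Lc v w p) {N : G} (h : ¬ Zf v w N) : co N p = 0 := by
  rw [← Pj_of_Lc hp, co_Pj_of_not h]

end

end Pool.Agent.MP_be5fd0_gt

end

-- part MP_be5fd0_gt.Wsp
section

/-! The closure of the leafwise exact complex one-forms. -/

namespace Pool.Agent.MP_be5fd0_gt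

open Set Filter Topology MeasureTheory
open scoped ComplexConjugate

noncomputable section

variable (v w : E)

/-- symbol of the holomorphic leafwise derivative -/
def al (N : G) : ℂ := (sym v N - Complex.I * sym w N) / 2

/-- symbol of the antiholomorphic leafwise derivative -/
def bl (N : G) : ℂ := (sym v N + Complex.I * sym w N) / 2

/-- symbol of the Beurling transform -/
def ul (N : G) : ℂ := al v w N / bl v w N

/-- leafwise differentials of the exponentials -/
def gen (N : G) : C4 × C4 := (al v w N • e N, bl v w N • e N)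

/-- closure of the leafwise exact forms -/
def W : Submodule ℂ (C4 × C4) := (Submodule.span ℂ (range (gen v w))).topologicalClosure

variable {v w}

theorem conj_al (N : G) : conj (al v w N) = -bl v w N := by
  simp only [al, bl, map_div₀, map_sub, map_mul, conj_sym, Complex.conj_I, map_ofNat]; ring

theorem conj_bl (N : G) : conj (bl v w N) = -al v w N := by
  rw [← neg_neg (bl v w N), ← conj_al]; simp

theorem al_neg (N : G) : al v w (-N) = -al v w N := by simp only [al, sym_neg]; ring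

theorem bl_neg (N : G) : bl v w (-N) = -bl v w N := by simp only [bl, sym_neg]; ring

theorem al_add (M N : G) : al v w (M + N) = al v w M + al v w N := by
  simp only [al, sym_add]; ring

theorem bl_add (M N : G) : bl v w (M + N) = bl v w M + bl v w N := by
  simp only [bl, sym_add]; ring

theorem norm_bl (N : G) : ‖bl v w N‖ = ‖al v w N‖ := by
  rw [← norm_neg, ← conj_al, Complex.norm_conj]

theorem Zf.al {N : G} (h : Zf v w N) : al v w N = 0 := by simp [MP_be5fd0_gt.al, h.1, h.2]

theorem Zf.bl {N : G} (h : Zf v w N) : bl v w N = 0 := by simp [MP_be5fd0_gt.bl, h.1, h.2]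

theorem al_ne {N : G} (h : ¬ Zf v w N) : al v w N ≠ 0 := fun h1 => by
  have h2 : bl v w N = 0 := by rw [← norm_eq_zero, norm_bl, h1, norm_zero]
  simp only [al, bl] at h1 h2
  refine h ⟨by linear_combination h1 + h2, ?_⟩
  have : Complex.I * sym w N = 0 := by linear_combination h2 - h1
  simpa using this

theorem bl_ne {N : G} (h : ¬ Zf v w N) : bl v w N ≠ 0 := by
  rw [← norm_ne_zero_iff, norm_bl, norm_ne_zero_iff]; exact al_ne h

theorem Zf.ul {N : G} (h : Zf v w N) : ul v w N = 0 := by simp [MP_be5fd0_gt.ul, h.al]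

theorem norm_ul_le (N : G) : ‖ul v w N‖ ≤ 1 := by
  rw [ul, norm_div, norm_bl]; exact div_self_le_one _

theorem bl_mul_ul (N : G) : bl v w N * ul v w N = al v w N := by
  by_cases h : Zf v w N
  · simp [h.al, h.bl]
  · rw [ul, mul_div_cancel₀ _ (bl_ne h)]

theorem ul_mul_bl (N : G) : ul v w N * bl v w N = al v w N := by rw [mul_comm, bl_mul_ul]

theorem isClosed_W : IsClosed (W v w : Set (C4 × C4)) := Submodule.isClosed_topologicalClosure _

theorem zero_mem_W : ((0, 0) : C4 × C4) ∈ W v w := (W v w).zero_mem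

theorem gen_mem (N : G) : gen v w N ∈ W v w :=
  Submodule.le_topologicalClosure _ (Submodule.subset_span ⟨N, rfl⟩)

theorem W_ind {P : C4 × C4 → Prop} (hc : IsClosed {z | P z}) (h0 : P 0)
    (ha : ∀ z z', P z → P z' → P (z + z')) (hs : ∀ (c : ℂ) z, P z → P (c • z))
    (hg : ∀ N, P (gen v w N)) {z : C4 × C4} (hz : z ∈ W v w) : P z := by
  have : (Submodule.span ℂ (range (gen v w)) : Set (C4 × C4)) ⊆ {z | P z} := fun z hz => by
    induction hz using Submodule.span_induction with
    | mem x hx => obtain ⟨N, rfl⟩ := hx; exact hg N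
    | zero => exact h0
    | add x y _ _ hx hy => exact ha _ _ hx hy
    | smul c x _ hx => exact hs _ _ hx
  exact closure_minimal this hc hz

theorem C4_ind {P : C4 → Prop} (hc : IsClosed {z | P z}) (h0 : P 0)
    (ha : ∀ z z', P z → P z' → P (z + z')) (hs : ∀ (c : ℂ) z, P z → P (c • z))
    (hg : ∀ N, P (e N)) (z : C4) : P z := by
  have : (Submodule.span ℂ (range e) : Set C4) ⊆ {z | P z} := fun z hz => by
    induction hz using Submodule.span_induction with
    | mem x hx => obtain ⟨N, rfl⟩ := hx; exact hg N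
    | zero => exact h0
    | add x y _ _ hx hy => exact ha _ _ hx hy
    | smul c x _ hx => exact hs _ _ hx
  exact closure_minimal this hc (dense_span_e z)

theorem W_Pj {z : C4 × C4} (hz : z ∈ W v w) : Pj v w z.1 = 0 ∧ Pj v w z.2 = 0 := by
  refine W_ind (P := fun z => Pj v w z.1 = 0 ∧ Pj v w z.2 = 0) ?_ (by simp) ?_ ?_ ?_ hz
  · exact (isClosed_eq (by fun_prop) continuous_const).inter
      (isClosed_eq (by fun_prop) continuous_const)
  · intro z z' h h'; simp [h.1, h.2, h'.1, h'.2]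
  · intro c z h
    rw [Prod.smul_fst, Prod.smul_snd, map_smul, map_smul, h.1, h.2]
    simp
  · intro N
    simp only [gen, map_smul]
    by_cases h : Zf v w N
    · rw [h.al, h.bl]; simp
    · rw [Pj_e_of_not h]; simp

theorem W_co {z : C4 × C4} (hz : z ∈ W v w) (N : G) : co N z.1 = ul v w N * co N z.2 := by
  refine W_ind (P := fun z => co N z.1 = ul v w N * co N z.2) ?_ (by simp) ?_ ?_ ?_ hz
  · exact isClosed_eq (by fun_prop) (by fun_prop)
  · intro z z' h h'; simp [h, h', mul_add]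
  · intro c z h
    rw [Prod.smul_fst, Prod.smul_snd, map_smul, map_smul, h, smul_eq_mul, smul_eq_mul]; ring
  · intro M
    simp only [gen, map_smul, co_e, smul_eq_mul]
    split_ifs with h
    · rw [h, mul_one, mul_one, ul_mul_bl]
    · simp

theorem W_star {z : C4 × C4} (hz : z ∈ W v w) : (star z.2, star z.1) ∈ W v w := by
  refine W_ind (P := fun z => (star z.2, star z.1) ∈ W v w) ?_ ?_ ?_ ?_ ?_ hz
  · exact isClosed_W.preimage (f := fun z : C4 × C4 => (star z.2, star z.1)) (by fun_prop)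
  · simpa using zero_mem_W
  · intro z z' h h'; simpa using (W v w).add_mem h h'
  · intro c z h
    convert (W v w).smul_mem (conj c) h using 1
    ext y <;> simp
  · intro N
    convert gen_mem (v := v) (w := w) (-N) using 1
    ext y <;> simp [gen, e_neg, al_neg, bl_neg, conj_al, conj_bl]

theorem W_tr (τ : T4) {z : C4 × C4} (hz : z ∈ W v w) : (tr τ z.1, tr τ z.2) ∈ W v w := by
  refine W_ind (P := fun z => (tr τ z.1, tr τ z.2) ∈ W v w) ?_ ?_ ?_ ?_ ?_ hz
  · exact isClosed_W.preimage (f := fun z : C4 × C4 => (tr τ z.1, tr τ z.2)) (by fun_prop)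
  · simpa using zero_mem_W
  · intro z z' h h'; simpa using (W v w).add_mem h h'
  · intro c z h
    exact (W v w).smul_mem c h
  · intro N
    convert (W v w).smul_mem (e N τ) (gen_mem (v := v) (w := w) N) using 1
    ext y <;> simp [gen, e_apply_add] <;> ring

theorem W_e_mul {K : G} (hK : Zf v w K) {z : C4 × C4} (hz : z ∈ W v w) :
    (e K * z.1, e K * z.2) ∈ W v w := by
  refine W_ind (P := fun z => (e K * z.1, e K * z.2) ∈ W v w) ?_ ?_ ?_ ?_ ?_ hz
  · exact isClosed_W.preimage (f := fun z : C4 × C4 => (e K * z.1, e K * z.2)) (by fun_prop)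
  · simpa using zero_mem_W
  · intro z z' h h'; simpa [mul_add] using (W v w).add_mem h h'
  · intro c z h
    convert (W v w).smul_mem c h using 1
    ext y <;> simp <;> ring
  · intro N
    convert gen_mem (v := v) (w := w) (K + N) using 1
    ext y <;> simp [gen, e_add, al_add, bl_add, hK.al, hK.bl] <;> ring

theorem W_mul {p : C4} (hp : Lc v w p) {z : C4 × C4} (hz : z ∈ W v w) :
    (p * z.1, p * z.2) ∈ W v w := by
  rw [← Pj_of_Lc hp]
  refine C4_ind (P := fun q => (Pj v w q * z.1, Pj v w q * z.2) ∈ W v w) ?_ ?_ ?_ ?_ ?_ p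
  · exact isClosed_W.preimage (f := fun q : C4 => (Pj v w q * z.1, Pj v w q * z.2)) (by fun_prop)
  · simpa using zero_mem_W
  · intro z z' h h'; simpa [add_mul] using (W v w).add_mem h h'
  · intro c q h
    convert (W v w).smul_mem c h using 1
    rw [map_smul]
    ext y <;> simp <;> ring
  · intro K
    by_cases hK : Zf v w K
    · rw [Pj_e_of hK]; exact W_e_mul hK hz
    · rw [Pj_e_of_not hK]; simpa using zero_mem_W

theorem W_jac {z z' : C4 × C4} (hz : z ∈ W v w) (hz' : z' ∈ W v w) :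
    Pj v w (z.1 * star z'.1 - z.2 * star z'.2) = 0 := by
  refine W_ind (P := fun z => Pj v w (z.1 * star z'.1 - z.2 * star z'.2) = 0) ?_ (by simp)
    ?_ ?_ ?_ hz
  · exact isClosed_eq (by fun_prop) continuous_const
  · intro x y h h'
    have : (x + y).1 * star z'.1 - (x + y).2 * star z'.2 =
        (x.1 * star z'.1 - x.2 * star z'.2) + (y.1 * star z'.1 - y.2 * star z'.2) := by
      simp only [Prod.fst_add, Prod.snd_add]; ring
    rw [this, map_add, h, h', add_zero]
  · intro c x h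
    have : (c • x).1 * star z'.1 - (c • x).2 * star z'.2 =
        c • (x.1 * star z'.1 - x.2 * star z'.2) := by
      ext y; simp; ring
    rw [this, map_smul, h]; simp
  intro N
  refine W_ind (P := fun z' => Pj v w ((gen v w N).1 * star z'.1 - (gen v w N).2 * star z'.2) = 0)
    ?_ (by simp) ?_ ?_ ?_ hz'
  · exact isClosed_eq (by fun_prop) continuous_const
  · intro x y h h'
    have : (gen v w N).1 * star (x + y).1 - (gen v w N).2 * star (x + y).2 =
        ((gen v w N).1 * star x.1 - (gen v w N).2 * star x.2) +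
          ((gen v w N).1 * star y.1 - (gen v w N).2 * star y.2) := by
      simp only [Prod.fst_add, Prod.snd_add, star_add]; ring
    rw [this, map_add, h, h', add_zero]
  · intro c x h
    have : (gen v w N).1 * star (c • x).1 - (gen v w N).2 * star (c • x).2 =
        conj c • ((gen v w N).1 * star x.1 - (gen v w N).2 * star x.2) := by
      ext y; simp; ring
    rw [this, map_smul, h]; simp
  intro M
  have : (gen v w N).1 * star (gen v w M).1 - (gen v w N).2 * star (gen v w M).2 =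
      (bl v w N * al v w M - al v w N * bl v w M) • e (N + -M) := by
    ext y; simp [gen, conj_al, conj_bl, -add_neg_cancel, ← sub_eq_add_neg]
    rw [sub_eq_add_neg N M, e_add, ContinuousMap.mul_apply, e_neg]
    ring
  rw [this, map_smul]
  by_cases h : Zf v w (N + -M)
  · have h1 := h.al
    have h2 := h.bl
    rw [al_add, al_neg] at h1
    rw [bl_add, bl_neg] at h2
    have : bl v w N * al v w M - al v w N * bl v w M = 0 := by
      linear_combination (al v w M) * h2 - (bl v w M) * h1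
    rw [this]; simp
  · rw [Pj_e_of_not h]; simp

theorem mem_W {F H : C4} (hF : Summable fun N => co N F) (hH : Summable fun N => co N H)
    (h : ∀ N, bl v w N * co N F = al v w N * co N H) :
    (F - Pj v w F, H - Pj v w H) ∈ W v w := by
  have h1 := (hasSum_co hF).sub ((Pj v w).hasSum (hasSum_co hF))
  have h2 := (hasSum_co hH).sub ((Pj v w).hasSum (hasSum_co hH))
  refine isClosed_W.mem_of_tendsto (h1.prodMk h2) (Eventually.of_forall fun s => ?_)
  refine (W v w).sum_mem fun N _ => ?_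
  simp only [map_smul]
  by_cases hN : Zf v w N
  · rw [Pj_e_of hN, sub_self, sub_self]; exact (W v w).zero_mem
  · rw [Pj_e_of_not hN]
    convert (W v w).smul_mem (co N F / al v w N) (gen_mem (v := v) (w := w) N) using 1
    have h3 := al_ne hN
    have h4 : co N H = co N F / al v w N * bl v w N := by
      field_simp; linear_combination -h N
    rw [h4]
    ext y <;> simp [gen] <;> field_simp

theorem int_mul_le (ν' d : C4) : ∫ x, ‖(ν' * d) x‖ ^ 2 ∂ν ≤ ‖ν'‖ ^ 2 * ∫ x, ‖d x‖ ^ 2 ∂ν := by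
  have hi : ∀ F : C4, Integrable (fun x => ‖F x‖ ^ 2) ν := fun F =>
    (by fun_prop : Continuous fun x => ‖F x‖ ^ 2).integrable_of_hasCompactSupport
      (HasCompactSupport.of_compactSpace _)
  rw [← integral_const_mul]
  refine integral_mono (hi _) ((hi d).const_mul _) fun x => ?_
  simp only [ContinuousMap.mul_apply, norm_mul, mul_pow]
  gcongr
  exact ν'.norm_coe_le_norm x

theorem eq_zero_of_co {d ν' : C4} (hν : ‖ν'‖ < 1) (h : ∀ N, ‖co N d‖ ≤ ‖co N (ν' * d)‖) :
    d = 0 := by
  have h1 := hasSum_le (fun N => pow_le_pow_left₀ (norm_nonneg _) (h N) 2) (parseval d)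
    (parseval (ν' * d))
  have h2 := int_mul_le ν' d
  have h3 : 0 ≤ ∫ x, ‖d x‖ ^ 2 ∂ν := integral_nonneg fun x => by positivity
  have h4 : ‖ν'‖ ^ 2 < 1 := by nlinarith [norm_nonneg ν']
  have h5 : ∫ x, ‖d x‖ ^ 2 ∂ν ≤ 0 := by nlinarith
  refine co_ext fun N => ?_
  have h6 := le_hasSum (parseval d) N fun _ _ => by positivity
  have h7 : ‖co N d‖ ^ 2 = 0 := le_antisymm (h6.trans h5) (by positivity)
  simpa using h7

theorem W_uniq {d ν' m : C4} (hν : ‖ν'‖ < 1) (hm : Lc v w m) (h : (d, ν' * d - m) ∈ W v w) :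
    d = 0 := by
  refine eq_zero_of_co hν fun N => ?_
  have h1 := W_co h N
  simp only [map_sub] at h1
  by_cases hN : Zf v w N
  · rw [h1, hN.ul]; simp
  · rw [h1, hm.co hN, sub_zero, norm_mul]
    exact mul_le_of_le_one_left (norm_nonneg _) (norm_ul_le N)

end

end Pool.Agent.MP_be5fd0_gt

end

-- part MP_be5fd0_gt.Smooth
section

/-! Smooth functions on the torus and the decay of their Fourier coefficients. -/

namespace Pool.Agent.MP_be5fd0_gt

open Set Filter Topology MeasureTheory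
open scoped ComplexConjugate ContDiff

noncomputable section

/-- integer vectors -/
def iv (n : G) : E := fun i => (n i : ℝ)

theorem pr_iv (n : G) : pr (iv n) = 0 := by
  funext i
  simp [pr_apply, iv]

theorem exists_iv {x y : E} (h : pr x = pr y) : ∃ n : G, y = x + iv n := by
  have : ∀ i, ∃ n : ℤ, y i = x i + n := fun i => by
    have h1 : ((y i - x i : ℝ) : UnitAddCircle) = 0 := by
      have := congrFun h i
      rw [pr_apply, pr_apply] at this
      rw [AddCircle.coe_sub, this, sub_self]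
    obtain ⟨n, hn⟩ := (AddCircle.coe_eq_zero_iff (1 : ℝ)).1 h1
    exact ⟨n, by simp at hn; linarith⟩
  choose n hn using this
  exact ⟨n, funext hn⟩

theorem desc {φ : E → ℂ} (hc : Continuous φ) (hp : ∀ n x, φ (x + iv n) = φ x) :
    ∃ F : C4, ∀ x, F (pr x) = φ x := by
  have h1 : ∀ x, φ (Function.surjInv pr_surj (pr x)) = φ x := fun x => by
    obtain ⟨n, hn⟩ := exists_iv (Function.surjInv_eq pr_surj (pr x)).symm
    rw [hn, hp]
  refine ⟨⟨fun y => φ (Function.surjInv pr_surj y), ?_⟩, h1⟩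
  rw [isOpenQuotientMap_pr.isQuotientMap.continuous_iff]
  exact hc.congr fun x => (h1 x).symm

theorem C4_ext {F F' : C4} (h : ∀ x, F (pr x) = F' (pr x)) : F = F' := by
  ext y; obtain ⟨x, rfl⟩ := pr_surj y; exact h x

/-- smooth functions on the torus -/
def Sm (F : C4) : Prop := ContDiff ℝ ∞ fun x : E => F (pr x)

theorem HD_of_fderiv {F F' : C4} {u : E} (hF : Differentiable ℝ fun x : E => F (pr x))
    (h : ∀ x, F' (pr x) = fderiv ℝ (fun x : E => F (pr x)) x u) : HD u F F' := fun y => by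
  obtain ⟨x, rfl⟩ := pr_surj y
  have h1 : HasDerivAt (fun s : ℝ => x + s • u) u 0 := by
    simpa using ((hasDerivAt_id (0 : ℝ)).smul_const u).const_add x
  have h2 := (hF (x + (0 : ℝ) • u)).hasFDerivAt.comp_hasDerivAt (0 : ℝ) h1
  simp only [zero_smul, add_zero] at h2
  rw [h x]
  refine h2.congr_of_eventuallyEq (Eventually.of_forall fun s => ?_)
  simp

theorem Sm.deriv {F : C4} (h : Sm F) (u : E) : ∃ F' : C4, Sm F' ∧ HD u F F' ∧
    ∀ x, F' (pr x) = fderiv ℝ (fun x : E => F (pr x)) x u := by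
  have h1 : ContDiff ℝ ∞ fun x => fderiv ℝ (fun x : E => F (pr x)) x u :=
    (h.fderiv_right (m := ∞) le_rfl).clm_apply contDiff_const
  obtain ⟨F', hF'⟩ := desc h1.continuous fun n x => by
    rw [← fderiv_comp_add_right]
    simp [pr_iv]
  refine ⟨F', ?_, HD_of_fderiv (h.differentiable (by simp)) hF', hF'⟩
  unfold Sm
  simpa only [hF'] using h1

theorem Sm.add {F H : C4} (h : Sm F) (h' : Sm H) : Sm (F + H) := ContDiff.add h h'

theorem Sm.sub {F H : C4} (h : Sm F) (h' : Sm H) : Sm (F - H) := ContDiff.sub h h'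

theorem Sm.smul {F : C4} (c : ℂ) (h : Sm F) : Sm (c • F) := ContDiff.mul contDiff_const h

theorem Sm.star {F : C4} (h : Sm F) : Sm (star F) := Complex.conjCLE.contDiff.comp h

theorem Sm_const (c : ℂ) : Sm (ContinuousMap.const _ c) := contDiff_const

theorem Sm_zero : Sm 0 := contDiff_const

theorem Sm_e (N : G) : Sm (e N) := by
  unfold Sm
  simp only [e_pr, sym]
  have h1 : ContDiff ℝ ∞ fun x : E => ∑ j, (N j : ℝ) * x j :=
    ContDiff.sum fun j _ => contDiff_const.mul (contDiff_apply ℝ ℝ j)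
  exact Complex.contDiff_exp.comp (contDiff_const.mul (Complex.ofRealCLM.contDiff.comp h1))

theorem sym_single (j : Fin 4) (N : G) : |(N j : ℝ)| ≤ ‖sym (Pi.single j 1) N‖ := by
  have : (∑ i, (N i : ℝ) * (Pi.single j 1 : E) i) = N j := by
    rw [Finset.sum_eq_single j]
    · simp
    · intro i _ hi; simp [Pi.single_eq_of_ne hi]
    · simp
  have hpi := Real.pi_gt_three
  rw [sym, this, norm_mul, norm_mul, norm_mul, Complex.norm_I, Complex.norm_real,
    Complex.norm_real, Real.norm_eq_abs, Real.norm_eq_abs, abs_of_pos Real.pi_pos,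
    Complex.norm_ofNat]
  nlinarith [abs_nonneg (N j : ℝ)]

theorem Sm.decay (k : ℕ) : ∀ {F : C4}, Sm F → ∃ C, ∀ N, (1 + ‖N‖) ^ k * ‖co N F‖ ≤ C := by
  induction k with
  | zero => exact fun {F} _ => ⟨‖F‖, fun N => by simpa using norm_co_le N F⟩
  | succ k ih =>
    intro F hF
    obtain ⟨C, hC⟩ := ih hF
    choose D hD hD' _ using fun j : Fin 4 => hF.deriv (Pi.single j 1)
    choose C' hC' using fun j => ih (hD j)
    refine ⟨C + ∑ j, C' j, fun N => ?_⟩
    have h1 : ‖N‖ ≤ ∑ j, |(N j : ℝ)| :=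
      (pi_norm_le_iff_of_nonneg (by positivity)).2 fun j =>
        Finset.single_le_sum (f := fun j => |(N j : ℝ)|) (fun _ _ => abs_nonneg _)
          (Finset.mem_univ j)
    have h2 : (1 + ‖N‖) ^ k * (‖N‖ * ‖co N F‖) ≤ ∑ j, C' j := by
      calc (1 + ‖N‖) ^ k * (‖N‖ * ‖co N F‖)
          ≤ (1 + ‖N‖) ^ k * ((∑ j, |(N j : ℝ)|) * ‖co N F‖) := by gcongr
        _ = ∑ j, (1 + ‖N‖) ^ k * (|(N j : ℝ)| * ‖co N F‖) := by
          rw [Finset.sum_mul, Finset.mul_sum]
        _ ≤ ∑ j, C' j := Finset.sum_le_sum fun j _ => by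
          refine le_trans ?_ (hC' j N)
          rw [(hD' j).co N, norm_mul]
          gcongr
          exact sym_single j N
    have h3 := hC N
    rw [pow_succ]
    nlinarith

theorem summable_pi {f : ℤ → ℝ} (h0 : ∀ n, 0 ≤ f n) (hf : Summable f) (n : ℕ) :
    Summable fun N : Fin n → ℤ => ∏ j, f (N j) := by
  induction n with
  | zero => exact Summable.of_finite
  | succ n ih =>
    have := Summable.mul_of_nonneg hf ih (fun n => h0 n)
      (fun N => Finset.prod_nonneg fun j _ => h0 _)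
    rw [← (Fin.consEquiv fun _ : Fin (n + 1) => ℤ).summable_iff]
    refine this.congr fun p => ?_
    simp [Fin.consEquiv, Fin.prod_univ_succ]

theorem summable_inv_pow : Summable fun N : G => ((1 + ‖N‖) ^ 8)⁻¹ := by
  have h1 : Summable fun n : ℤ => ((1 + |(n : ℝ)|) ^ 2)⁻¹ := by
    refine Summable.of_norm_bounded_eventually (Real.summable_one_div_int_pow.2 one_lt_two) ?_
    filter_upwards [(Set.finite_singleton (0 : ℤ)).compl_mem_cofinite] with n hn
    have h2 : (0 : ℝ) < |(n : ℝ)| := abs_pos.2 (by exact_mod_cast hn)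
    rw [Real.norm_of_nonneg (by positivity), one_div, ← sq_abs (n : ℝ)]
    gcongr
    linarith
  refine Summable.of_nonneg_of_le (fun N => by positivity) (fun N => ?_)
    (summable_pi (fun n => by positivity) h1 4)
  rw [Finset.prod_inv_distrib]
  refine inv_anti₀ (Finset.prod_pos fun j _ => by positivity) ?_
  have : ∀ j ∈ (Finset.univ : Finset (Fin 4)), (1 + |(N j : ℝ)|) ^ 2 ≤ (1 + ‖N‖) ^ 2 :=
    fun j _ => by
      gcongr
      exact norm_le_pi_norm N j
  refine (Finset.prod_le_prod (fun j _ => by positivity) this).trans (le_of_eq ?_)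
  rw [Finset.prod_const, ← pow_mul]; simp

theorem Sm.summable_wt {F : C4} (h : Sm F) : Summable fun N => (1 + ‖N‖) ^ 9 * ‖co N F‖ := by
  obtain ⟨C, hC⟩ := Sm.decay 17 h
  refine Summable.of_nonneg_of_le (fun N => by positivity) (fun N => ?_)
    (summable_inv_pow.mul_left C)
  have h1 : 0 < (1 + ‖N‖) ^ 8 := by positivity
  rw [← div_eq_mul_inv, le_div_iff₀ h1]
  refine le_trans (le_of_eq ?_) (hC N)
  ring

theorem Sm.summable {F : C4} (h : Sm F) : Summable fun N => co N F := by
  refine Summable.of_norm_bounded h.summable_wt fun N => ?_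
  refine le_mul_of_one_le_left (norm_nonneg _) (one_le_pow₀ ?_)
  linarith [norm_nonneg N]

end

end Pool.Agent.MP_be5fd0_gt

end

-- part MP_be5fd0_gt.Ell
section

/-! Multiplication operators on weighted square-summable sequences. -/

namespace Pool.Agent.MP_be5fd0_gt

open Set Filter Topology MeasureTheory

noncomputable section

abbrev L2 := lp (fun _ : G => ℂ) 2

theorem L2_hasSum (c : L2) : HasSum (fun N => ‖c N‖ ^ 2) (‖c‖ ^ 2) := by
  have := lp.hasSum_norm (p := 2) (by norm_num) c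
  simpa using this

theorem mem_L2 {c : G → ℂ} (h : Summable fun N => ‖c N‖ ^ 2) : Memℓp c 2 :=
  memℓp_gen (by simpa using h)

theorem L2_apply_le (c : L2) (N : G) : ‖c N‖ ≤ ‖c‖ := lp.norm_apply_le_norm (by norm_num) c N

theorem exists_wsh (K : G) (a : G → ℂ) {C : ℝ} (ha : ∀ N, ‖a N‖ ≤ C) :
    ∃ T : L2 →L[ℂ] L2, ‖T‖ ≤ C ∧ ∀ (c : L2) N, T c N = a N * c (N - K) := by
  have h0 : 0 ≤ C := (norm_nonneg _).trans (ha 0)
  have h1 : ∀ c : L2, HasSum (fun N => C ^ 2 * ‖c (N - K)‖ ^ 2) (C ^ 2 * ‖c‖ ^ 2) := fun c =>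
    ((Equiv.subRight K).hasSum_iff.2 (L2_hasSum c)).mul_left _
  have h2 : ∀ (c : L2) N, ‖a N * c (N - K)‖ ^ 2 ≤ C ^ 2 * ‖c (N - K)‖ ^ 2 := fun c N => by
    rw [norm_mul, mul_pow]
    gcongr
    exact ha N
  have h3 : ∀ c : L2, Memℓp (fun N => a N * c (N - K)) 2 := fun c =>
    mem_L2 (Summable.of_nonneg_of_le (fun N => by positivity) (h2 c) (h1 c).summable)
  let T : L2 →ₗ[ℂ] L2 :=
    { toFun := fun c => ⟨fun N => a N * c (N - K), h3 c⟩
      map_add' := fun c c' => by
        ext N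
        change a N * (c + c') (N - K) = a N * c (N - K) + a N * c' (N - K)
        rw [lp.coeFn_add, Pi.add_apply, mul_add]
      map_smul' := fun r c => by
        ext N
        change a N * (r • c) (N - K) = r * (a N * c (N - K))
        rw [lp.coeFn_smul, Pi.smul_apply, smul_eq_mul]; ring }
  have h4 : ∀ c, ‖T c‖ ≤ C * ‖c‖ := fun c => by
    have h5 := hasSum_le (h2 c) (L2_hasSum (T c)) (h1 c)
    rw [← mul_pow] at h5
    exact (pow_le_pow_iff_left₀ (norm_nonneg _) (by positivity) two_ne_zero).1 h5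
  exact ⟨T.mkContinuous C h4, T.mkContinuous_norm_le h0 h4, fun c N => rfl⟩

theorem exists_io {b : G → ℂ} (hb : Summable fun N => ‖b N‖) :
    ∃ ι : L2 →L[ℂ] C4, ∀ c : L2, HasSum (fun N => (b N * c N) • e N) (ι c) := by
  have h1 : ∀ (c : L2) N, ‖(b N * c N) • e N‖ ≤ ‖b N‖ * ‖c‖ := fun c N => by
    rw [norm_smul, norm_e, mul_one, norm_mul]
    gcongr
    exact L2_apply_le c N
  have h2 : ∀ c : L2, Summable fun N => (b N * c N) • e N := fun c =>
    Summable.of_norm_bounded (hb.mul_right _) (h1 c)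
  let T : L2 →ₗ[ℂ] C4 :=
    { toFun := fun c => ∑' N, (b N * c N) • e N
      map_add' := fun c c' => by
        rw [← (h2 c).tsum_add (h2 c')]
        congr 1
        funext N
        rw [lp.coeFn_add, Pi.add_apply]
        ext y; simp; ring
      map_smul' := fun r c => by
        rw [RingHom.id_apply, ← (h2 c).tsum_const_smul r]
        congr 1
        funext N
        rw [lp.coeFn_smul, Pi.smul_apply]
        ext y; simp; ring }
  have h4 : ∀ c, ‖T c‖ ≤ (∑' N, ‖b N‖) * ‖c‖ := fun c =>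
    tsum_of_norm_bounded (hb.hasSum.mul_right _) (h1 c)
  exact ⟨T.mkContinuous _ h4, fun c => (h2 c).hasSum⟩

theorem co_of_hasSum {a : G → ℂ} {F : C4} (h : HasSum (fun N => a N • e N) F) (N : G) :
    co N F = a N := by
  have h1 := (co N).hasSum h
  simp only [map_smul, co_e, smul_eq_mul, mul_ite, mul_one, mul_zero] at h1
  refine h1.unique ?_
  have := hasSum_single (f := fun M => if N = M then a M else 0) N fun M hM => if_neg hM.symm
  simpa using this

theorem hasSum_conv {μ : C4} (hμ : Summable fun N => co N μ) (F : C4) (N : G) :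
    HasSum (fun K => co K μ * co (N - K) F) (co N (μ * F)) := by
  have h1 := (co N).hasSum ((hasSum_co hμ).mul_right F)
  simpa only [smul_mul_assoc, map_smul, co_e_mul, smul_eq_mul] using h1

theorem hasSum_op {T : G → L2 →L[ℂ] L2} (h : Summable T) (c : L2) (N : G) :
    HasSum (fun K => T K c N) ((∑' K, T K) c N) :=
  (lp.evalCLM ℂ (fun _ : G => ℂ) 2 N).hasSum
    ((ContinuousLinearMap.apply ℂ L2 c).hasSum h.hasSum)

theorem exists_mul0 {μ : C4} (hμ : Summable fun N => co N μ) :
    ∃ M : L2 →L[ℂ] L2, ‖M‖ ≤ ‖μ‖ ∧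
      ∀ (c : L2) N, HasSum (fun K => co K μ * c (N - K)) (M c N) := by
  choose S hS hS' using fun K => exists_wsh K (fun _ => co K μ) (fun _ => le_rfl)
  have h1 : Summable S := Summable.of_norm_bounded hμ.norm hS
  have h2 : ∀ (c : L2) N, HasSum (fun K => co K μ * c (N - K)) ((∑' K, S K) c N) := fun c N => by
    simpa only [hS'] using hasSum_op h1 c N
  refine ⟨∑' K, S K, ContinuousLinearMap.opNorm_le_bound _ (norm_nonneg _) fun c => ?_, h2⟩
  generalize (∑' K, S K) = M at h2
  have h3 : IsClosed {c : L2 | ‖M c‖ ≤ ‖μ‖ * ‖c‖} := isClosed_le (by fun_prop) (by fun_prop)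
  refine h3.mem_of_tendsto (lp.hasSum_single (by simp) c) (Eventually.of_forall fun s => ?_)
  set d : L2 := ∑ N ∈ s, lp.single 2 N (c N) with hd
  obtain ⟨F, hF⟩ : ∃ F : C4, ∀ N, co N F = d N := by
    refine ⟨∑ N ∈ s, c N • e N, fun N => ?_⟩
    rw [hd, lp.coeFn_sum, Finset.sum_apply, map_sum]
    refine Finset.sum_congr rfl fun K _ => ?_
    rw [map_smul, co_e, lp.single_apply, Pi.single_apply]
    split_ifs <;> simp
  have h4 : ∀ N, M d N = co N (μ * F) := fun N => by
    refine (h2 d N).unique ?_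
    simpa only [hF] using hasSum_conv hμ F N
  have h5 : ‖M d‖ ^ 2 = ∫ x, ‖(μ * F) x‖ ^ 2 ∂ν := by
    refine (L2_hasSum _).unique ?_
    simpa only [h4] using parseval (μ * F)
  have h6 : ‖d‖ ^ 2 = ∫ x, ‖F x‖ ^ 2 ∂ν := by
    refine (L2_hasSum _).unique ?_
    simpa only [hF] using parseval F
  have h7 := int_mul_le μ F
  rw [← h5, ← h6, ← mul_pow] at h7
  exact (pow_le_pow_iff_left₀ (norm_nonneg _) (by positivity) two_ne_zero).1 h7

theorem pow_sub_one_le {ε r : ℝ} (h0 : 0 ≤ ε) (h1 : ε ≤ 1) (hr : 0 ≤ r) (n : ℕ) :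
    (1 + ε * r) ^ n - 1 ≤ ε * ((1 + r) ^ n - 1) := by
  induction n with
  | zero => simp
  | succ n ih =>
    have h2 : 1 ≤ (1 + r) ^ n := one_le_pow₀ (by linarith)
    have h3 : 0 ≤ ε * ((1 + r) ^ n - 1) := mul_nonneg h0 (by linarith)
    have h4 : ε * r ≤ r := by nlinarith
    have h5 : 0 ≤ ε * r := by positivity
    calc (1 + ε * r) ^ (n + 1) - 1 = (1 + ε * r) * ((1 + ε * r) ^ n - 1) + ε * r := by ring
      _ ≤ (1 + ε * r) * (ε * ((1 + r) ^ n - 1)) + ε * r := by gcongr
      _ ≤ (1 + r) * (ε * ((1 + r) ^ n - 1)) + ε * r := by gcongr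
      _ = ε * ((1 + r) ^ (n + 1) - 1) := by ring

theorem ratio_le {a b c : ℝ} (ha : 0 < a) (hb : 0 < b) (h1 : a ≤ b * c)
    (h2 : b ≤ a * c) : |a / b - 1| ≤ c - 1 := by
  rw [abs_le]
  constructor
  · rw [le_sub_iff_add_le, le_div_iff₀ hb]
    by_cases h : 2 ≤ c
    · nlinarith
    · have h3 : (2 - c) * b ≤ (2 - c) * (a * c) := mul_le_mul_of_nonneg_left h2 (by linarith)
      nlinarith [mul_nonneg ha.le (sq_nonneg (c - 1))]
  · rw [sub_le_sub_iff_right, div_le_iff₀ hb]; linarith

theorem one_add_le {ε x y z : ℝ} (hε : 0 ≤ ε) (hx : 0 ≤ x) (hy : 0 ≤ y) (h : z ≤ x + y) :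
    1 + ε * z ≤ (1 + ε * x) * (1 + ε * y) := by
  nlinarith [mul_le_mul_of_nonneg_left h hε, mul_nonneg (mul_nonneg hε hx) (mul_nonneg hε hy)]

theorem exists_weight {ε : ℝ} (hε : 0 < ε) (hε1 : ε ≤ 1) :
    ∃ ω : G → ℝ, (∀ N, 1 ≤ ω N) ∧ ω 0 = 1 ∧ (∀ N, ω N ≤ (1 + ‖N‖) ^ 9) ∧
      (Summable fun N => (1 + ‖N‖) / ω N) ∧
      ∀ K N, |ω N / ω (N - K) - 1| ≤ ε * (1 + ‖K‖) ^ 9 := by
  have hω1 : ∀ N : G, 1 ≤ (1 + ε * ‖N‖) ^ 9 := fun N =>
    one_le_pow₀ (le_add_of_nonneg_right (by positivity))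
  have hsub : ∀ N K : G, (1 + ε * ‖N + K‖) ^ 9 ≤ (1 + ε * ‖N‖) ^ 9 * (1 + ε * ‖K‖) ^ 9 :=
    fun N K => by
    rw [← mul_pow]
    exact pow_le_pow_left₀ (by positivity)
      (one_add_le hε.le (norm_nonneg _) (norm_nonneg _) (norm_add_le N K)) 9
  refine ⟨fun N => (1 + ε * ‖N‖) ^ 9, hω1, by simp, fun N => ?_, ?_, fun K N => ?_⟩
  · exact pow_le_pow_left₀ (by positivity)
      (add_le_add_right (mul_le_of_le_one_left (norm_nonneg N) hε1) 1) 9
  · refine Summable.of_nonneg_of_le (fun N => by positivity) (fun N => ?_)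
      (summable_inv_pow.mul_left (ε ^ 9)⁻¹)
    have a1 : 0 < 1 + ‖N‖ := by positivity
    have a2 : (ε * (1 + ‖N‖)) ^ 9 ≤ (1 + ε * ‖N‖) ^ 9 :=
      pow_le_pow_left₀ (by positivity) (by rw [mul_add]; linarith) 9
    refine (div_le_div_of_nonneg_left a1.le (by positivity) a2).trans (le_of_eq ?_)
    field_simp
  · have a1 := hsub (N - K) K
    have a2 := hsub N (-K)
    rw [sub_add_cancel] at a1
    rw [← sub_eq_add_neg, norm_neg] at a2
    refine (ratio_le (by positivity) (by positivity) a1 a2).trans ?_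
    refine (pow_sub_one_le hε.le hε1 (norm_nonneg K) 9).trans ?_
    exact mul_le_mul_of_nonneg_left (sub_le_self _ zero_le_one) hε.le

theorem exists_eps {A r : ℝ} (hA : 0 ≤ A) (h0 : 0 ≤ r) (h1 : r < 1) :
    ∃ ε : ℝ, 0 < ε ∧ ε ≤ 1 ∧ ε * A < 1 - r := by
  refine ⟨(1 - r) / (A + 1), div_pos (by linarith) (by linarith), ?_, ?_⟩
  · rw [div_le_one (by linarith)]; linarith
  · rw [div_mul_eq_mul_div, div_lt_iff₀ (by linarith)]; nlinarith

theorem exists_op {μ : C4} (hμ : Sm μ) (h1 : ‖μ‖ < 1) :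
    ∃ (ω : G → ℝ) (M : L2 →L[ℂ] L2), (∀ N, 1 ≤ ω N) ∧ ω 0 = 1 ∧ (∀ N, ω N ≤ (1 + ‖N‖) ^ 9) ∧
      (Summable fun N => (1 + ‖N‖) / ω N) ∧ ‖M‖ < 1 ∧
      ∀ (c : L2) (F : C4), (∀ N, co N F = c N / ω N) → ∀ N, co N (μ * F) = M c N / ω N := by
  obtain ⟨M0, hM0, hM0'⟩ := exists_mul0 hμ.summable
  have hs := hμ.summable_wt
  obtain ⟨A, hA⟩ := hs
  have hA0 : 0 ≤ A := hA.nonneg fun N => by positivity
  obtain ⟨ε, hε, hε1, hε2⟩ := exists_eps hA0 (norm_nonneg μ) h1
  obtain ⟨ω, hω1, hω2, hω3, hω4, hω5⟩ := exists_weight hε hε1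
  have hω0 : ∀ N, (ω N : ℂ) ≠ 0 := fun N => by
    exact_mod_cast (lt_of_lt_of_le one_pos (hω1 N)).ne'
  have hrat : ∀ K N, ‖co K μ * ((ω N / ω (N - K) - 1 : ℝ) : ℂ)‖ ≤
      ε * ((1 + ‖K‖) ^ 9 * ‖co K μ‖) := fun K N => by
    rw [norm_mul, Complex.norm_real, Real.norm_eq_abs, mul_comm, ← mul_assoc]
    exact mul_le_mul_of_nonneg_right (hω5 K N) (norm_nonneg _)
  choose R hR hR' using fun K => exists_wsh K _ (hrat K)
  have hRs : Summable R := Summable.of_norm_bounded (hA.mul_left ε).summable hR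
  have hRn : ‖∑' K, R K‖ ≤ ε * A := tsum_of_norm_bounded (hA.mul_left ε) hR
  have hR2 := hasSum_op hRs
  generalize ∑' K, R K = R0 at hRn hR2
  refine ⟨ω, M0 + R0, hω1, hω2, hω3, hω4, ?_, fun c F hF N => ?_⟩
  · linarith [norm_add_le M0 R0]
  · have a1 := (hM0' c N).add (hR2 c N)
    have a2 := (hasSum_conv hμ.summable F N).mul_left (ω N : ℂ)
    rw [eq_div_iff (hω0 N), mul_comm]
    refine a2.unique ?_
    rw [add_apply, lp.coeFn_add, Pi.add_apply]
    refine a1.congr_fun fun K => ?_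
    have a4 := hω0 (N - K)
    rw [hR', hF]
    push_cast
    field_simp
    ring

end

end Pool.Agent.MP_be5fd0_gt

end

-- part MP_be5fd0_gt.Belt
section

/-! The leafwise Beltrami equation has nowhere vanishing solutions. -/

namespace Pool.Agent.MP_be5fd0_gt

open Set Filter Topology MeasureTheory Metric

noncomputable section

theorem HD_of_hasSum {u : E} {a : G → ℂ} {F F' : C4} (h : HasSum (fun N => a N • e N) F)
    (h' : HasSum (fun N => (sym u N * a N) • e N) F') (hs : Summable fun N => ‖sym u N * a N‖) :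
    HD u F F' := fun y => by
  have h1 : ∀ z, HasSum (fun N => a N * e N z) (F z) := fun z =>
    (ContinuousMap.evalCLM ℂ z).hasSum h
  have h2 : HasSum (fun N => sym u N * a N * e N y) (F' y) :=
    (ContinuousMap.evalCLM ℂ y).hasSum h'
  have h3 := hasDerivAt_tsum (g := fun N (s : ℝ) => a N * e N (y + pr (s • u)))
    (g' := fun N (s : ℝ) => sym u N * a N * e N (y + pr (s • u))) (y₀ := 0) hs
    (fun N s => by
      refine (((HD_e u N).at y s).const_mul (a N)).congr_deriv ?_
      simp; ring)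
    (fun N s => by rw [norm_mul, norm_e_apply, mul_one]) (h1 _).summable 0
  simp only [zero_smul, map_zero, add_zero, h2.tsum_eq, (h1 _).tsum_eq] at h3
  exact h3

theorem exists_resolvent {T : L2 →L[ℂ] L2} (hT : ‖T‖ < 1) : ∃ r : ℝ, 1 < r ∧ ∀ x : L2,
    ∃ c : ℂ → L2, DifferentiableOn ℂ c (ball 0 r) ∧ ∀ t ∈ ball (0 : ℂ) r, c t = x + t • T (c t) := by
  have h0 := norm_nonneg T
  refine ⟨2 / (1 + ‖T‖), by rw [lt_div_iff₀ (by linarith)]; linarith, fun x => ?_⟩
  have hu : ∀ t ∈ ball (0 : ℂ) (2 / (1 + ‖T‖)), IsUnit (1 - t • T) := fun t ht => by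
    refine isUnit_one_sub_of_norm_lt_one ?_
    rw [mem_ball_zero_iff, lt_div_iff₀ (by linarith)] at ht
    rw [norm_smul]
    nlinarith [norm_nonneg t]
  refine ⟨fun t => Ring.inverse (1 - t • T) x, fun t ht => ?_, fun t ht => ?_⟩
  · refine DifferentiableAt.differentiableWithinAt ?_
    have h1 : DifferentiableAt ℂ (fun t : ℂ => 1 - t • T) t :=
      (differentiableAt_const _).sub (differentiableAt_id.smul_const T)
    exact ((differentiableAt_inverse (hu t ht)).comp t h1).clm_apply (differentiableAt_const x)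
  · have h1 := DFunLike.congr_fun (Ring.mul_inverse_cancel _ (hu t ht)) x
    rw [← sub_eq_iff_eq_add]
    exact h1

/-- holomorphic combination -/
def Dz (A B : C4) : C4 := (1 / 2 : ℂ) • (A - Complex.I • B)

/-- antiholomorphic combination -/
def Db (A B : C4) : C4 := (1 / 2 : ℂ) • (A + Complex.I • B)

variable {v w : E}

theorem co_Dz {F A B : C4} (hA : HD v F A) (hB : HD w F B) (N : G) :
    co N (Dz A B) = al v w N * co N F := by
  simp only [Dz, map_smul, map_sub, hA.co, hB.co, al, smul_eq_mul]; ring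

theorem co_Db {F A B : C4} (hA : HD v F A) (hB : HD w F B) (N : G) :
    co N (Db A B) = bl v w N * co N F := by
  simp only [Db, map_smul, map_add, hA.co, hB.co, bl, smul_eq_mul]; ring

theorem closed_eq {μ μv μw f fv fw : C4} (h1 : HD v μ μv) (h2 : HD w μ μw) (h3 : HD v f fv)
    (h4 : HD w f fw) (h : ∀ N, bl v w N * co N f = al v w N * co N (μ * f)) :
    Db fv fw = Dz μv μw * f + μ * Dz fv fw := by
  have : Dz μv μw * f + μ * Dz fv fw = Dz (μv * f + μ * fv) (μw * f + μ * fw) := by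
    ext y; simp [Dz]; ring
  rw [this]
  exact co_ext fun N => by rw [co_Db h3 h4, co_Dz (h1.mul h3) (h2.mul h4), h]

theorem log_eq {μ D f fv fw h : C4} (hμ : ‖μ‖ < 1) (h3 : HD v f fv) (h4 : HD w f fw)
    (hc : Db fv fw = D * f + μ * Dz fv fw) (hh : ∀ N, co N h = ul v w N * co N (D + μ * h))
    (hf : ∀ y, f y ∈ Complex.slitPlane) : Dz fv fw = h * f := by
  have hf0 : ∀ y, f y ≠ 0 := fun y => Complex.slitPlane_ne_zero (hf y)
  let σ : C4 := ⟨fun y => Complex.log (f y), f.continuous.clog hf⟩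
  let g : C4 := ⟨fun y => (f y)⁻¹, f.continuous.inv₀ hf0⟩
  have hσ : ∀ {u : E} {fu : C4}, HD u f fu → HD u σ (fu * g) := fun {u fu} hu y => by
    have := (hu y).clog_real (by simpa using hf y)
    refine this.congr_deriv ?_
    simp [g, div_eq_mul_inv]
  have e1 : Dz (fv * g) (fw * g) = Dz fv fw * g := by ext y; simp [Dz]; ring
  have e2 : Db (fv * g) (fw * g) = D + μ * (Dz fv fw * g) := by
    have : Db (fv * g) (fw * g) = Db fv fw * g := by ext y; simp [Db]; ring
    rw [this, hc]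
    ext y
    have := hf0 y
    simp [g]; field_simp
  have e3 : ∀ N, co N (Dz fv fw * g) = ul v w N * co N (D + μ * (Dz fv fw * g)) := fun N => by
    rw [← e2, ← e1, co_Dz (hσ h3) (hσ h4), co_Db (hσ h3) (hσ h4), ← mul_assoc, ul_mul_bl]
  have e4 : Dz fv fw * g - h = 0 := by
    refine eq_zero_of_co hμ fun N => ?_
    have : co N (Dz fv fw * g - h) = ul v w N * co N (μ * (Dz fv fw * g - h)) := by
      rw [map_sub, mul_sub, map_sub, mul_sub]
      have a1 := e3 N
      have a2 := hh N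
      rw [map_add] at a1 a2
      linear_combination a1 - a2
    rw [this, norm_mul]
    exact mul_le_of_le_one_left (norm_nonneg _) (norm_ul_le N)
  rw [← sub_eq_zero.1 e4]
  ext y
  have := hf0 y
  simp [g]; field_simp

theorem ode_zero {u : E} {F A : C4} (h : HD u F (A * F)) {y : T4} (hy : F y = 0) (s : ℝ) :
    F (y + pr (s • u)) = 0 := by
  have := ODE_solution_unique_univ (v := fun (s : ℝ) (z : ℂ) => A (y + pr (s • u)) * z)
    (s := fun _ => univ) (K := ‖A‖₊) (f := fun s : ℝ => F (y + pr (s • u))) (g := fun _ => 0)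
    (t₀ := 0) (fun s => ?_) (fun s => ⟨h.at y s, mem_univ _⟩)
    (fun s => ⟨by simpa using hasDerivAt_const s (0 : ℂ), mem_univ _⟩) (by simpa using hy)
  · exact congrFun this s
  · refine LipschitzOnWith.of_dist_le_mul fun a _ b _ => ?_
    rw [dist_eq_norm, dist_eq_norm, ← mul_sub, norm_mul]
    gcongr
    exact A.norm_coe_le_norm _

theorem ne_zero_of_ode {f fv fw h k : C4} (h3 : HD v f fv) (h4 : HD w f fw)
    (e1 : Dz fv fw = h * f) (e2 : Db fv fw = k * f) (hP : Pj v w f = 1) (y : T4) : f y ≠ 0 := by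
  intro hy
  have a1 : fv = (h + k) * f := by
    rw [add_mul, ← e1, ← e2]; ext y; simp [Dz, Db]; ring
  have a2 : fw = (Complex.I • (h - k)) * f := by
    rw [smul_mul_assoc, sub_mul, ← e1, ← e2]; ext y; simp [Dz, Db]
    linear_combination (fw y) * Complex.I_mul_I
  rw [a1] at h3
  rw [a2] at h4
  have a3 : Pj v w f y = 0 := Pj_zero fun q => by
    rw [lf_apply, pr.map_add, ← add_assoc]
    exact ode_zero h4 (ode_zero h3 hy _) _
  rw [hP] at a3
  simp at a3

theorem exists_belt (v w : E) {μ : C4} (hμ : Sm μ) (h1 : ‖μ‖ < 1) :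
    ∃ f : ℝ → C4, ContinuousOn f (Icc 0 1) ∧ f 0 = 1 ∧ ∀ t ∈ Icc (0 : ℝ) 1, (∀ y, f t y ≠ 0) ∧
      (f t - 1, ((t : ℂ) • μ) * f t - Pj v w (((t : ℂ) • μ) * f t)) ∈ W v w := by
  obtain ⟨ω, M, hω1, hω0, hω2, hω3, hM, hM'⟩ := exists_op hμ h1
  have hωp : ∀ N, 0 < ω N := fun N => lt_of_lt_of_le one_pos (hω1 N)
  have hωc : ∀ N, (ω N : ℂ) ≠ 0 := fun N => by exact_mod_cast (hωp N).ne'
  obtain ⟨U, hU, hU'⟩ := exists_wsh 0 (ul v w) norm_ul_le
  simp only [sub_zero] at hU'
  have hT : ‖U.comp M‖ < 1 := by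
    refine lt_of_le_of_lt (U.opNorm_comp_le M) ?_
    nlinarith [norm_nonneg M]
  obtain ⟨r, hr, hres⟩ := exists_resolvent hT
  have s0 : Summable fun N => ‖((ω N : ℂ))⁻¹‖ := by
    refine Summable.of_nonneg_of_le (fun N => norm_nonneg _) (fun N => ?_) hω3
    rw [norm_inv, Complex.norm_real, Real.norm_of_nonneg (hωp N).le, ← one_div]
    gcongr
    · exact (hωp N).le
    · linarith [norm_nonneg N]
  have s1 : ∀ u : E, Summable fun N => ‖sym u N * ((ω N : ℂ))⁻¹‖ := fun u => by
    refine Summable.of_nonneg_of_le (fun N => norm_nonneg _) (fun N => ?_)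
      (hω3.mul_left (2 * Real.pi * (4 * ‖u‖)))
    rw [norm_mul, norm_inv, Complex.norm_real, Real.norm_of_nonneg (hωp N).le, div_eq_mul_inv,
      ← mul_assoc]
    have := Real.pi_pos
    gcongr
    · exact (inv_pos.2 (hωp N)).le
    · refine (norm_sym_le u N).trans ?_
      gcongr
      linarith
  obtain ⟨ι, hι⟩ := exists_io s0
  choose ιd hιd using fun u => exists_io (s1 u)
  have hco : ∀ c N, co N (ι c) = c N / ω N := fun c N => by
    rw [co_of_hasSum (hι c), div_eq_inv_mul]
  have hsum : ∀ c : L2, Summable fun N => c N / (ω N : ℂ) := fun c => by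
    refine Summable.of_norm_bounded (s0.mul_right ‖c‖) fun N => ?_
    rw [div_eq_inv_mul, norm_mul]
    gcongr
    exact L2_apply_le c N
  have hHD : ∀ u c, HD u (ι c) (ιd u c) := fun u c => by
    refine HD_of_hasSum (hι c) (by simpa only [mul_assoc] using hιd u c) ?_
    refine Summable.of_nonneg_of_le (fun N => norm_nonneg _) (fun N => ?_) ((s1 u).mul_right ‖c‖)
    rw [← mul_assoc, norm_mul]
    gcongr
    exact L2_apply_le c N
  obtain ⟨μv, hμv, hμv', -⟩ := hμ.deriv v
  obtain ⟨μw, hμw, hμw', -⟩ := hμ.deriv w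
  have hD : Sm (Dz μv μw) := (hμv.sub (hμw.smul _)).smul _
  obtain ⟨cD, hcD⟩ : ∃ cD : L2, ∀ N, cD N = ω N * co N (Dz μv μw) := by
    have a1 : Summable fun N => ‖(ω N : ℂ) * co N (Dz μv μw)‖ := by
      refine Summable.of_nonneg_of_le (fun N => norm_nonneg _) (fun N => ?_) hD.summable_wt
      rw [norm_mul, Complex.norm_real, Real.norm_of_nonneg (hωp N).le]
      gcongr
      exact hω2 N
    have a2 : Memℓp (fun N => (ω N : ℂ) * co N (Dz μv μw)) 1 := memℓp_gen (by simpa using a1)
    exact ⟨⟨_, a2.of_exponent_ge one_le_two⟩, fun N => rfl⟩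
  obtain ⟨c, hc, hc'⟩ := hres (lp.single 2 0 1)
  obtain ⟨d, hd, hd'⟩ := hres (U cD)
  have E1 : ∀ t ∈ ball (0 : ℂ) r, ∀ N, co N (ι (c t)) =
      (if N = 0 then 1 else 0) + ul v w N * co N ((t • μ) * ι (c t)) := fun t ht N => by
    rw [smul_mul_assoc, map_smul, hM' _ _ (hco (c t)), hco]
    nth_rw 1 [hc' t ht]
    rw [lp.coeFn_add, Pi.add_apply, lp.coeFn_smul, Pi.smul_apply, ContinuousLinearMap.comp_apply,
      hU', lp.single_apply, Pi.single_apply]
    split_ifs with h
    · simp [h, hω0]; ring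
    · simp; ring
  have E2 : ∀ t ∈ ball (0 : ℂ) r, ∀ N, co N (t • ι (d t)) =
      ul v w N * co N (Dz (t • μv) (t • μw) + (t • μ) * (t • ι (d t))) := fun t ht N => by
    have a1 : Dz (t • μv) (t • μw) + (t • μ) * (t • ι (d t)) =
        t • Dz μv μw + (t * t) • (μ * ι (d t)) := by
      ext y; simp [Dz]; ring
    rw [a1, map_add, map_smul, map_smul, map_smul, hM' _ _ (hco (d t)), hco]
    nth_rw 1 [hd' t ht]
    rw [lp.coeFn_add, Pi.add_apply, lp.coeFn_smul, Pi.smul_apply, ContinuousLinearMap.comp_apply,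
      hU', hU', hcD]
    have := hωc N
    simp only [smul_eq_mul]
    field_simp
  have E3 : ∀ t ∈ ball (0 : ℂ) r, ∀ N, bl v w N * co N (ι (c t)) =
      al v w N * co N ((t • μ) * ι (c t)) := fun t ht N => by
    rw [E1 t ht, mul_add, ← mul_assoc, bl_mul_ul]
    split_ifs with h
    · simp [h, bl, sym_zero]
    · simp
  have E4 := fun t ht => closed_eq (hμv'.smul t) (hμw'.smul t) (hHD v (c t)) (hHD w (c t)) (E3 t ht)
  have E5 : ∀ t ∈ ball (0 : ℂ) r, Pj v w (ι (c t)) = 1 := fun t ht => co_ext fun N => by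
    rw [co_one]
    by_cases hN : Zf v w N
    · rw [co_Pj_of hN, E1 t ht, hN.ul]; simp
    · rw [co_Pj_of_not hN, if_neg]
      rintro rfl
      exact hN ⟨sym_zero _, sym_zero _⟩
  have h0r : (0 : ℂ) ∈ ball (0 : ℂ) r := mem_ball_self (by linarith)
  have E0 : ι (c 0) = 1 := co_ext fun N => by rw [E1 0 h0r, co_one]; simp
  have hnorm : ∀ t : ℂ, ‖t‖ ≤ 1 → ‖t • μ‖ < 1 := fun t ht => by
    rw [norm_smul]
    nlinarith [norm_nonneg μ, norm_nonneg t]
  have E6 : ∀ t ∈ ball (0 : ℂ) r, Dz (ιd v (c t)) (ιd w (c t)) = (t • ι (d t)) * ι (c t) := by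
    intro t ht
    ext y
    have ev : ∀ (A : L2 →L[ℂ] C4) {x : ℂ → L2}, DifferentiableOn ℂ x (ball 0 r) →
        DifferentiableOn ℂ (fun t => A (x t) y) (ball 0 r) := fun A x hx =>
      ((ContinuousMap.evalCLM ℂ y).comp A).differentiable.comp_differentiableOn hx
    have a1 : DifferentiableOn ℂ (fun t : ℂ => (1 / 2 : ℂ) * (ιd v (c t) y - Complex.I * ιd w (c t) y)
        - t * ι (d t) y * ι (c t) y) (ball 0 r) :=
      (((ev _ hc).sub ((ev _ hc).const_mul _)).const_mul _).sub
        ((differentiableOn_id.mul (ev _ hd)).mul (ev _ hc))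
    have a2 : ContinuousAt (fun t => ι (c t)) 0 :=
      ι.continuous.continuousAt.comp (hc.continuousOn.continuousAt (isOpen_ball.mem_nhds h0r))
    have a3 : ∀ᶠ t in 𝓝 (0 : ℂ), ‖ι (c t) - 1‖ < 1 := by
      have := (a2.sub (continuousAt_const (y := (1 : C4)))).norm
      refine this.eventually_lt continuousAt_const ?_
      simp [E0]
    have a4 := (a1.analyticOnNhd isOpen_ball).eqOn_zero_of_preconnected_of_eventuallyEq_zero
      (convex_ball _ _).isPreconnected h0r (by
        filter_upwards [a3, ball_mem_nhds (0 : ℂ) one_pos] with t h3 h4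
        have h5 : t ∈ ball (0 : ℂ) r := ball_subset_ball hr.le h4
        have h6 := log_eq (hnorm t (mem_ball_zero_iff.1 h4).le) (hHD v (c t)) (hHD w (c t))
          (E4 t h5) (E2 t h5) fun z => by
            have b1 : ‖ι (c t) z - 1‖ < 1 := lt_of_le_of_lt ((ι (c t) - 1).norm_coe_le_norm z) h3
            simpa using Complex.mem_slitPlane_of_norm_lt_one b1
        exact sub_eq_zero.2 (DFunLike.congr_fun h6 y)) ht
    exact sub_eq_zero.1 a4
  have hmem : ∀ t ∈ Icc (0 : ℝ) 1, (t : ℂ) ∈ ball (0 : ℂ) r := fun t ht => by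
    rw [mem_ball_zero_iff, Complex.norm_real, Real.norm_of_nonneg ht.1]
    linarith [ht.2]
  refine ⟨fun t => ι (c t), ?_, by simpa using E0, fun t ht => ⟨?_, ?_⟩⟩
  · exact ι.continuous.comp_continuousOn
      (hc.continuousOn.comp Complex.continuous_ofReal.continuousOn hmem)
  · have ht' := hmem t ht
    refine ne_zero_of_ode (hHD v _) (hHD w _) (E6 _ ht')
      (k := Dz ((t : ℂ) • μv) ((t : ℂ) • μw) + ((t : ℂ) • μ) * ((t : ℂ) • ι (d t))) ?_ (E5 _ ht')
    rw [E4 _ ht', E6 _ ht']; ring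
  · have ht' := hmem t ht
    have a1 := mem_W (F := ι (c t)) (H := ((t : ℂ) • μ) * ι (c t)) ?_ ?_ (E3 _ ht')
    · rwa [E5 _ ht'] at a1
    · simpa only [hco] using hsum _
    · simp only [smul_mul_assoc, map_smul, hM' _ _ (hco (c t)), smul_eq_mul]
      exact (hsum _).mul_left _

end

end Pool.Agent.MP_be5fd0_gt

end

-- part MP_be5fd0_gt.Path
section

/-! A nondegenerate leafwise closed form is joined to its leafwise average. -/

namespace Pool.Agent.MP_be5fd0_gt

open Set Filter Topology MeasureTheory Metric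
open scoped ComplexConjugate

noncomputable section

/-- orientation preserving nondegenerate pairs -/
def O : Set (C4 × C4) := {z | ∀ y, ‖z.2 y‖ < ‖z.1 y‖}

/-- invariance under a set of translations -/
def Iv (S : Set T4) (F : C4) : Prop := ∀ τ ∈ S, ∀ y, F (y + τ) = F y

variable {v w : E}

theorem Lc.mul {p q : C4} (hp : Lc v w p) (hq : Lc v w q) : Lc v w (p * q) := fun s y => by
  simp [hp s y, hq s y]

theorem Lc.sub {p q : C4} (hp : Lc v w p) (hq : Lc v w q) : Lc v w (p - q) := fun s y => by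
  simp [hp s y, hq s y]

theorem Lc.star {p : C4} (hp : Lc v w p) : Lc v w (star p) := fun s y => by
  simp [hp s y]

theorem Lc_one : Lc v w 1 := fun _ _ => rfl

theorem re_jac (a b : ℂ) : (a * conj a - b * conj b).re = ‖a‖ ^ 2 - ‖b‖ ^ 2 := by
  rw [Complex.mul_conj', Complex.mul_conj']
  norm_cast

theorem O_of_W {F H F0 H0 : C4} (hO : (F, H) ∈ O) (h1 : Lc v w F0) (h2 : Lc v w H0)
    (h : (F - F0, H - H0) ∈ W v w) : (F0, H0) ∈ O := fun y => by
  obtain ⟨a, rfl⟩ : ∃ a, F = F0 + a := ⟨F - F0, by ring⟩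
  obtain ⟨b, rfl⟩ : ∃ b, H = H0 + b := ⟨H - H0, by ring⟩
  simp only [add_sub_cancel_left] at h
  have e1 : (F0 + a) * star (F0 + a) - (H0 + b) * star (H0 + b) =
      (a * star a - b * star b) + F0 * star a + star F0 * a - H0 * star b - star H0 * b +
        (F0 * star F0 - H0 * star H0) := by
    simp only [star_add]; ring
  have e2 : Pj v w ((F0 + a) * star (F0 + a) - (H0 + b) * star (H0 + b)) =
      F0 * star F0 - H0 * star H0 := by
    have a1 : Pj v w a = 0 := (W_Pj h).1
    have a2 : Pj v w b = 0 := (W_Pj h).2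
    rw [e1, map_add, map_sub, map_sub, map_add, map_add, W_jac h h, Pj_mul h1, Pj_mul h2,
      Pj_mul h1.star, Pj_mul h2.star, Pj_star, Pj_star, a1, a2,
      Pj_of_Lc ((h1.mul h1.star).sub (h2.mul h2.star))]
    simp
  have e3 := Pj_pos (v := v) (w := w)
    (F := (F0 + a) * star (F0 + a) - (H0 + b) * star (H0 + b)) (fun y => by
      have b1 : ‖(H0 + b) y‖ < ‖(F0 + a) y‖ := hO y
      have b2 := re_jac ((F0 + a) y) ((H0 + b) y)
      have b3 := pow_lt_pow_left₀ b1 (norm_nonneg _) two_ne_zero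
      exact lt_of_lt_of_eq (sub_pos.2 b3) b2.symm) y
  rw [e2] at e3
  have e4 := lt_of_lt_of_eq e3 (re_jac (F0 y) (H0 y))
  exact lt_of_pow_lt_pow_left₀ 2 (norm_nonneg _) (sub_pos.1 e4)

theorem norm_comb {p q f g : ℂ} (h1 : ‖q‖ < ‖p‖) (h2 : ‖g‖ < ‖f‖) :
    ‖p * g + q * conj f‖ < ‖p * f + q * conj g‖ := by
  have : (p * f + q * conj g) * conj (p * f + q * conj g) -
      (p * g + q * conj f) * conj (p * g + q * conj f) =
      (p * conj p - q * conj q) * (f * conj f - g * conj g) := by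
    simp only [map_add, map_mul, Complex.conj_conj]; ring
  have h3 := congrArg Complex.re this
  rw [re_jac, Complex.mul_conj', Complex.mul_conj', Complex.mul_conj', Complex.mul_conj'] at h3
  norm_cast at h3
  have h4 := sub_pos.2 (pow_lt_pow_left₀ h1 (norm_nonneg _) two_ne_zero)
  have h5 := sub_pos.2 (pow_lt_pow_left₀ h2 (norm_nonneg _) two_ne_zero)
  refine lt_of_pow_lt_pow_left₀ 2 (norm_nonneg _) (sub_pos.1 ?_)
  rw [h3]; exact mul_pos h4 h5

theorem one_sub_ne {m : ℂ} (h : ‖m‖ < 1) : 1 - m * conj m ≠ 0 := by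
  rw [Complex.mul_conj']
  have : 0 < 1 - ‖m‖ ^ 2 := by nlinarith [norm_nonneg m]
  exact_mod_cast this.ne'

theorem Iv.Pj {S : Set T4} {F : C4} (h : Iv S F) : Iv S (Pj v w F) := fun τ hτ y => by
  have : tr τ F = F := ContinuousMap.ext (h τ hτ)
  rw [← tr_apply, ← Pj_tr, this]

theorem joined (v w : E) (S : Set T4) {F H : C4} (hF : Sm F) (hH : Sm H) (hO : (F, H) ∈ O)
    (hc : ∀ N, bl v w N * co N F = al v w N * co N H) (hS : Iv S F) (hS' : Iv S H) :
    JoinedIn {z | z ∈ O ∧ z - (F, H) ∈ W v w ∧ Iv S z.1 ∧ Iv S z.2}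
      (Pj v w F, Pj v w H) (F, H) := by
  have hF0 : ∀ y, F y ≠ 0 := fun y =>
    norm_pos_iff.1 (lt_of_le_of_lt (norm_nonneg _) (hO y))
  let μ : C4 := ⟨fun y => H y / F y, H.continuous.div F.continuous hF0⟩
  have hμ : Sm μ := by
    have := ContDiff.mul hH (ContDiff.inv hF fun x => hF0 _)
    simpa only [← div_eq_mul_inv] using! this
  have hμy : ∀ y, ‖μ y‖ < 1 := fun y => by
    change ‖H y / F y‖ < 1
    rw [norm_div, div_lt_one (norm_pos_iff.2 (hF0 y))]
    exact hO y
  have hμ1 : ‖μ‖ < 1 := (ContinuousMap.norm_lt_iff _ one_pos).2 hμy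
  have hμF : μ * F = H := by
    ext y
    exact div_mul_cancel₀ _ (hF0 y)
  have hμS : Iv S μ := fun τ hτ y => by
    change H (y + τ) / F (y + τ) = H y / F y
    rw [hS τ hτ, hS' τ hτ]
  clear_value μ
  obtain ⟨f0, hf0, hf1, hf2⟩ := exists_belt v w hμ hμ1
  let f : unitInterval → C4 := fun t => f0 t
  have hf : Continuous f := hf0.comp_continuous continuous_subtype_val fun t => t.2
  let g : unitInterval → C4 := fun t => (((t : ℝ) : ℂ) • μ) * f t
  have hg : Continuous g := by fun_prop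
  let m : unitInterval → C4 := fun t => Pj v w (g t)
  have hm : Continuous m := by fun_prop
  have hW : ∀ t, (f t - 1, g t - m t) ∈ W v w := fun t => (hf2 t t.2).2
  have hn : ∀ t : unitInterval, ‖((t : ℝ) : ℂ) • μ‖ < 1 := fun t => by
    rw [norm_smul, Complex.norm_real, Real.norm_of_nonneg t.2.1]
    nlinarith [t.2.1, t.2.2, norm_nonneg μ]
  have hfg : ∀ t, (f t, g t) ∈ O := fun t y => by
    change ‖(((t : ℝ) : ℂ) • μ) y * f t y‖ < ‖f t y‖
    rw [norm_mul]
    exact mul_lt_of_lt_one_left (norm_pos_iff.2 ((hf2 t t.2).1 y))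
      (lt_of_le_of_lt (ContinuousMap.norm_coe_le_norm _ y) (hn t))
  have hm1 : ∀ t y, ‖m t y‖ < 1 := fun t y => by
    simpa using O_of_W (hfg t) Lc_one (Lc_Pj _) (hW t) y
  have hW0 := mem_W hF.summable hH.summable hc
  have hL1 : Lc v w (Pj v w F) := Lc_Pj _
  have hL2 : Lc v w (Pj v w H) := Lc_Pj _
  have hO0 := O_of_W hO hL1 hL2 hW0
  have hS1 : Iv S (Pj v w F) := hS.Pj
  have hS2 : Iv S (Pj v w H) := hS'.Pj
  generalize Pj v w F = F0 at hW0 hL1 hO0 hS1
  generalize Pj v w H = H0 at hW0 hL2 hO0 hS2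
  let r : unitInterval → C4 := fun t => ⟨fun y => (1 - m t y * conj (m t y))⁻¹,
    Continuous.inv₀ (by fun_prop) fun y => one_sub_ne (hm1 t y)⟩
  have hr : Continuous r := by
    refine ContinuousMap.continuous_of_continuous_uncurry _ ?_
    have : Continuous fun p : unitInterval × T4 => m p.1 p.2 :=
      (hm.comp continuous_fst).eval continuous_snd
    exact Continuous.inv₀ (f := fun p : unitInterval × T4 => 1 - m p.1 p.2 * conj (m p.1 p.2))
      (by fun_prop) fun p => one_sub_ne (hm1 _ _)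
  have hr' : ∀ t y, r t y = (1 - m t y * conj (m t y))⁻¹ := fun _ _ => rfl
  have hLm : ∀ t, Lc v w (m t) := fun t => Lc_Pj _
  have hLr : ∀ t, Lc v w (r t) := fun t s y => by rw [hr', hr', hLm t s y]
  let p : unitInterval → C4 := fun t => r t * (F0 - H0 * star (m t))
  let q : unitInterval → C4 := fun t => r t * (H0 - F0 * m t)
  have hLp : ∀ t, Lc v w (p t) := fun t => (hLr t).mul (hL1.sub (hL2.mul (hLm t).star))
  have hLq : ∀ t, Lc v w (q t) := fun t => (hLr t).mul (hL2.sub (hL1.mul (hLm t)))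
  let γ : unitInterval → C4 × C4 := fun t =>
    (p t * f t + q t * star (g t), p t * g t + q t * star (f t))
  have hγ : Continuous γ := by fun_prop
  have hγW : ∀ t, γ t - (F0, H0) ∈ W v w := fun t => by
    convert (W v w).add_mem (W_mul (hLp t) (hW t)) (W_mul (hLq t) (W_star (hW t))) using 1
    ext y
    · have := one_sub_ne (hm1 t y)
      simp [γ, p, q, hr']; field_simp; ring
    · have := one_sub_ne (hm1 t y)
      simp [γ, p, q, hr']; field_simp; ring
  have hfS : ∀ t, Iv S (f t) := fun t τ hτ y => by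
    have a1 : tr τ (g t) = (((t : ℝ) : ℂ) • μ) * tr τ (f t) := by
      ext y; simp [g, hμS τ hτ]
    have a2 : tr τ (f t) - f t = 0 := by
      refine W_uniq (v := v) (w := w) (hn t) (m := tr τ (m t) - m t) ?_ ?_
      · refine Lc.sub ?_ (hLm t)
        rw [← Pj_tr]; exact Lc_Pj _
      · convert (W v w).sub_mem (W_tr τ (hW t)) (hW t) using 1
        simp only [map_sub, a1, Prod.mk_sub_mk, Prod.mk.injEq]
        constructor
        · ext y; simp
        · simp only [g]; ring
    exact sub_eq_zero.1 (DFunLike.congr_fun a2 y)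
  have hgS : ∀ t, Iv S (g t) := fun t τ hτ y => by simp [g, hμS τ hτ, hfS t τ hτ]
  have hmS : ∀ t, Iv S (m t) := fun t => (hgS t).Pj
  have hf00 : f 0 = 1 := hf1
  have hg0 : g 0 = 0 := by simp [g]
  have hm0 : m 0 = 0 := by simp [m, hg0]
  have hg1 : g 1 = μ * f 1 := by simp [g]
  have hF1 : F = F0 * f 1 := by
    rw [← sub_eq_zero]
    refine W_uniq (v := v) (w := w) hμ1 (m := H0 - F0 * m 1) (hL2.sub (hL1.mul (hLm 1))) ?_
    convert (W v w).sub_mem hW0 (W_mul hL1 (hW 1)) using 1
    simp only [Prod.mk_sub_mk, Prod.mk.injEq, hg1, ← hμF]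
    constructor <;> ring
  have hH1 : H = F0 * g 1 := by rw [← hμF, hg1, hF1]; ring
  have hH0 : H0 = F0 * m 1 := by
    have a1 := (W_Pj hW0).2
    rw [map_sub, Pj_of_Lc hL2, sub_eq_zero, hH1, Pj_mul hL1] at a1
    exact a1.symm
  refine ⟨⟨⟨γ, hγ⟩, ?_, ?_⟩, fun t => ⟨fun y => ?_, ?_, fun τ hτ y => ?_, fun τ hτ y => ?_⟩⟩
  · ext y <;> simp [γ, p, q, hr', hf00, hg0, hm0]
  · rw [hF1, hH1]
    ext y
    · have := one_sub_ne (hm1 1 y)
      simp [γ, p, q, hr', hH0]; left; field_simp
    · have := one_sub_ne (hm1 1 y)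
      simp [γ, p, q, hr', hH0]; left; field_simp
  · refine norm_comb (p := p t y) (q := q t y) ?_ (hfg t y)
    have a1 := norm_comb (p := F0 y) (q := H0 y) (f := 1) (g := -m t y) (hO0 y)
      (by simpa using hm1 t y)
    have a2 : 0 < ‖r t y‖ := norm_pos_iff.2 (inv_ne_zero (one_sub_ne (hm1 t y)))
    change ‖r t y * (H0 y - F0 y * m t y)‖ < ‖r t y * (F0 y - H0 y * conj (m t y))‖
    rw [norm_mul, norm_mul]
    refine mul_lt_mul_of_pos_left ?_ a2
    simpa [sub_eq_add_neg, add_comm] using a1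
  · convert (W v w).sub_mem (hγW t) hW0 using 1
    change γ t - (F, H) = γ t - (F0, H0) - ((F, H) - (F0, H0))
    abel
  · simp [γ, p, q, hr', hS1 τ hτ, hS2 τ hτ, hmS t τ hτ, hfS t τ hτ, hgS t τ hτ]
  · simp [γ, p, q, hr', hS1 τ hτ, hS2 τ hτ, hmS t τ hτ, hfS t τ hτ, hgS t τ hτ]

end

end Pool.Agent.MP_be5fd0_gt

end

-- part MP_be5fd0_gt.Forms
section

/-! Elementary calculus of forms on the torus and smooth paths of symplectic forms. -/

namespace Pool.Agent.MP_be5fd0_gt

open Set Filter Topology Metric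
open scoped ComplexConjugate ContDiff

noncomputable section

abbrev A1 := E [⋀^Fin 1]→L[ℝ] ℝ
abbrev A2 := E [⋀^Fin 2]→L[ℝ] ℝ

theorem A2_swap (θ : A2) (p q : E) : θ ![p, q] = -θ ![q, p] := by
  have := θ.toAlternatingMap.map_swap ![q, p] (i := 0) (j := 1) (by decide)
  have h : (![q, p] ∘ Equiv.swap (0 : Fin 2) 1) = ![p, q] := by
    funext i; fin_cases i <;> simp
  rw [h] at this
  exact this

theorem A2_self (θ : A2) (p : E) : θ ![p, p] = 0 := by
  linarith [A2_swap θ p p]

/-- the bilinear map of a two-covector -/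
def bil (θ : A2) : E →ₗ[ℝ] E →ₗ[ℝ] ℝ :=
  LinearMap.mk₂ ℝ (fun p q => θ ![p, q]) (fun p p' q => θ.vecCons_add _ _ _)
    (fun c p q => θ.vecCons_smul _ _ _)
    (fun p q q' => by
      rw [A2_swap θ p (q + q'), A2_swap θ p q, A2_swap θ p q', θ.vecCons_add]; ring)
    (fun c p q => by rw [A2_swap θ p (c • q), A2_swap θ p q, θ.vecCons_smul]; simp)

theorem bil_apply (θ : A2) (p q : E) : bil θ p q = θ ![p, q] := rfl

section IsForm

variable {k : ℕ} {σ σ' : E → E [⋀^Fin k]→L[ℝ] ℝ}

theorem IsForm.diff (h : IsForm σ) (x : E) : DifferentiableAt ℝ σ x :=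
  h.1.differentiable (by simp) x

theorem IsForm.add (h : IsForm σ) (h' : IsForm σ') : IsForm fun x => σ x + σ' x :=
  ⟨h.1.add h'.1, fun n x => by simp only [h.2 n x, h'.2 n x]⟩

theorem IsForm.smul (c : ℝ) (h : IsForm σ) : IsForm fun x => c • σ x :=
  ⟨h.1.const_smul c, fun n x => by simp only [h.2 n x]⟩

theorem isForm_const (a : E [⋀^Fin k]→L[ℝ] ℝ) : IsForm fun _ : E => a :=
  ⟨contDiff_const, fun _ _ => rfl⟩

theorem IsForm.extDeriv (h : IsForm σ) : IsForm (extDeriv σ) := by
  refine ⟨?_, fun n x => ?_⟩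
  · exact (ContinuousAlternatingMap.alternatizeUncurryFinCLM ℝ E ℝ).contDiff.comp
      (h.1.fderiv_right (m := ∞) le_rfl)
  · unfold _root_.extDeriv
    rw [← fderiv_comp_add_right]
    simp only [h.2 n]

theorem IsForm.smooth_apply (h : IsForm σ) (m : Fin k → E) : ContDiff ℝ ∞ fun x => σ x m :=
  (ContinuousAlternatingMap.apply ℝ E ℝ m).contDiff.comp h.1

theorem extDeriv_const (a : E [⋀^Fin k]→L[ℝ] ℝ) (x : E) : extDeriv (fun _ : E => a) x = 0 := by
  ext m
  rw [extDeriv_apply (differentiableAt_const a)]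
  simp

end IsForm

theorem d1 {lam : E → A1} (h : IsForm lam) (x p q : E) : extDeriv lam x ![p, q] =
    fderiv ℝ (fun y => lam y ![q]) x p - fderiv ℝ (fun y => lam y ![p]) x q := by
  rw [extDeriv_apply (h.diff x), Fin.sum_univ_two]
  have h0 : Fin.removeNth (0 : Fin 2) ![p, q] = ![q] := by funext i; fin_cases i; rfl
  have h1 : Fin.removeNth (1 : Fin 2) ![p, q] = ![p] := by funext i; fin_cases i; rfl
  rw [h0, h1]
  simp [sub_eq_add_neg]

theorem d2 {σ : E → A2} (h : IsForm σ) (x p q r : E) : extDeriv σ x ![p, q, r] =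
    fderiv ℝ (fun y => σ y ![q, r]) x p - fderiv ℝ (fun y => σ y ![p, r]) x q +
      fderiv ℝ (fun y => σ y ![p, q]) x r := by
  rw [extDeriv_apply (h.diff x), Fin.sum_univ_three]
  have h0 : Fin.removeNth (0 : Fin 3) ![p, q, r] = ![q, r] := by funext i; fin_cases i <;> rfl
  have h1 : Fin.removeNth (1 : Fin 3) ![p, q, r] = ![p, r] := by funext i; fin_cases i <;> rfl
  have h2 : Fin.removeNth (2 : Fin 3) ![p, q, r] = ![p, q] := by funext i; fin_cases i <;> rfl
  rw [h0, h1, h2]
  simp [sub_eq_add_neg]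

/-- exact perturbations of a constant form -/
def Ex (a : A2) (θ : E → A2) : Prop := Cohom (fun _ => a) θ

theorem Ex.isForm {a : A2} {θ : E → A2} (h : Ex a θ) : IsForm θ := by
  obtain ⟨lam, h1, h2⟩ := h
  rw [show θ = _ from funext h2]
  exact (isForm_const a).add h1.extDeriv

theorem Ex.closed {a : A2} {θ : E → A2} (h : Ex a θ) : extDeriv θ = 0 := by
  obtain ⟨lam, h1, h2⟩ := h
  rw [show θ = _ from funext h2]
  funext x
  rw [extDeriv_fun_add (differentiableAt_const a) (h1.extDeriv.diff x), extDeriv_const,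
    extDeriv_extDeriv h1.1 (by simp; norm_cast)]
  simp

theorem Ex.add {a : A2} {θ : E → A2} (h : Ex a θ) {lam : E → A1} (h' : IsForm lam) :
    Ex a fun x => θ x + extDeriv lam x := by
  obtain ⟨l, h1, h2⟩ := h
  refine ⟨fun x => l x + lam x, h1.add h', fun x => ?_⟩
  beta_reduce
  rw [extDeriv_fun_add (h1.diff x) (h'.diff x), h2, add_assoc]

theorem Ex.comb {a : A2} {θ θ' : E → A2} (h : Ex a θ) (h' : Ex a θ') (s : ℝ) :
    Ex a fun x => θ x + s • (θ' x - θ x) := by
  obtain ⟨l, h1, h2⟩ := h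
  obtain ⟨l', h1', h2'⟩ := h'
  refine ⟨fun x => (1 - s) • l x + s • l' x, (h1.smul _).add (h1'.smul _), fun x => ?_⟩
  beta_reduce
  have e1 : extDeriv (fun x => (1 - s) • l x) x = (1 - s) • extDeriv l x := extDeriv_smul _ _
  have e2 : extDeriv (fun x => s • l' x) x = s • extDeriv l' x := extDeriv_smul _ _
  rw [extDeriv_fun_add ((h1.smul _).diff x) ((h1'.smul _).diff x), e1, e2, h2, h2']
  module

theorem Ex_const (a : A2) : Ex a fun _ => a :=
  ⟨fun _ => 0, isForm_const 0, fun x => by rw [extDeriv_const, add_zero]⟩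

/-- nondegenerate -/
def Nd (θ : A2) : Prop := ∀ u, u ≠ 0 → ∃ u', θ ![u, u'] ≠ 0

/-- symplectic forms in the class of the constant form `a` -/
def Sy (a : A2) (θ : E → A2) : Prop := Ex a θ ∧ ∀ x, Nd (θ x)

/-- joined by a smooth path of symplectic forms in the class of `a` -/
def Rel (a : A2) (θ θ' : E → A2) : Prop :=
  ∃ Ω : ℝ → E → A2, ContDiff ℝ ∞ (fun p : ℝ × E => Ω p.1 p.2) ∧ (∀ t ≤ 0, Ω t = θ) ∧
    (∀ t, 1 ≤ t → Ω t = θ') ∧ ∀ t, Sy a (Ω t)

theorem Rel.symm {a : A2} {θ θ' : E → A2} (h : Rel a θ θ') : Rel a θ' θ := by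
  obtain ⟨Ω, h1, h2, h3, h4⟩ := h
  refine ⟨fun t => Ω (1 - t), ?_, fun t ht => h3 _ (by linarith), fun t ht => h2 _ (by linarith),
    fun t => h4 _⟩
  exact h1.comp (f := fun p : ℝ × E => (1 - p.1, p.2)) (by fun_prop)

theorem Rel.trans {a : A2} {θ θ' θ'' : E → A2} (h : Rel a θ θ') (h' : Rel a θ' θ'') :
    Rel a θ θ'' := by
  obtain ⟨Ω, h1, h2, h3, h4⟩ := h
  obtain ⟨Ω', h1', h2', h3', h4'⟩ := h'
  have h5 : ContDiff ℝ ∞ θ' := by rw [← h3 1 le_rfl]; exact (h4 1).1.isForm.1
  refine ⟨fun t x => Ω (2 * t) x + Ω' (2 * t - 1) x - θ' x, ?_, fun t ht => ?_, fun t ht => ?_,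
    fun t => ?_⟩
  · exact ((h1.comp (f := fun p : ℝ × E => (2 * p.1, p.2)) (by fun_prop)).add
      (h1'.comp (f := fun p : ℝ × E => (2 * p.1 - 1, p.2)) (by fun_prop))).sub
      (h5.comp contDiff_snd)
  · funext x; beta_reduce; rw [h2 _ (by linarith), h2' _ (by linarith)]; simp
  · funext x; beta_reduce; rw [h3 _ (by linarith), h3' _ (by linarith)]; simp
  · beta_reduce
    rcases le_total t (1 / 2) with ht | ht
    · rw [h2' _ (by linarith)]; simpa using h4 _
    · rw [h3 _ (by linarith)]; simpa using h4' _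

theorem Rel.seg {a : A2} {θ θ' : E → A2} (h : Ex a θ) (h' : Ex a θ')
    (hn : ∀ s ∈ Icc (0 : ℝ) 1, ∀ x, Nd (θ x + s • (θ' x - θ x))) : Rel a θ θ' := by
  refine ⟨fun t x => θ x + Real.smoothTransition t • (θ' x - θ x), ?_, fun t ht => ?_,
    fun t ht => ?_, fun t => ⟨h.comb h' _, hn _ ⟨Real.smoothTransition.nonneg t,
      Real.smoothTransition.le_one t⟩⟩⟩
  · exact (h.isForm.1.comp contDiff_snd).add
      ((Real.smoothTransition.contDiff.comp contDiff_fst).smul
        ((h'.isForm.1.comp contDiff_snd).sub (h.isForm.1.comp contDiff_snd)))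
  · funext x; beta_reduce; rw [Real.smoothTransition.zero_of_nonpos ht]; simp
  · funext x; beta_reduce; rw [Real.smoothTransition.one_of_one_le ht]; simp

end

end Pool.Agent.MP_be5fd0_gt

end
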