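import Pool.Agent.MP_be5fd0_gt.H27.Defs
import Pool.Agent.Lib.CupDegree.Basic
import Pool.Agent.MP_be5fd0_gt.H27.PA
import Pool.Agent.MP_be5fd0_gt.H27.PB
import Pool.Agent.MP_be5fd0_gt.H27.PC
import Pool.Agent.MP_be5fd0_gt.H27.PD
import Pool.Agent.MP_be5fd0_gt.H27.PE
import Pool.Agent.MP_be5fd0_gt.H27.PF
import Pool.Agent.MP_be5fd0_gt.H27.PG

attribute [-instance] LieAdmissibleAlgebra.toModule LeftPreLieAlgebra.toModule
  TotallySeparatedSpace.t2Space RightPreLieAlgebra.toModule Valued.toUniformSpace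
  NonUnitalNonAssocSemiring.toDistrib continuousSub_of_discreteTopology
  NonUnitalNonAssocRing.toAddCommGroup NonUnitalNonAssocSemiring.toAddCommMonoid
  AddQuantale.instAddLeftMono NumberField.to_charZero CommSemiring.toSemiring
  NonarchimedeanAddGroup.toIsTopologicalAddGroup
  PositiveLinearMap.instContinuousLinearMapClassComplexOfLinearMapClassOfOrderHomClass
  RKHS.instFunLike littleWedderburn NonUnitalNonAssocSemiring.toMulZeroClass
  continuousSub_of_indiscreteTopology CommRing.toRing NormedRing.toRing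
  NonUnitalNormedRing.toNonUnitalSeminormedRing CoalgHomClass.toSemilinearMapClass
  NonarchimedeanRing.toIsTopologicalRing AlgHom.instContinuousLinearMapClassOfAlgHomClass
  ProperSMul.toContinuousSMul IdemSemiring.toCanonicallyOrderedAdd
  NonUnitalAlgSemiHomClass.toDistribMulActionSemiHomClass
  SemilinearIsometryClass.toSemilinearMapClass GrpTypeEquivalenceGrp.grpGroup
  DenselyNormedField.toNormedField IsometryClass.toContinuousMapClass MulZeroOneClass.toMulZeroClass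
  IdemSemiring.toSemiring SemilinearIsometryClass.toContinuousSemilinearMapClass
  NonUnitalNormedCommRing.toNonUnitalSeminormedCommRing MulOne.toMul AddQuantale.instAddRightMono
  AddCommGroupWithOne.toAddGroupWithOne LieRing.toAddCommGroup AddCommMonoidWithOne.toAddCommMonoid
  Ring.toAddCommGroup RingHomClass.toLinearMapClassNNRat IdemSemiring.toMulLeftMono
  Valued.isTopologicalDivisionRing ZeroAtInftyContinuousMapClass.toContinuousMapClass
  NormedRing.toSeminormedRing MulSemiringAction.toDistribMulAction RingHomClass.toLinearMapClassRat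
  BoundedContinuousMapClass.toContinuousMapClass IsTopologicalTorsor.toContinuousSMul
  RingHomClass.toMonoidWithZeroHomClass UpgradedStandardBorel.toTopologicalSpace
  NonAssocSemiring.toAddCommMonoidWithOne instCoeOTCOfCoeOut Quantale.instMulRightMono
  instCoeHTCTOfCoeTailOfCoeHTC IsOrderedMonoid.toMulLeftMono BooleanRing.toRing
  IsTopologicalSemiring.toContinuousAdd instSMulZeroClass instCoeHTCOfCoeHeadOfCoeOTC

-- part MP_be5fd0_gt.H27.PH
section

/-! The degree count. -/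

/-! The mod 2 degree obstruction on a torus times a box. -/

namespace Pool.Agent.MP_be5fd0_gt.T

namespace Deg'

open Set Filter Topology Metric Function

theorem swap {X W : Type*} [MetricSpace X] [NormedAddCommGroup W] {K D N : Set X}
    (hK : IsCompact K) (hD : IsClosed D) (hN : IsClosed N) (hDN : Disjoint D N) (H : ℝ → X → W)
    (hH : ContinuousOn (uncurry H) (Icc 0 1 ×ˢ K))
    (hz : ∀ t ∈ Icc (0 : ℝ) 1, ∀ x ∈ K, x ∈ D → H t x ≠ 0) :
    ∃ G : X → W, ContinuousOn G K ∧ (∀ x ∈ K, x ∈ D → G x = H 1 x) ∧ (∀ x ∈ N, G x = H 0 x) ∧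
      ∀ x ∈ K, G x = 0 → H 0 x = 0 := by
  have hc : IsCompact (Icc (0 : ℝ) 1 ×ˢ K) := isCompact_Icc.prod hK
  have hZ : IsCompact (Prod.snd '' ((Icc (0 : ℝ) 1 ×ˢ K) ∩ uncurry H ⁻¹' {0})) :=
    (hc.of_isClosed_subset (hH.preimage_isClosed_of_isClosed hc.isClosed isClosed_singleton)
      inter_subset_left).image continuous_snd
  obtain ⟨f, f0, f1, fI⟩ := exists_continuous_zero_one_of_isClosed (hZ.isClosed.union hN) hD (by
    rw [disjoint_union_left]
    refine ⟨disjoint_left.2 ?_, hDN.symm⟩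
    rintro _ ⟨⟨t, x⟩, ⟨⟨h1, h2⟩, h3⟩, rfl⟩ h
    exact hz t h1 x h2 h h3)
  refine ⟨fun x => H (f x) x, ?_, fun x _ h => ?_, fun x h => ?_, fun x hx h => ?_⟩
  · exact hH.comp (f := fun x => (f x, x)) (by fun_prop) fun x hx => ⟨fI x, hx⟩
  · exact congrArg (H · x) (f1 h)
  · exact congrArg (H · x) (f0 (Or.inr h))
  · exact (congrArg (H · x) (f0 (Or.inl ⟨(f x, x), ⟨⟨fI x, hx⟩, h⟩, rfl⟩))).symm.trans h

theorem continuousOn_inv {X Y : Type*} [TopologicalSpace X] [T2Space X] [TopologicalSpace Y]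
    [T2Space Y] [Nonempty X] {B : Set X} (hB : IsCompact B) {ψ : X → Y} (hψ : ContinuousOn ψ B)
    (hi : InjOn ψ B) : ContinuousOn (invFunOn ψ B) (ψ '' B) := by
  rw [continuousOn_iff_isClosed]
  intro t ht
  refine ⟨ψ '' (B ∩ t), ((hB.inter_right ht).image_of_continuousOn
    (hψ.mono inter_subset_left)).isClosed, ?_⟩
  ext y
  constructor
  · rintro ⟨h, x, hx, rfl⟩
    rw [mem_preimage, hi.leftInvOn_invFunOn hx] at h
    exact ⟨⟨x, ⟨hx, h⟩, rfl⟩, x, hx, rfl⟩
  · rintro ⟨⟨x, ⟨hx, h⟩, rfl⟩, h2⟩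
    exact ⟨by rwa [mem_preimage, hi.leftInvOn_invFunOn hx], h2⟩

variable {U W : Type*} [NormedAddCommGroup U] [NormedSpace ℝ U] [FiniteDimensional ℝ U]
  [NormedAddCommGroup W] [NormedSpace ℝ W]

/-- The boundary values of `F` on `B` are those of a map with the single zero `w₀`, near which it
is an invertible affine map. -/
def Ess (B : Set W) (w₀ : W) (F : W → W) : Prop :=
  ∃ (G : W → W) (A : W ≃L[ℝ] W), ContinuousOn G B ∧ (∀ w ∈ frontier B, G w = F w) ∧
    (∀ w ∈ B, G w = 0 → w = w₀) ∧ ∀ᶠ w in 𝓝 w₀, G w = A (w - w₀)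

section Ess

variable {B : Set W} {w₀ : W} {F F' : W → W}

theorem Ess.affine (A : W ≃L[ℝ] W) (h : ∀ w ∈ frontier B, F w = A (w - w₀)) : Ess B w₀ F :=
  ⟨fun w => A (w - w₀), A, by fun_prop, fun w hw => (h w hw).symm,
    fun w _ e => by rwa [map_eq_zero_iff _ A.injective, sub_eq_zero] at e, .of_forall fun _ => rfl⟩

theorem Ess.congr (h : Ess B w₀ F') (e : ∀ w ∈ frontier B, F w = F' w) : Ess B w₀ F :=
  let ⟨G, A, g1, g2, g3⟩ := h
  ⟨G, A, g1, fun w hw => (g2 w hw).trans (e w hw).symm, g3⟩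

theorem Ess.homotopy (hB : IsCompact B) (hw : w₀ ∈ interior B) (K : ℝ → W → W)
    (hK : ContinuousOn (uncurry K) (Icc 0 1 ×ˢ B))
    (hz : ∀ t ∈ Icc (0 : ℝ) 1, ∀ w ∈ frontier B, K t w ≠ 0) (h : Ess B w₀ (K 1)) :
    Ess B w₀ (K 0) := by
  obtain ⟨G, A, g1, g2, g3, g4⟩ := h
  obtain ⟨r, hr, h3⟩ := nhds_basis_closedBall.eventually_iff.1
    (g4.and (isOpen_interior.mem_nhds hw))
  have hK1 : ContinuousOn (K 1) B :=
    hK.comp (f := fun y => (1, y)) (by fun_prop) fun y hy => ⟨⟨zero_le_one, le_rfl⟩, hy⟩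
  obtain ⟨G', k1, k2, k3, k4⟩ := swap (D := frontier B) (N := closedBall w₀ r) hB isClosed_frontier
    isClosed_closedBall (disjoint_left.2 fun w h h' => h.2 (h3 h').2)
    (fun t w => K (1 - t) w + (1 - t) • (G w - K 1 w))
    ((hK.comp (f := fun p : ℝ × W => (1 - p.1, p.2)) (by fun_prop)
      fun p hp => ⟨⟨by linarith [hp.1.2], by linarith [hp.1.1]⟩, hp.2⟩).add
      (ContinuousOn.smul (by fun_prop) ((g1.sub hK1).comp continuousOn_snd fun p hp => hp.2)))
    fun t ht w _ h => by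
      simpa [g2 w h] using hz _ ⟨by linarith [ht.2], by linarith [ht.1]⟩ w h
  simp only [sub_zero, sub_self, one_smul, zero_smul, add_zero, add_sub_cancel] at k2 k3 k4
  refine ⟨G', A, k1, fun w h => k2 w (hB.isClosed.frontier_subset h) h,
    fun w h e => g3 w h (k4 w h e), ?_⟩
  filter_upwards [closedBall_mem_nhds w₀ hr] with w h
  rw [k3 w h, (h3 h).1]

end Ess

omit [FiniteDimensional ℝ U] in
theorem local_model {B : Set W} {ψ : W → U} (hψ : ContinuousOn ψ B) {F : W → W} {w₀ : W}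
    (hw : w₀ ∈ interior B) (hF : Ess B w₀ F) (D : W ≃L[ℝ] U)
    (hD : HasFDerivAt ψ (D : W →L[ℝ] U) w₀) :
    ∃ (G : W → W) (A : W ≃L[ℝ] W), ContinuousOn G B ∧ (∀ w ∈ frontier B, G w = F w) ∧
      (∀ w ∈ B, G w = 0 → w = w₀) ∧ ∀ᶠ w in 𝓝 w₀, G w = A (D.symm (ψ w - ψ w₀)) := by
  obtain ⟨G, A, g1, g2, g4, g3⟩ := hF
  have h1 : HasFDerivAt (fun w => D.symm (ψ w - ψ w₀)) (ContinuousLinearMap.id ℝ W) w₀ := by
    have := (D.symm : U →L[ℝ] W).hasFDerivAt.comp w₀ (hD.sub_const (ψ w₀))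
    rwa [D.coe_symm_comp_coe] at this
  have h2 := (h1.isLittleO.bound (c := 1 / 2) (by norm_num)).and
    ((isOpen_interior.eventually_mem hw).and g3)
  obtain ⟨r, hr, h3⟩ := nhds_basis_closedBall.eventually_iff.1 h2
  replace g3 : ∀ w, dist w w₀ ≤ r → G w = A (w - w₀) := fun w h => (h3 h).2.2
  set β : W → ℝ := fun w => max 0 (min 1 (2 - 2 * dist w w₀ / r)) with hβ
  have β0 : ∀ w, r ≤ dist w w₀ → β w = 0 := fun w h => by
    have : 2 ≤ 2 * dist w w₀ / r := by rw [le_div_iff₀ hr]; linarith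
    exact max_eq_left ((min_le_right _ _).trans (by linarith only [this]))
  refine ⟨fun w => G w + β w • A (D.symm (ψ w - ψ w₀) - (w - w₀)), A, ?_, fun w h => ?_,
    fun w h h0 => ?_, ?_⟩
  · refine g1.add (ContinuousOn.smul (by fun_prop) ?_)
    exact A.continuous.comp_continuousOn
      ((D.symm.continuous.comp_continuousOn (hψ.sub continuousOn_const)).sub (by fun_prop))
  · have : r ≤ dist w w₀ := not_lt.1 fun h' => h.2 (h3 (mem_closedBall.2 h'.le)).2.1
    simp only [β0 w this, zero_smul, add_zero]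
    exact g2 w h
  · by_cases h' : dist w w₀ ≤ r
    · have e := (h3 (mem_closedBall.2 h')).1
      simp only [g3 w h', ← map_smul, ← map_add, map_eq_zero_iff _ A.injective] at h0
      simp only [sub_self, map_zero, sub_zero, ContinuousLinearMap.id_apply] at e
      have b1 : ‖β w‖ ≤ 1 := by
        rw [Real.norm_of_nonneg (le_max_left _ _)]
        exact max_le zero_le_one (min_le_left _ _)
      have e2 : ‖w - w₀‖ ≤ 1 / 2 * ‖w - w₀‖ := by
        calc ‖w - w₀‖ = ‖β w • (D.symm (ψ w - ψ w₀) - (w - w₀))‖ :=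
              (congrArg norm (eq_neg_of_add_eq_zero_left h0)).trans (norm_neg _)
          _ ≤ 1 * (1 / 2 * ‖w - w₀‖) := by rw [norm_smul]; gcongr
          _ = _ := one_mul _
      exact sub_eq_zero.1 (norm_eq_zero.1 (by linarith only [norm_nonneg (w - w₀), e2]))
    · simp only [β0 w (not_le.1 h').le, zero_smul, add_zero] at h0
      exact g4 w h h0
  · filter_upwards [closedBall_mem_nhds w₀ (half_pos hr)] with w h
    have h' : dist w w₀ ≤ r := (mem_closedBall.1 h).trans (by linarith)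
    have : β w = 1 := by
      have : 2 * dist w w₀ / r ≤ 1 := by rw [div_le_one hr]; linarith [mem_closedBall.1 h]
      rw [hβ]; simp only
      rw [min_eq_left (by linarith), max_eq_right zero_le_one]
    rw [g3 w h', this, one_smul, ← map_add, add_sub_cancel]

theorem core {Ω : Set U} (hΩ : IsCompact Ω) (H : ℝ → U → W)
    (hH : ContinuousOn (uncurry H) (Icc 0 1 ×ˢ Ω))
    (hz : ∀ t ∈ Icc (0 : ℝ) 1, ∀ y ∈ frontier Ω, H t y ≠ 0) {c : W} (hc : c ≠ 0)
    (h1 : ∀ y ∈ frontier Ω, H 1 y = c) {B : Set W} (hB : IsCompact B) {ψ : W → U}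
    (hψ : ContinuousOn ψ B) (hi : InjOn ψ B) (ho : IsOpen (ψ '' interior B)) (hBΩ : MapsTo ψ B Ω)
    (h0 : ∀ y ∈ Ω, H 0 y = 0 → y ∈ ψ '' interior B) {w₀ : W}
    (hw : w₀ ∈ interior B) (hE : Ess B w₀ fun w => H 0 (ψ w)) (D : W ≃L[ℝ] U)
    (hD : HasFDerivAt ψ (D : W →L[ℝ] U) w₀) : False := by
  classical
  obtain ⟨G, A, g1, g2, g3, g4⟩ := local_model hψ hw hE D hD
  have : Nontrivial W := ⟨⟨c, 0, hc⟩⟩
  have : Nontrivial U := D.symm.surjective.nontrivial
  have hχ := continuousOn_inv hB hψ hi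
  set χ := invFunOn ψ B
  have hl : ∀ w ∈ B, χ (ψ w) = w := fun w h => hi.leftInvOn_invFunOn h
  have hH0 : ContinuousOn (H 0) Ω :=
    hH.comp (f := fun y => (0, y)) (by fun_prop) fun y hy => ⟨⟨le_rfl, zero_le_one⟩, hy⟩
  have hcl : IsClosed (ψ '' B) := (hB.image_of_continuousOn hψ).isClosed
  set F : U → W := fun y => if y ∈ ψ '' B then G (χ y) else H 0 y with hF
  have F1 : ∀ y ∈ ψ '' B, F y = G (χ y) := fun y h => if_pos h
  have F2 : ∀ y, y ∉ ψ '' interior B → F y = H 0 y := fun y h => by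
    by_cases h' : y ∈ ψ '' B
    · obtain ⟨w, hw, rfl⟩ := h'
      have : w ∈ frontier B := ⟨subset_closure hw, fun h' => h ⟨w, h', rfl⟩⟩
      rw [F1 _ ⟨w, hw, rfl⟩, hl w hw, g2 w this]
    · exact if_neg h'
  have hFc : ContinuousOn F Ω := by
    have a1 : ContinuousOn F (ψ '' B) := (g1.comp hχ (by
      rintro _ ⟨w, hw, rfl⟩; rwa [hl w hw])).congr F1
    have a2 : ContinuousOn F (Ω ∩ (ψ '' interior B)ᶜ) :=
      (hH0.mono inter_subset_left).congr fun y hy => F2 y hy.2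
    refine (a1.union_of_isClosed a2 hcl (hΩ.isClosed.inter ho.isClosed_compl)).mono fun y hy => ?_
    by_cases h : y ∈ ψ '' interior B
    · exact Or.inl (image_mono interior_subset h)
    · exact Or.inr ⟨hy, h⟩
  have hint : ψ '' interior B ⊆ interior Ω :=
    interior_maximal (by rintro _ ⟨w, hw, rfl⟩; exact hBΩ (interior_subset hw)) ho
  have hy₀ : ψ '' interior B ∈ 𝓝 (ψ w₀) := ho.mem_nhds ⟨w₀, hw, rfl⟩
  have hev : ∀ᶠ y in 𝓝 (ψ w₀), F y = A (D.symm (y - ψ w₀)) ∧ y ∈ interior Ω := by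
    have t1 : Tendsto χ (𝓝 (ψ w₀)) (𝓝 w₀) := by
      have := (hχ.continuousAt (mem_of_superset hy₀ (image_mono interior_subset))).tendsto
      rwa [hl w₀ (interior_subset hw)] at this
    filter_upwards [t1.eventually g4, hy₀] with y a b
    refine ⟨?_, hint b⟩
    obtain ⟨w, hw, rfl⟩ := b
    rw [F1 _ ⟨w, interior_subset hw, rfl⟩, a, hl w (interior_subset hw)]
  obtain ⟨ρ, hρ, h3⟩ := nhds_basis_closedBall.eventually_iff.1 hev
  have Ffr : ∀ y ∈ frontier Ω, F y = H 0 y := fun y h => F2 y fun h' => h.2 (hint h')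
  obtain ⟨G', k1, k2, k3, k4⟩ := swap (D := frontier Ω) (N := closedBall (ψ w₀) ρ) hΩ
    isClosed_frontier isClosed_closedBall (disjoint_left.2 fun w h h' => h.2 (h3 h').2)
    (fun t y => H t y + (1 - t) • (F y - H 0 y))
    (hH.add (ContinuousOn.smul (by fun_prop)
      ((hFc.sub hH0).comp continuousOn_snd fun p hp => hp.2)))
    fun t ht y _ h => by simpa [Ffr y h] using hz t ht y h
  simp only [sub_zero, sub_self, one_smul, zero_smul, add_zero, add_sub_cancel] at k2 k3 k4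
  set G2 : U → W := fun y => if y ∈ Ω then G' y else c with hG2
  have b1 : ∀ y ∈ Ω, G2 y = G' y := fun y h => if_pos h
  have b2 : ∀ y ∈ (interior Ω)ᶜ, G2 y = c := fun y h => by
    by_cases h' : y ∈ Ω
    · have : y ∈ frontier Ω := ⟨subset_closure h', h⟩
      rw [b1 y h', k2 y h' this, h1 y this]
    · exact if_neg h'
  have hG2c : Continuous G2 := by
    have := (k1.congr b1).union_of_isClosed (continuousOn_const.congr b2) hΩ.isClosed
      isOpen_interior.isClosed_compl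
    rw [← continuousOn_univ]
    refine this.mono fun y _ => ?_
    by_cases h : y ∈ interior Ω
    · exact Or.inl (interior_subset h)
    · exact Or.inr h
  obtain ⟨R, hR⟩ := hΩ.isBounded.subset_ball (ψ w₀)
  refine Pool.Agent.Lib.CupDegree.second_zero (fun u => D (A.symm (G2 (u + ψ w₀)))) (by fun_prop)
    ?_ (fun u hu => ?_) R (D (A.symm c)) fun u hu => ?_
  · filter_upwards [closedBall_mem_nhds (0 : U) hρ] with u hu
    have : u + ψ w₀ ∈ closedBall (ψ w₀) ρ := by simpa only [mem_closedBall, dist_add_self_left, dist_zero_right] using hu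
    rw [b1 _ (interior_subset (h3 this).2), k3 _ this, (h3 this).1]
    simp
  · simp only [map_eq_zero_iff _ D.injective, map_eq_zero_iff _ A.symm.injective] at hu
    have hm : u + ψ w₀ ∈ Ω := by
      by_contra h
      exact hc ((if_neg h).symm.trans hu)
    have hF0 := k4 _ hm ((b1 _ hm).symm.trans hu)
    have hm' : u + ψ w₀ ∈ ψ '' interior B := by
      by_contra h
      exact h (h0 _ hm ((F2 _ h).symm.trans hF0))
    obtain ⟨w, hw', e⟩ := hm'
    rw [← e, F1 _ ⟨w, interior_subset hw', rfl⟩, hl w (interior_subset hw')] at hF0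
    rw [g3 w (interior_subset hw') hF0] at e
    simpa using e
  · have : u + ψ w₀ ∉ Ω := fun h => by
      have := hR h
      simp only [mem_ball, dist_eq_norm, add_sub_cancel_right] at this
      linarith only [hu, this]
    simp only [hG2, if_neg this]

section Torus

variable {ι : Type*} [Fintype ι]

/-- Polar coordinates. -/
noncomputable def pol (x : (ι → ℝ) × (ι → ℝ)) : ι → ℂ :=
  fun j => Complex.exp (x.2 j + 2 * Real.pi * x.1 j * Complex.I)

/-- A set-theoretic section of the polar coordinates. -/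
noncomputable def sec (y : ι → ℂ) : (ι → ℝ) × (ι → ℝ) :=
  (fun j => (y j).arg / (2 * Real.pi), fun j => Real.log ‖y j‖)

omit [Fintype ι] in
theorem pol_eq {x x' : (ι → ℝ) × (ι → ℝ)} (h : pol x' = pol x) :
    ∃ n : ι → ℤ, x' = (x.1 + fun j => (n j : ℝ), x.2) := by
  choose n hn using fun j => Complex.exp_eq_exp_iff_exists_int.1 (congrFun h j)
  refine ⟨n, Prod.ext (funext fun j => ?_) (funext fun j => ?_)⟩
  · have := congrArg Complex.im (hn j)
    simp at this
    have hp := Real.pi_pos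
    apply mul_left_cancel₀ (show 2 * Real.pi ≠ 0 by positivity)
    simp only [Pi.add_apply]
    linarith
  · simpa using congrArg Complex.re (hn j)

omit [Fintype ι] in
theorem pol_add (x : (ι → ℝ) × (ι → ℝ)) (n : ι → ℤ) :
    pol (x.1 + fun j => (n j : ℝ), x.2) = pol x := by
  funext j
  exact Complex.exp_eq_exp_iff_exists_int.2 ⟨n j, by simp; ring⟩

omit [Fintype ι] in
theorem pol_sec (x : (ι → ℝ) × (ι → ℝ)) : pol (sec (pol x)) = pol x := by
  funext j
  have h : pol x j ≠ 0 := Complex.exp_ne_zero _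
  have hp : (Real.pi : ℂ) ≠ 0 := by exact_mod_cast Real.pi_ne_zero
  rw [← Complex.exp_log h, Complex.log]
  simp only [pol, sec]
  congr 2
  push_cast
  field_simp

theorem pol_deriv (x : (ι → ℝ) × (ι → ℝ)) : ∃ D : ((ι → ℝ) × (ι → ℝ)) ≃L[ℝ] (ι → ℂ),
    HasStrictFDerivAt pol (D : ((ι → ℝ) × (ι → ℝ)) →L[ℝ] (ι → ℂ)) x := by
  let l : ι → ((ι → ℝ) × (ι → ℝ)) →L[ℝ] ℂ := fun j =>
    Complex.ofRealCLM ∘L (ContinuousLinearMap.proj j) ∘L ContinuousLinearMap.snd ℝ _ _ +
      (2 * Real.pi * Complex.I : ℂ) •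
        Complex.ofRealCLM ∘L (ContinuousLinearMap.proj j) ∘L ContinuousLinearMap.fst ℝ _ _
  have hl : ∀ j h, l j h = h.2 j + 2 * Real.pi * h.1 j * Complex.I := fun j h => by
    simp [l]; ring
  have h : HasStrictFDerivAt pol (ContinuousLinearMap.pi fun j => pol x j • l j) x := by
    refine hasStrictFDerivAt_pi.2 fun j => ?_
    have := (l j).hasStrictFDerivAt (x := x).cexp
    simp only [hl] at this
    exact this
  have hp : (Real.pi : ℂ) ≠ 0 := by exact_mod_cast Real.pi_ne_zero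
  refine ⟨ContinuousLinearEquiv.ofBijective _ ?_ ?_, by rwa [ContinuousLinearEquiv.coe_ofBijective]⟩
  · refine LinearMap.ker_eq_bot'.2 fun h e => ?_
    have e' : ∀ j, l j h = 0 := fun j => by
      have := congrFun e j
      simpa only [pol, ContinuousLinearMap.coe_pi, ContinuousLinearMap.toLinearMap_smul, LinearMap.pi_apply, LinearMap.smul_apply, ContinuousLinearMap.coe_coe, smul_eq_mul, Pi.zero_apply, mul_eq_zero, Complex.exp_ne_zero, false_or] using this
    refine Prod.ext (funext fun j => ?_) (funext fun j => ?_)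
    · simpa [hl, Real.pi_ne_zero] using congrArg Complex.im (e' j)
    · simpa [hl] using congrArg Complex.re (e' j)
  · refine LinearMap.range_eq_top.2 fun y =>
      ⟨(fun j => (y j / pol x j).im / (2 * Real.pi), fun j => (y j / pol x j).re), funext fun j => ?_⟩
    have h0 : pol x j ≠ 0 := Complex.exp_ne_zero _
    have : l j (fun j => (y j / pol x j).im / (2 * Real.pi), fun j => (y j / pol x j).re) =
        y j / pol x j := by
      rw [hl]
      conv_rhs => rw [← Complex.re_add_im (y j / pol x j)]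
      push_cast
      field_simp
    simp only [ContinuousLinearMap.coe_coe, ContinuousLinearMap.pi_apply,
      smul_apply, this, smul_eq_mul]
    field_simp

theorem pol_open : IsOpenMap (pol : (ι → ℝ) × (ι → ℝ) → ι → ℂ) := by
  choose D hD using pol_deriv (ι := ι)
  exact isOpenMap_of_hasStrictFDerivAt_equiv hD

omit [Fintype ι] in
theorem pol_cont : Continuous (pol : (ι → ℝ) × (ι → ℝ) → ι → ℂ) := by
  unfold pol; fun_prop

/-- The mod 2 degree obstruction on a torus times a box. -/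
theorem torus_obstruction (lo hi : ι → ℝ) (H : ℝ → (ι → ℝ) × (ι → ℝ) → W)
    (hH : ContinuousOn (uncurry H) (Icc 0 1 ×ˢ univ ×ˢ Icc lo hi))
    (hper : ∀ t p q (n : ι → ℤ), H t (p + fun j => (n j : ℝ), q) = H t (p, q))
    (hz : ∀ t ∈ Icc (0 : ℝ) 1, ∀ p, ∀ q ∈ Icc lo hi, (∃ j, q j = lo j ∨ q j = hi j) →
      H t (p, q) ≠ 0) {c : W} (hc : c ≠ 0) (h1 : ∀ p, ∀ q ∈ Icc lo hi, H 1 (p, q) = c)
    {B : Set W} (hB : IsCompact B) {θ : W → (ι → ℝ) × (ι → ℝ)} (hθ : ContinuousOn θ B)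
    (ho : IsOpen (θ '' interior B)) (hm : ∀ w ∈ B, (θ w).2 ∈ Icc lo hi)
    (hi' : ∀ w ∈ B, ∀ w' ∈ B, ∀ n : ι → ℤ, θ w' = ((θ w).1 + fun j => (n j : ℝ), (θ w).2) → w' = w)
    (h0 : ∀ p, ∀ q ∈ Icc lo hi, H 0 (p, q) = 0 →
      ∃ w ∈ interior B, ∃ n : ι → ℤ, θ w = (p + fun j => (n j : ℝ), q)) {w₀ : W}
    (hw : w₀ ∈ interior B) (hE : Ess B w₀ fun w => H 0 (θ w)) (D : W ≃L[ℝ] (ι → ℝ) × (ι → ℝ))
    (hD : HasFDerivAt θ (D : W →L[ℝ] (ι → ℝ) × (ι → ℝ)) w₀) : False := by
  have hs : ∀ t x, H t (sec (pol x)) = H t x := fun t x => by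
    obtain ⟨n, hn⟩ := pol_eq (pol_sec x)
    rw [hn, hper]
  set Ω : Set (ι → ℂ) := pol '' (Icc 0 1 ×ˢ Icc lo hi) with hΩ
  have hin : ∀ x : (ι → ℝ) × (ι → ℝ), x.2 ∈ Icc lo hi → pol x ∈ Ω := fun x hx =>
    ⟨(x.1 + fun j => ((-⌊x.1 j⌋ : ℤ) : ℝ), x.2), ⟨⟨fun j => by
      simp [Int.floor_le], fun j => by
      have := Int.lt_floor_add_one (x.1 j); simp; linarith⟩, hx⟩, pol_add x _⟩
  have hcΩ : IsCompact Ω := (isCompact_Icc.prod isCompact_Icc).image pol_cont
  have hfr : ∀ y ∈ frontier Ω, ∃ p, ∃ q ∈ Icc lo hi, (∃ j, q j = lo j ∨ q j = hi j) ∧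
      y = pol (p, q) := fun y hy => by
    obtain ⟨⟨p, q⟩, hx, rfl⟩ := hcΩ.isClosed.frontier_subset hy
    refine ⟨p, q, hx.2, ?_, rfl⟩
    by_contra hn
    push Not at hn
    refine hy.2 (interior_maximal (t := pol '' (univ ×ˢ Set.pi univ fun j => Ioo (lo j) (hi j))) ?_
      (pol_open _ (isOpen_univ.prod (isOpen_set_pi finite_univ fun _ _ => isOpen_Ioo)))
      ⟨(p, q), ⟨trivial, fun j _ => ⟨(hx.2.1 j).lt_of_ne (hn j).1.symm,
        (hx.2.2 j).lt_of_ne (hn j).2⟩⟩, rfl⟩)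
    rintro _ ⟨x, hx, rfl⟩
    exact hin x ⟨fun j => (hx.2 j trivial).1.le, fun j => (hx.2 j trivial).2.le⟩
  obtain ⟨D', hD'⟩ := pol_deriv (θ w₀)
  refine core hcΩ (fun t y => H t (sec y)) ?_ (fun t ht y hy => ?_) hc (fun y hy => ?_) hB
    (ψ := pol ∘ θ) (pol_cont.comp_continuousOn hθ) (fun w h w' h' e => ?_)
    (by rw [image_comp]; exact pol_open _ ho) (fun w h => hin _ (hm w h)) ?_ hw
    (hE.congr fun w _ => hs _ _) (D.trans D')
    (hD'.hasFDerivAt.comp w₀ hD)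
  · rw [continuousOn_iff_isClosed]
    intro T hT
    have hc' : IsCompact (Icc (0 : ℝ) 1 ×ˢ Icc (0 : ι → ℝ) 1 ×ˢ Icc lo hi) :=
      isCompact_Icc.prod (isCompact_Icc.prod isCompact_Icc)
    refine ⟨Prod.map id pol '' ((Icc 0 1 ×ˢ Icc 0 1 ×ˢ Icc lo hi) ∩ uncurry H ⁻¹' T),
      ((hc'.of_isClosed_subset ((hH.mono (prod_mono le_rfl (prod_mono (subset_univ _) le_rfl))
        ).preimage_isClosed_of_isClosed hc'.isClosed hT) inter_subset_left).image
        (continuous_id.prodMap pol_cont)).isClosed, ?_⟩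
    ext ⟨t, y⟩
    constructor
    · rintro ⟨h, ht, x, hx, rfl : pol x = y⟩
      exact ⟨⟨(t, x), ⟨⟨ht, hx⟩, by simpa [hs] using h⟩, rfl⟩, ht, x, hx, rfl⟩
    · rintro ⟨⟨⟨t', x⟩, ⟨-, h⟩, e⟩, h2⟩
      cases e
      exact ⟨by simpa [hs] using h, h2⟩
  · obtain ⟨p, q, hq, hj, rfl⟩ := hfr y hy
    simpa only [hs] using hz t ht p q hq hj
  · obtain ⟨p, q, hq, -, rfl⟩ := hfr y hy
    simpa only [hs] using h1 p q hq
  · obtain ⟨n, hn⟩ := pol_eq e
    exact hi' w' h' w h n hn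
  · rintro _ ⟨⟨p, q⟩, hx, rfl⟩ h
    obtain ⟨w, hw', n, hn⟩ := h0 p q hx.2 (by simpa only [hs] using h)
    exact ⟨w, hw', by rw [comp_apply, hn]; exact pol_add (p, q) n⟩

end Torus

/-- real coordinates -/
noncomputable def co : E ≃L[ℝ] (Fin 4 → ℝ) :=
  LinearEquiv.toContinuousLinearEquiv
    { toFun := fun x => ![(x 0).re, (x 0).im, (x 1).re, (x 1).im]
      invFun := fun y => mk ⟨y 0, y 1⟩ ⟨y 2, y 3⟩
      map_add' := fun x y => by ext i; fin_cases i <;> simp
      map_smul' := fun c x => by ext i; fin_cases i <;> simp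
      left_inv := fun x => by ext i; fin_cases i <;> simp [mk]
      right_inv := fun y => by ext i; fin_cases i <;> simp [mk] }

theorem co_apply (x : E) : co x = ![(x 0).re, (x 0).im, (x 1).re, (x 1).im] := rfl

theorem co_symm (y : Fin 4 → ℝ) : co.symm y = mk ⟨y 0, y 1⟩ ⟨y 2, y 3⟩ := rfl

theorem lat_symm (n : Fin 4 → ℤ) : Lat (co.symm fun j => (n j : ℝ)) :=
  ⟨⟨n 0, n 1, by apply Complex.ext <;> simp [co_symm, mk]⟩,
    ⟨n 2, n 3, by apply Complex.ext <;> simp [co_symm, mk]⟩⟩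

theorem lat_co {n : E} (h : Lat n) : ∃ m : Fin 4 → ℤ, co n = fun j => (m j : ℝ) := by
  obtain ⟨⟨a, b, h1⟩, c, d, h2⟩ := h
  exact ⟨![a, b, c, d], by ext i; fin_cases i <;> simp [co_apply, h1, h2]⟩

theorem co_le (x : E) (j : Fin 4) : |co x j| ≤ ‖x‖ := by
  have h0 := PiLp.norm_apply_le x 0
  have h1 := PiLp.norm_apply_le x 1
  fin_cases j
  · exact (Complex.abs_re_le_norm _).trans h0
  · exact (Complex.abs_im_le_norm _).trans h0
  · exact (Complex.abs_re_le_norm _).trans h1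
  · exact (Complex.abs_im_le_norm _).trans h1

theorem mem_Qb {R : ℝ} {e : E} : e ∈ Qb R ↔ co e ∈ Icc ![0, -1, 0, 0] ![1, 1, R, R] := by
  simp only [Qb, mem_ofPred_eq, mem_Icc, Pi.le_def, Fin.forall_fin_succ, co_apply]
  simp only [Fin.isValue, Nat.succ_eq_add_one, Nat.reduceAdd, Matrix.cons_val_zero, Fin.succ_zero_eq_one, Matrix.cons_val_one, Fin.succ_one_eq_two, Matrix.cons_val, Fin.reduceSucc, Matrix.cons_val_succ, Matrix.cons_val_fin_one, IsEmpty.forall_iff, and_true]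
  tauto

end Deg'

open Deg' Set Filter Topology Metric Function in
theorem thDeg : StDeg := by
  intro F R c p₀ Ω U x₀ D hF hper hz hc h1 hΩ hU hUΩ hb _ h0 hp ⟨K, k1, k2, k3, k4⟩
  have hUi : U ⊆ interior Ω := interior_maximal hUΩ hU
  have hq : ∀ q ∈ Icc ![0, -1, 0, 0] ![1, 1, R, R], co.symm q ∈ Qb R := fun q h =>
    mem_Qb.2 (by rwa [co.apply_symm_apply])
  refine torus_obstruction ![0, -1, 0, 0] ![1, 1, R, R]
    (fun t x => F (t, co.symm x.1, co.symm x.2)) (Continuous.continuousOn (by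
      unfold uncurry; fun_prop)) (fun t p q n => ?_) (fun t ht p q h hj e => ?_) hc
    (fun p q h => h1 _ _ (hq q h)) hΩ (θ := co.prodCongr co) (by fun_prop)
    ((co.prodCongr co).toHomeomorph.isOpenMap _ isOpen_interior)
    (fun w h => mem_Qb.1 (hb w h).1) (fun w h w' h' n e => ?_) (fun p q h e => ?_) (hUi hp) ?_
    (co.prodCongr co) (co.prodCongr co).hasFDerivAt
  · simp only [map_add]
    exact hper _ _ _ _ (lat_symm n)
  · have := hz t ht _ _ (hq q h) e
    simp only [Qi, co_symm, mk, mem_ofPred_eq, mem_Ioo] at this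
    obtain ⟨j, hj⟩ := hj
    fin_cases j <;> simp only [Nat.succ_eq_add_one, Nat.reduceAdd, Fin.zero_eta, Fin.isValue, Matrix.cons_val_zero, Matrix.cons_val_one, Matrix.cons_val_fin_one, Fin.mk_one, Fin.reduceFinMk, Matrix.cons_val] at hj this <;> rcases hj with hj | hj <;> linarith only [this.1.1, this.1.2, this.2.1.1, this.2.1.2, this.2.2.1.1, this.2.2.1.2, this.2.2.2.1, this.2.2.2.2, hj]
  · have e1 : co w'.1 = co w.1 + fun j => (n j : ℝ) := congrArg Prod.fst e
    have e2 : co w'.2 = co w.2 := congrArg Prod.snd e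
    have hn : ∀ j, n j = 0 := fun j => by
      have a := co_le (w'.1 - w.1) j
      have b : ‖w'.1 - w.1‖ < 1 := by
        have := norm_sub_le (w'.1 - x₀) (w.1 - x₀)
        rw [sub_sub_sub_cancel_right] at this
        linarith [(hb w h).2, (hb w' h').2]
      rw [map_sub, e1, add_sub_cancel_left] at a
      exact Int.abs_lt_one_iff.1 (by exact_mod_cast a.trans_lt b)
    refine Prod.ext (co.injective ?_) (co.injective e2)
    rw [e1]; ext j; simp [hn]
  · obtain ⟨n, hn, hu⟩ := h0 _ _ (hq q h) e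
    obtain ⟨m, hm⟩ := lat_co hn
    refine ⟨_, hUi hu, -m, Prod.ext ?_ (co.apply_symm_apply q)⟩
    change co (co.symm p - n) = _
    rw [map_sub, hm, co.apply_symm_apply]
    ext j; simp [sub_eq_add_neg]
  · have hf := hΩ.isClosed.frontier_subset
    refine (Ess.homotopy hΩ (hUi hp) (fun t w => K (t, w)) k1
      (fun t ht w h e => h.2 (hUi (k4 t ht w (hf h) e)))
      (Ess.affine D fun w h => k3 w (hf h))).congr fun w h => ?_
    rw [k2 w (hf h)]
    simp

end Pool.Agent.MP_be5fd0_gt.T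

namespace Pool.Agent.MP_be5fd0_gt.T

open Complex Filter Topology Set Metric MeasureTheory
open scoped ContDiff BoundedContinuousFunction

section

attribute [local irreducible] mv mvi th rho phi

namespace B3a6

section
variable {X : Type} [TopologicalSpace X]

@[fun_prop] theorem cC {f g : X → ℝ} (hf : Continuous f) (hg : Continuous g) :
    Continuous fun x => (⟨f x, g x⟩ : ℂ) := by
  simp only [Complex.mk_eq_add_mul_I]; fun_prop

@[fun_prop] theorem cM {f g : X → ℂ} (hf : Continuous f) (hg : Continuous g) :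
    Continuous fun x => mk (f x) (g x) := by
  unfold mk
  refine (PiLp.continuous_toLp 2 _).comp (continuous_pi fun i => ?_)
  fin_cases i
  · exact hf
  · exact hg

theorem cmv (h : StP0) {f : X → ℝ} {g : X → ℝ × ℂ} (hf : Continuous f) (hg : Continuous g) :
    Continuous fun x => mv (f x) (g x) := h.1.continuous.comp (hf.prodMk hg)

end

@[fun_prop] theorem c_tt : Continuous tt := by unfold tt; fun_prop
@[fun_prop] theorem c_uu : Continuous uu := by unfold uu Kf; fun_prop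
@[fun_prop] theorem c_oo : Continuous oo := by unfold oo; fun_prop
@[fun_prop] theorem c_l0 : Continuous l0 := by unfold l0; fun_prop
@[fun_prop] theorem c_l1 : Continuous l1 := by unfold l1; fun_prop
@[fun_prop] theorem c_l2 : Continuous l2 := by unfold l2; fun_prop
@[fun_prop] theorem c_rr : Continuous rr := by unfold rr; fun_prop
@[fun_prop] theorem c_rp : Continuous rp := by unfold rp; fun_prop

theorem rho0 : rho 0 = 41 / 200 := by norm_num [rho]
theorem rhoh : rho (1 / 2) = 1 / 200 := by norm_num [rho]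

theorem mk_zero {a b : ℂ} (h : mk a b = 0) : a = 0 ∧ b = 0 :=
  ⟨by simpa [mk] using congrArg (· 0) h, by simpa [mk] using congrArg (· 1) h⟩

theorem rho32 : rho (1 / 2 + 1) = rho 0 := by norm_num [rho]
theorem rho1 : rho (1 / 4 + 3 / 4) = 1 / 200 := by norm_num [rho]

noncomputable def n0 (t o l : ℝ) (p : E × E) : ℝ × ℂ :=
  mv (uu p) (t + 1 / 4, (⟨o, l⟩ : ℂ) / rho (t + 1))
noncomputable def n1 (t : ℝ) (p : E × E) : ℝ × ℂ :=
  mv (uu p + 1 - 2 * t) (t - 3 / 4, th (uu p) * ⟨oo p, l1 p⟩ / rho t)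

noncomputable def Sg (t o : ℝ) (p : E × E) : E × E :=
  (mk (rho 0 * ((n1 t p).2 - (n0 t o (l0 p) p).2) + ⟨0, rr p⟩)
    ⟨(n1 t p).1 - (n0 t o (l0 p) p).1, 1 - 2 * tt p⟩,
   mk (-(rho 0 * (n0 t o (l0 p) p).2) + ⟨0, rp p⟩)
    ⟨(n0 t o (l2 p) p).1 - (n0 t o (l0 p) p).1 - 1, -2 * ((n0 t o (l0 p) p).1 + 3 / 4)⟩)

theorem moved (h : StP0) {u : ℝ} {z : ℝ × ℂ} (e : (mv u z).1 ≠ z.1) :
    |u| < 1 / 100 ∧ 64 / 100 < nq z ∧ nq z < 81 / 100 ∧ ‖(mv u z).2‖ < 9 / 10 := by
  have a : ¬ (1 / 100 ≤ |u| ∨ 81 / 100 ≤ nq z) := fun c => e (by rw [(h.2.2.2.1 _ _ c).1])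
  rw [not_or, not_le, not_le] at a
  refine ⟨a.1, not_le.1 fun c => e (by rw [(h.2.2.2.2.1 _ _ c).1]), a.2, ?_⟩
  have b := (h.2.2.1 u z).1
  rw [nq, normSq_eq_norm_sq] at b
  exact lt_of_pow_lt_pow_left₀ 2 (by norm_num) (by linarith only [sq_nonneg (mv u z).1, a.2, b])

theorem nq_mk (a o l : ℝ) :
    nq (a, (⟨o, l⟩ : ℂ) / rho (1 / 2 + 1)) = a ^ 2 + (200 / 41) ^ 2 * (o ^ 2 + l ^ 2) := by
  rw [nq, normSq_div, normSq_ofReal, normSq_mk, rho32, rho0]; ring

theorem strict (h : StP0) {R : ℝ} (hR : 1 ≤ R) {p : E × E} (hp : p ∈ Om R) {o : ℝ}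
    (ho : |o| ≤ 1 / 80) {e : ℂ} (ht : tt p = 1 / 2) (a0 : (n0 (1 / 2) o (l0 p) p).1 = -(3 / 4))
    (a2 : (n0 (1 / 2) o (l2 p) p).1 = 1 / 4) (a1 : (n1 (1 / 2) p).1 = -(3 / 4))
    (b1 : rho 0 * ((n1 (1 / 2) p).2 - (n0 (1 / 2) o (l0 p) p).2) + ⟨0, rr p⟩ = 0)
    (b2 : e + -(rho 0 * (n0 (1 / 2) o (l0 p) p).2) + ⟨0, rp p⟩ = 0)
    (he : ‖e‖ ≤ 1 / 200 * ‖(n0 (1 / 2) o (l2 p) p).2‖) : p ∈ Uo R := by
  obtain ⟨o1, o2, o3, o4, o5, o6, o7, o8, o9, o10, o11⟩ := hp
  obtain ⟨c1, c2, c3, c4⟩ := moved h (u := uu p) (z := (1 / 2 + 1 / 4,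
    (⟨o, l0 p⟩ : ℂ) / rho (1 / 2 + 1))) (by rw [← n0, a0]; norm_num)
  obtain ⟨-, d2, -, d4⟩ := moved h (u := uu p) (z := (1 / 2 + 1 / 4,
    (⟨o, l2 p⟩ : ℂ) / rho (1 / 2 + 1))) (by rw [← n0, a2]; norm_num)
  obtain ⟨-, -, f3, f4⟩ := moved h (u := uu p + 1 - 2 * (1 / 2)) (z := (1 / 2 - 3 / 4,
    th (uu p) * ⟨oo p, l1 p⟩ / rho (1 / 2))) (by rw [← n1, a1]; norm_num)
  have c5 := (h.2.2.1 (uu p) (1 / 2 + 1 / 4, (⟨o, l0 p⟩ : ℂ) / rho (1 / 2 + 1))).1
  rw [← n0] at c4 d4 c5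
  rw [← n1] at f4
  rw [← c5, nq, a0, normSq_eq_norm_sq] at c2
  rw [nq_mk] at c3 d2
  have t1 : normSq (th (uu p)) = 1 := by rw [normSq_eq_norm_sq, h.2.2.2.2.2.1]; norm_num
  simp only [nq, map_mul, normSq_div, normSq_ofReal, rhoh, t1, normSq_mk] at f3
  replace f3 : oo p * oo p + l1 p * l1 p < (1 / 80) ^ 2 := by
    norm_num at f3 ⊢; linarith only [f3]
  have o2' : o ^ 2 ≤ (1 / 80) ^ 2 := by rw [← sq_abs]; gcongr
  have nr : ‖(rho 0 : ℂ)‖ = 41 / 200 := by rw [rho0, norm_real]; norm_num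
  have nI : ∀ r : ℝ, 0 ≤ r → ‖(⟨0, r⟩ : ℂ)‖ = r := fun r hr => by
    rw [mk_eq_add_mul_I]; simp [hr]
  have g1 : rr p < 1 := by
    rw [← nI _ o8, eq_neg_of_add_eq_zero_right b1, norm_neg, norm_mul, nr]
    linarith only [norm_sub_le (n1 (1 / 2) p).2 (n0 (1 / 2) o (l0 p) p).2, c4, f4]
  have g2 : rp p < 1 := by
    rw [← nI _ o10, eq_neg_of_add_eq_zero_right b2, norm_neg]
    refine (norm_add_le _ _).trans_lt ?_
    rw [norm_neg, norm_mul, nr]
    linarith only [he, c4, d4]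
  have q1 := mul_self_nonneg (oo p)
  have q2 := mul_self_nonneg (l1 p)
  refine ⟨by rw [ht]; norm_num, c1, abs_lt_of_sq_lt_sq (by rw [sq]; linarith only [f3, q2]) (by norm_num),
    neg_lt_of_abs_lt (abs_lt_of_sq_lt_sq (by linarith only [sq_nonneg o, c3]) (by norm_num)),
    o5.lt_of_ne fun c => ?_, o6.lt_of_ne fun c => ?_,
    abs_lt_of_sq_lt_sq (by rw [sq]; linarith only [f3, q1]) (by norm_num), o8.lt_of_ne fun c => ?_,
    by linarith only [hR, g1], o10.lt_of_ne fun c => ?_, by linarith only [hR, g2]⟩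
  · rw [← c, a0] at a2; norm_num at a2
  · rw [c] at d2; linarith only [d2, o2']
  · rw [← c, show (⟨0, 0⟩ : ℂ) = 0 from rfl, add_zero, mul_eq_zero, sub_eq_zero] at b1
    have e1 : n1 (1 / 2) p = n0 (1 / 2) o (l0 p) p :=
      Prod.ext (a1.trans a0.symm) (b1.resolve_left (by rw [rho0]; norm_num))
    have e2 := congrArg (fun z => (mvi (uu p) z).1) e1
    rw [n1, n0, show uu p + 1 - 2 * (1 / 2) = uu p by ring, (h.2.2.1 _ _).2.2.1,
      (h.2.2.1 _ _).2.2.1] at e2
    norm_num at e2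
  · rw [← c, show (⟨0, 0⟩ : ℂ) = 0 from rfl, add_zero, add_neg_eq_zero] at b2
    rw [b2, norm_mul, nr] at he
    have : ‖(n0 (1 / 2) o (l0 p) p).2‖ ^ 2 ≤ (1 / 40) ^ 2 := by gcongr; linarith only [he, d4]
    linarith only [c2, this]

theorem cSg (h : StP0) {X : Type} [TopologicalSpace X] {t o : X → ℝ} {p : X → E × E}
    (ht : Continuous t) (ho : Continuous o) (hp : Continuous p) :
    Continuous fun x => Sg (t x) (o x) (p x) := by
  have cr : Continuous rho := h.2.2.2.2.2.2.2.2.2.2.2.2.continuous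
  have ct : Continuous th := h.2.2.2.2.2.2.1
  have r0 : ∀ s, (rho s : ℂ) ≠ 0 := fun s =>
    ofReal_ne_zero.2 (by linarith [h.2.2.2.2.2.2.2.2.2.2.2.1 s])
  have c0 : ∀ l : E × E → ℝ, Continuous l → Continuous fun x => n0 (t x) (o x) (l (p x)) (p x) :=
    fun l hl => cmv h (by fun_prop) (Continuous.prodMk (by fun_prop)
      (Continuous.div (by fun_prop) (by fun_prop) fun _ => r0 _))
  have c1 : Continuous fun x => n1 (t x) (p x) := cmv h (by fun_prop)
    (Continuous.prodMk (by fun_prop) (Continuous.div (by fun_prop) (by fun_prop) fun _ => r0 _))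
  have a := c0 l0 c_l0
  have b := c0 l2 c_l2
  exact (cM ((continuous_const.mul (c1.snd.sub a.snd)).add (by fun_prop))
    (cC (c1.fst.sub a.fst) (by fun_prop))).prodMk
    (cM ((continuous_const.mul a.snd).neg.add (by fun_prop))
    (cC ((b.fst.sub a.fst).sub continuous_const) (continuous_const.mul (a.fst.add continuous_const))))

theorem nrm {o l : ℝ} (ho : |o| ≤ 1 / 80) (h1 : -(1 / 8) ≤ l) (h2 : l ≤ -(1 / 80)) :
    1 / 80 ≤ ‖(⟨o, l⟩ : ℂ)‖ ∧ ‖(⟨o, l⟩ : ℂ)‖ ≤ 1 / 4 := by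
  have a := abs_im_le_norm ⟨o, l⟩
  have b := norm_le_abs_re_add_abs_im ⟨o, l⟩
  simp only [abs_of_nonpos (show l ≤ 0 by linarith only [h2])] at a b
  constructor <;> linarith only [h2, a, ho, h1, b]

theorem nrm1 {o l : ℝ} (ho : |o| ≤ 1 / 80) (hl : |l| ≤ 1 / 80) : ‖(⟨o, l⟩ : ℂ)‖ ≤ 1 / 50 := by
  refine le_of_pow_le_pow_left₀ two_ne_zero (by norm_num) ?_
  rw [← normSq_eq_norm_sq, normSq_mk, ← sq, ← sq, ← sq_abs o, ← sq_abs l]
  have a : |o| ^ 2 ≤ (1 / 80) ^ 2 := by gcongr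
  have b : |l| ^ 2 ≤ (1 / 80) ^ 2 := by gcongr
  linarith only [a, b]

end B3a6

open B3a6 in
theorem thB3a (hH : StHR) (h : StP0) (h3 : StP3) (h4 : StP4) : StB3a := by
  intro R hR
  obtain ⟨tr, sg⟩ := hH (E × E) (E × E) (Om R) (Uo R)
  have cp : Continuous phi := h3.1.smooth.continuous
  have cg : Continuous gam := by unfold gam; fun_prop
  refine tr _ (fun p => Sg (tt p) (oo p) p) _ (sg _ _ (Continuous.continuousOn (by
    unfold Fneg; fun_prop)) (cSg h c_tt c_oo continuous_id).continuousOn fun s hs p hp e => ?_)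
    ⟨fun x => Sg ((1 - x.1) * tt x.2 + x.1 / 2) ((1 - x.1) * oo x.2) x.2,
      (cSg h (by fun_prop) (by fun_prop) continuous_snd).continuousOn, fun p _ => by simp,
      fun p _ => ?_, fun s hs p hp e => ?_⟩
  · obtain ⟨o1, o2, o3, o4, o5, o6, o7, -⟩ := id hp
    have s0 : 0 ≤ (p.2 0).re := by unfold l0 l2 at o5; linarith only [o5]
    have s1 : (p.2 0).re ≤ 1 / 8 := by unfold l0 at o4; unfold l2 at o6; linarith only [o4, o6]
    have hg : gam (p.2 0).re = mk ⟨0, 6 * (p.2 0).re⟩ 0 := by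
      rw [gam, min_eq_left (a := 3 * (p.2 0).re) (by linarith only [s1]), min_eq_right (by linarith only [s1]),
        max_eq_left ((min_le_right _ _).trans (by linarith only [s1]))]
      congr 2; ring
    set y2 := p.1 + gam (p.2 0).re with hy2
    set y1 := y2 + mk ⟨0, -2 * (p.2 0).im⟩ 0 with hy1
    have x0 : p.1 0 = ⟨oo p, l0 p⟩ := rfl
    have x2 : y2 0 = ⟨oo p, l2 p⟩ := by rw [hy2, hg]; apply Complex.ext <;> simp [mk, oo, l2]
    have x2' : y2 1 = p.1 1 := by rw [hy2, hg]; simp [mk]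
    have x1 : y1 0 = ⟨oo p, l1 p⟩ := by
      rw [hy1, PiLp.add_apply, x2]; apply Complex.ext <;> simp only [l2, Fin.isValue, mk, neg_mul, Matrix.cons_val_zero, add_re, add_zero, add_im, l1]; ring
    have x1' : y1 1 = p.1 1 := by rw [hy1, PiLp.add_apply, x2']; simp [mk]
    have hu : (p.1 1).im = uu p + Kf (tt p + 1) := by unfold uu tt; ring
    have m0' := nrm o3 o4 (o5.trans o6)
    have m2' := nrm o3 (o4.trans o5) o6
    obtain ⟨a1, a2, -, a4⟩ := (h4 p.1 _ _ rfl hu o1 o2).1 (n0 (tt p) (oo p) (l0 p) p) rfl m0'.1 m0'.2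
    obtain ⟨b1, b2, b3, -⟩ := (h4 y2 _ _ (by rw [x2']; rfl) (by rw [x2', hu]) o1 o2).1
      (n0 (tt p) (oo p) (l2 p) p) (by rw [x2]; rfl) (x2 ▸ m2'.1) (x2 ▸ m2'.2)
    obtain ⟨c1, c2, c4⟩ := (h4 y1 _ _ (by rw [x1']; rfl) (by rw [x1', hu]) o1 o2).2
      (n1 (tt p) p) (by rw [x1]; rfl) (x1 ▸ nrm1 o3 o7)
    have e1 := congrArg (fun q : E × E => q.1 0) e
    have e2 := congrArg (fun q : E × E => (q.1 1).re) e
    have e3 := congrArg (fun q : E × E => (q.1 1).im) e
    have e4 := congrArg (fun q : E × E => q.2 0) e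
    have e5 := congrArg (fun q : E × E => (q.2 1).re) e
    have e6 := congrArg (fun q : E × E => (q.2 1).im) e
    simp only [Fneg, ← hy2, ← hy1] at e1 e2 e3 e4 e5 e6
    simp only [Sg, mk, va, vb, Prod.fst_add, Prod.snd_add, Prod.smul_fst,
      Prod.smul_snd, PiLp.add_apply, PiLp.sub_apply, PiLp.smul_apply, Matrix.cons_val_zero,
      Matrix.cons_val_one, Prod.fst_zero, Prod.snd_zero, PiLp.zero_apply, add_re, add_im, sub_re,
      sub_im, zero_re, zero_im, one_re, one_im, I_re, I_im,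
      a1, a2, b1, b2, c1, c2, real_smul, mul_re, mul_im, ofReal_re, ofReal_im] at e1 e2 e3 e4 e5 e6
    have f1 : (n1 (tt p) p).1 = (n0 (tt p) (oo p) (l0 p) p).1 := by linarith only [e2]
    have f2 : (n0 (tt p) (oo p) (l2 p) p).1 = (n0 (tt p) (oo p) (l0 p) p).1 + 1 := by linarith only [e5]
    rw [f1] at e3
    rw [f2] at e6
    have f3 : tt p = 1 / 2 := by linarith only [e3]
    have f4 : (n0 (tt p) (oo p) (l0 p) p).1 = -(3 / 4) := by unfold Kf at e6; linarith only [e6]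
    rw [a4 f4] at e1 e4
    rw [c4 (f1.trans f4)] at e1
    have f5 : (n0 (tt p) (oo p) (l2 p) p).1 = 1 / 4 := by linarith only [e5, f4]
    rw [f5, rho1] at b3
    rw [f3] at f1 f4 f5 e1 e4 b3
    refine strict h hR hp o3 (e := (1 - s : ℝ) * phi y2 0) f3 f4 f5 (f1.trans f4) ?_ ?_ ?_
    · push_cast at e1; unfold rr at e1 ⊢; linear_combination e1
    · push_cast at e4 ⊢; unfold rp at e4 ⊢; linear_combination e4
    · rw [norm_mul, ← b3, norm_real, Real.norm_of_nonneg (by linarith only [hs.2])]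
      exact mul_le_of_le_one_left (norm_nonneg _) (by linarith only [hs.1])
  · have e0 : ∀ l, n0 (1 / 2) 0 l p = mv (uu p) (3 / 4, (⟨0, l⟩ : ℂ) / rho 0) := fun l => by
      rw [n0, rho32]; norm_num
    have e1 : n1 (1 / 2) p = m1 p := by rw [n1, m1]; congr 1 <;> norm_num
    simp only [sub_self, zero_mul, zero_add, Sg, e0, e1]
    rfl
  · obtain ⟨e1, e2⟩ := mk_zero (congrArg Prod.fst e)
    obtain ⟨e3, e4⟩ := mk_zero (congrArg Prod.snd e)
    have f2 : 1 - 2 * tt p = 0 := congrArg im e2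
    have f3 : tt p = 1 / 2 := by linarith only [f2]
    have f4 : (1 - s) * tt p + s / 2 = 1 / 2 := by rw [f3]; ring
    simp only [f4] at e1 e2 e3 e4
    have g1 := congrArg re e2
    have g2 := congrArg re e4
    have g3 := congrArg im e4
    simp only [zero_re, zero_im] at g1 g2 g3
    refine strict h hR hp (o := (1 - s) * oo p) ?_ (e := 0) f3 (by linarith only [g3]) (by linarith only [g2, g3])
      (by linarith only [g1, g3]) e1 (by rw [zero_add]; exact e3) (by rw [norm_zero]; positivity)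
    rw [abs_mul, abs_of_nonneg (by linarith only [hs.2] : 0 ≤ 1 - s)]
    exact (mul_le_of_le_one_left (abs_nonneg _) (by linarith only [hs.1])).trans hp.2.2.1

end

end Pool.Agent.MP_be5fd0_gt.T

namespace Pool.Agent.MP_be5fd0_gt.T

open Complex Filter Topology Set Metric MeasureTheory
open scoped ContDiff BoundedContinuousFunction

section

attribute [local irreducible] mv mvi th rho

namespace B3b6

section
variable {X : Type} [TopologicalSpace X]

@[fun_prop] theorem cC {f g : X → ℝ} (hf : Continuous f) (hg : Continuous g) :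
    Continuous fun x => (⟨f x, g x⟩ : ℂ) := by
  simp only [Complex.mk_eq_add_mul_I]; fun_prop

@[fun_prop] theorem cM {f g : X → ℂ} (hf : Continuous f) (hg : Continuous g) :
    Continuous fun x => mk (f x) (g x) := by
  unfold mk
  refine (PiLp.continuous_toLp 2 _).comp (continuous_pi fun i => ?_)
  fin_cases i
  · exact hf
  · exact hg

theorem cmv (h : StP0) {f : X → ℝ} {g : X → ℝ × ℂ} (hf : Continuous f) (hg : Continuous g) :
    Continuous fun x => mv (f x) (g x) := h.1.continuous.comp (hf.prodMk hg)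

theorem cmi (h : StP0) {f : X → ℝ} {g : X → ℝ × ℂ} (hf : Continuous f) (hg : Continuous g) :
    Continuous fun x => mvi (f x) (g x) := h.2.1.continuous.comp (hf.prodMk hg)

end

@[fun_prop] theorem c_tt : Continuous tt := by unfold tt; fun_prop
@[fun_prop] theorem c_uu : Continuous uu := by unfold uu Kf; fun_prop
@[fun_prop] theorem c_oo : Continuous oo := by unfold oo; fun_prop
@[fun_prop] theorem c_l0 : Continuous l0 := by unfold l0; fun_prop
@[fun_prop] theorem c_l1 : Continuous l1 := by unfold l1; fun_prop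
@[fun_prop] theorem c_l2 : Continuous l2 := by unfold l2; fun_prop
@[fun_prop] theorem c_rr : Continuous rr := by unfold rr; fun_prop
@[fun_prop] theorem c_rp : Continuous rp := by unfold rp; fun_prop

theorem rho0 : rho 0 = 41 / 200 := by norm_num [rho]
theorem rhoh : rho (1 / 2) = 1 / 200 := by norm_num [rho]

theorem mk_zero {a b : ℂ} (h : mk a b = 0) : a = 0 ∧ b = 0 :=
  ⟨by simpa [mk] using congrArg (· 0) h, by simpa [mk] using congrArg (· 1) h⟩

noncomputable def Sy (a : ℂ) (b g : ℝ) (p : E × E) : E × E :=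
  (mk a ⟨b, 1 - 2 * tt p⟩,
   mk (-(rho 0 * (m0 p).2) + ⟨0, rp p⟩) ⟨g, -2 * ((m0 p).1 + 3 / 4)⟩)

theorem nq_im (a l : ℝ) : nq (a, (⟨0, l⟩ : ℂ) / rho 0) = a ^ 2 + (200 / 41 * l) ^ 2 := by
  rw [nq, normSq_div, normSq_ofReal, normSq_mk, rho0]; ring

/-- consequences of the common equations -/
structure Cm (p : E × E) : Prop where
  e1 : (m0 p).1 = -(3 / 4)
  e2 : (m0 p).2 = (⟨0, rp p⟩ : ℂ) / rho 0
  lt : rp p < 1 / 8
  l : l0 p < -(1 / 40)

theorem hr (h : StP0) {R : ℝ} (hR : 1 ≤ R) {a : ℝ → E × E → ℂ} {b g : ℝ → E × E → ℝ}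
    (ha : Continuous fun x : ℝ × E × E => a x.1 x.2)
    (hb : Continuous fun x : ℝ × E × E => b x.1 x.2)
    (hg : Continuous fun x : ℝ × E × E => g x.1 x.2)
    (h1 : ∀ t ∈ Icc (0 : ℝ) 1, ∀ p ∈ Om R, Cm p → a t p = 0 → b t p = 0 →
      normSq ⟨oo p, l1 p⟩ < (1 / 80) ^ 2 ∧ rr p ≠ 0 ∧ rr p ≠ R)
    (h2 : ∀ t ∈ Icc (0 : ℝ) 1, ∀ p ∈ Om R, Cm p → g t p = 0 → l0 p ≠ l2 p ∧ l2 p ≠ -(1 / 80)) :
    HR (Om R) (Uo R) (fun p => Sy (a 0 p) (b 0 p) (g 0 p) p)
      (fun p => Sy (a 1 p) (b 1 p) (g 1 p) p) := by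
  have c0 : Continuous m0 := cmv h c_uu (by fun_prop)
  refine ⟨fun x => Sy (a x.1 x.2) (b x.1 x.2) (g x.1 x.2) x.2,
    Continuous.continuousOn (by unfold Sy; fun_prop), fun _ _ => rfl, fun _ _ => rfl,
    fun t ht p hp e => ?_⟩
  obtain ⟨e1, e2⟩ := mk_zero (congrArg Prod.fst e)
  obtain ⟨e3, e4⟩ := mk_zero (congrArg Prod.snd e)
  have f1 : b t p = 0 := congrArg re e2
  have f2 : 1 - 2 * tt p = 0 := congrArg im e2
  have f3 : g t p = 0 := congrArg re e4
  have f4 : -2 * ((m0 p).1 + 3 / 4) = 0 := congrArg im e4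
  have f5 : (m0 p).1 = -(3 / 4) := by linarith only [f4]
  have f6 : (m0 p).2 = (⟨0, rp p⟩ : ℂ) / rho 0 := by
    rw [eq_div_iff (by rw [rho0]; norm_num)]; linear_combination -e3
  obtain ⟨o1, o2, o3, o4, o5, o6, o7, o8, o9, o10, o11⟩ := id hp
  have n1 : ¬ (1 / 100 ≤ |uu p| ∨ 81 / 100 ≤ nq (3 / 4, (⟨0, l0 p⟩ : ℂ) / rho 0)) := fun c => by
    have := congrArg Prod.fst (h.2.2.2.1 _ _ c).1
    change (m0 p).1 = 3 / 4 at this
    linarith only [f4, this]
  have n2 : ¬ nq (3 / 4, (⟨0, l0 p⟩ : ℂ) / rho 0) ≤ 64 / 100 := fun c => by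
    have := congrArg Prod.fst (h.2.2.2.2.1 (uu p) _ c).1
    change (m0 p).1 = 3 / 4 at this
    linarith only [f4, this]
  have n3 : nq (-(3 / 4), (⟨0, rp p⟩ : ℂ) / rho 0) = nq (3 / 4, (⟨0, l0 p⟩ : ℂ) / rho 0) := by
    rw [← f5, ← f6]; exact (h.2.2.1 _ _).1
  rw [not_or, not_le, not_le] at n1
  simp only [nq_im, not_le] at n1 n2 n3
  have n4 : rp p = -l0 p := by
    refine (pow_left_inj₀ o10 (by linarith only [o5, o6]) two_ne_zero).1 (by linarith only [n3])
  have n5 : -(1 / 8) < l0 p := by nlinarith only [n1.2]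
  have n6 : l0 p < -(1 / 40) := by nlinarith only [o5, o6, n2]
  have cm : Cm p := ⟨f5, f6, by linarith only [n4, n5], n6⟩
  obtain ⟨a1, a2, a3⟩ := h1 t ht p hp cm e1 f1
  obtain ⟨a4, a5⟩ := h2 t ht p hp cm f3
  rw [normSq_mk] at a1
  refine ⟨by rw [show tt p - 1 / 2 = 0 by linarith only [f2]]; norm_num, n1.1,
    abs_lt_of_sq_lt_sq (by linarith only [mul_self_nonneg (l1 p), a1]) (by norm_num), n5, o5.lt_of_ne a4,
    o6.lt_of_ne a5, abs_lt_of_sq_lt_sq (by linarith only [mul_self_nonneg (oo p), a1]) (by norm_num),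
    o8.lt_of_ne a2.symm, o9.lt_of_ne a3, by linarith only [n4, n6], by linarith only [hR, n4, n5]⟩

noncomputable def Yy (p : E × E) : ℝ × ℂ := ((m0 p).1, (m0 p).2 - (⟨0, rr p⟩ : ℂ) / rho 0)
noncomputable def Ww (p : E × E) : ℝ × ℂ := mvi (uu p) (Yy p)
noncomputable def z1 (p : E × E) : ℝ × ℂ := (-(1 / 4), th (uu p) * ⟨oo p, l1 p⟩ / rho (1 / 2))
noncomputable def g0 (p : E × E) : ℝ := (m2 p).1 - (m0 p).1 - 1

theorem W0 (h : StP0) {p : E × E} (e : rr p = 0) : (Ww p).1 = 3 / 4 := by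
  have : Yy p = m0 p := by
    rw [Yy, e]; exact Prod.ext rfl (by apply Complex.ext <;> simp)
  rw [Ww, this, m0, (h.2.2.1 _ _).2.2.1]

theorem W1 (h : StP0) {p : E × E} (c : Cm p) (e : 81 / 100 ≤ nq (Yy p)) :
    (Ww p).1 = -(3 / 4) := by
  rw [Ww, (h.2.2.2.1 _ _ (Or.inr e)).2]; exact c.e1

theorem WR (h : StP0) {p : E × E} (c : Cm p) (e : 1 ≤ rr p) : (Ww p).1 = -(3 / 4) := by
  refine W1 h c ?_
  have : Yy p = (-(3 / 4), (⟨0, rp p - rr p⟩ : ℂ) / rho 0) := by
    rw [Yy, c.e1, c.e2, ← sub_div]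
    congr 2
    apply Complex.ext <;> simp
  rw [this, nq_im]
  nlinarith only [c.lt, e]

theorem small (h : StP0) {p : E × E} (c : Cm p) {R s : ℝ} (hR : 1 ≤ R) (hs : s ∈ Icc (0 : ℝ) 1)
    (e1 : (Ww p).1 = -(1 / 4)) (e2 : (z1 p).2 = s * (Ww p).2) :
    normSq ⟨oo p, l1 p⟩ < (1 / 80) ^ 2 ∧ rr p ≠ 0 ∧ rr p ≠ R := by
  refine ⟨?_, fun e => by linarith [W0 h e], fun e => by linarith only [WR h c (e ▸ hR), e1]⟩
  have a : nq (Ww p) < 81 / 100 := by
    rw [Ww, (h.2.2.1 _ _).2.1]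
    exact not_le.1 fun e => by linarith only [W1 h c e, e1]
  have b := congrArg normSq e2
  have t : normSq (th (uu p)) = 1 := by rw [normSq_eq_norm_sq, h.2.2.2.2.2.1]; norm_num
  simp only [z1, map_mul, normSq_div, normSq_ofReal, rhoh, t] at b
  rw [nq] at a
  have n := normSq_nonneg (Ww p).2
  have : s * s * normSq (Ww p).2 ≤ normSq (Ww p).2 :=
    mul_le_of_le_one_left n (mul_le_one₀ hs.2 hs.1 hs.2)
  have q := sq_nonneg (Ww p).1
  norm_num at b ⊢
  linarith only [a, this, q, b]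

theorem seg_neg {t a b : ℝ} (ht : t ∈ Icc (0 : ℝ) 1) (ha : a < 0) (hb : b < 0) :
    (1 - t) * a + t * b ≠ 0 := by
  rcases ht.1.eq_or_lt with rfl | h
  · simpa using ha.ne
  · linarith only [ht.2, mul_pos h (neg_pos.2 hb), mul_nonneg (sub_nonneg.2 ht.2) (neg_pos.2 ha).le]

theorem seg_pos {t a b : ℝ} (ht : t ∈ Icc (0 : ℝ) 1) (ha : 0 < a) (hb : 0 < b) :
    (1 - t) * a + t * b ≠ 0 := fun e =>
  seg_neg ht (neg_neg_of_pos ha) (neg_neg_of_pos hb) (by linarith)

theorem gseg (h : StP0) {p : E × E} (c : Cm p) {t : ℝ} (ht : t ∈ Icc (0 : ℝ) 1)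
    (e : (1 - t) * g0 p + t * (l2 p + 1 / 40) = 0) : l0 p ≠ l2 p ∧ l2 p ≠ -(1 / 80) := by
  refine ⟨fun a => seg_neg ht ?_ (by linarith only [c.l, a]) e, fun a => seg_pos ht ?_ (by linarith only [a]) e⟩
  · rw [g0, m2, ← a]; change (m0 p).1 - _ - 1 < 0; linarith only []
  · rw [g0, m2, (h.2.2.2.2.1 _ _ (by rw [nq_im, a]; norm_num)).1, c.e1]; norm_num

end B3b6

open B3b6 in
theorem thB3b (hH : StHR) (h : StP0) : StB3b := by
  intro R hR
  have c0 : Continuous m0 := cmv h c_uu (by fun_prop)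
  have c2 : Continuous m2 := cmv h c_uu (by fun_prop)
  have ct : Continuous th := h.2.2.2.2.2.2.1
  have cW : Continuous Ww := cmi h c_uu (by unfold Yy; fun_prop)
  have cz : Continuous z1 := by unfold z1; fun_prop
  have cg : Continuous g0 := by unfold g0; fun_prop
  have r0 : (rho 0 : ℂ) ≠ 0 := by rw [rho0]; norm_num
  have cA : Continuous fun x : ℝ × E × E => mv ((1 - x.1) * uu x.2 + x.1 / 100) (z1 x.2) :=
    cmv h (by fun_prop) (by fun_prop)
  have cB : Continuous fun x : ℝ × E × E => mv ((1 - x.1) * uu x.2 + x.1 / 100) (Ww x.2) :=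
    cmv h (by fun_prop) (by fun_prop)
  have g00 : ∀ t ∈ Icc (0 : ℝ) 1, ∀ p ∈ Om R, Cm p → g0 p = 0 → l0 p ≠ l2 p ∧ l2 p ≠ -(1 / 80) :=
    fun t _ p _ c e => gseg h c (t := 0) ⟨le_rfl, zero_le_one⟩ (by simpa using e)
  have s1 := hr h hR
    (a := fun t p => rho 0 * ((mv ((1 - t) * uu p + t / 100) (z1 p)).2 -
      (mv ((1 - t) * uu p + t / 100) (Ww p)).2))
    (b := fun t p => (mv ((1 - t) * uu p + t / 100) (z1 p)).1 -
      (mv ((1 - t) * uu p + t / 100) (Ww p)).1) (g := fun _ p => g0 p)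
    (continuous_const.mul (cA.snd.sub cB.snd)) (cA.fst.sub cB.fst) (by fun_prop)
    (fun t _ p _ c e1 e2 => by
      have e : z1 p = Ww p := by
        rw [← (h.2.2.1 ((1 - t) * uu p + t / 100) (z1 p)).2.2.1,
          Prod.ext (sub_eq_zero.1 e2) (sub_eq_zero.1 ((mul_eq_zero.1 e1).resolve_left r0)),
          (h.2.2.1 _ _).2.2.1]
      exact small h c hR (s := 1) ⟨zero_le_one, le_rfl⟩ (by rw [← e]; rfl) (by simp [e])) g00
  have s2 := hr h hR (a := fun t p => rho 0 * ((z1 p).2 - (1 - t : ℝ) * (Ww p).2))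
    (b := fun _ p => -(1 / 4) - (Ww p).1) (g := fun _ p => g0 p) (by fun_prop) (by fun_prop)
    (by fun_prop) (fun t ht p _ c e1 e2 => small h c hR (s := 1 - t)
      ⟨by linarith only [ht.2], by linarith only [ht.1]⟩ (by linarith)
      (sub_eq_zero.1 ((mul_eq_zero.1 e1).resolve_left r0))) g00
  have s3 := hr h hR
    (a := fun t p => ((1 - t) * 41 + t * 1 : ℝ) * th ((1 - t) * uu p + t / 100) * ⟨oo p, l1 p⟩)
    (b := fun t p => (1 - t) * (-(1 / 4) - (Ww p).1) + t * (rr p - 1 / 2))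
    (g := fun t p => (1 - t) * g0 p + t * (l2 p + 1 / 40)) (by fun_prop) (by fun_prop)
    (by fun_prop) (fun t ht p _ c e1 e2 => by
      refine ⟨?_, fun e => seg_neg ht (by linarith only [W0 h e]) (by linarith only [e]) e2,
        fun e => seg_pos ht (by linarith only [WR h c (e ▸ hR)]) (by linarith only [hR, e]) e2⟩
      have n1 := ofReal_ne_zero.2 (seg_pos ht (a := 41) (b := 1) (by norm_num) one_pos)
      have n2 : th ((1 - t) * uu p + t / 100) ≠ 0 := by
        rw [← norm_ne_zero_iff, h.2.2.2.2.2.1]; exact one_ne_zero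
      rw [(mul_eq_zero.1 e1).resolve_left (mul_ne_zero n1 n2)]
      norm_num) fun t ht p _ c e => gseg h c ht e
  have id1 : ∀ z, mv (1 / 100) z = z := fun z => (h.2.2.2.1 _ z (Or.inl (le_abs_self _))).1
  have th1 : th (1 / 100) = 1 := by
    rw [th, h.2.2.2.2.2.2.2.2.2.1.2.2.2.2.2.2 _ le_rfl]
    apply Complex.ext <;> simp [pow_two]
  have tr := (hH (E × E) (E × E) (Om R) (Uo R)).1
  have e0 : ∀ p, mv (uu p) (Ww p) = Yy p := fun p => (h.2.2.1 _ _).2.2.2
  simp only [sub_zero, sub_self, one_mul, zero_mul, zero_div, add_zero, zero_add, id1, th1, e0,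
    ofReal_one, ofReal_zero, mul_one] at s1 s2 s3
  have e3 : ∀ p, (rho 0 : ℂ) * (z1 p).2 = (41 : ℝ) * th (uu p) * ⟨oo p, l1 p⟩ := fun p => by
    simp only [z1, rho0, rhoh]; push_cast; ring
  simp only [e3] at s2
  have e4 : Sys1 = fun p => B3b6.Sy (rho 0 * ((mv (uu p) (z1 p)).2 - (Yy p).2))
      ((mv (uu p) (z1 p)).1 - (Yy p).1) (g0 p) p := funext fun p => by
    have : rho 0 * ((m1 p).2 - (m0 p).2) + ⟨0, rr p⟩ =
        rho 0 * ((mv (uu p) (z1 p)).2 - (Yy p).2) := by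
      change _ = rho 0 * ((m1 p).2 - ((m0 p).2 - _ / _))
      field_simp
      ring
    rw [Sys1, this]
    rfl
  rw [e4]
  exact tr _ _ _ s1 (tr _ _ _ s2 s3)

end

end Pool.Agent.MP_be5fd0_gt.T

namespace Pool.Agent.MP_be5fd0_gt.T

open Complex Filter Topology Set Metric MeasureTheory
open scoped ContDiff BoundedContinuousFunction

noncomputable section

namespace B3c5'

theorem mk0 (a b : ℂ) : mk a b 0 = a := rfl
theorem mk1 (a b : ℂ) : mk a b 1 = b := rfl

theorem cmk {X : Type} [TopologicalSpace X] {f g : X → ℝ} (hf : Continuous f)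
    (hg : Continuous g) : Continuous fun x => (⟨f x, g x⟩ : ℂ) :=
  Complex.equivRealProdCLM.symm.continuous.comp (hf.prodMk hg)

theorem emk {X : Type} [TopologicalSpace X] {f g : X → ℂ} (hf : Continuous f)
    (hg : Continuous g) : Continuous fun x => mk (f x) (g x) := by
  refine (PiLp.continuous_toLp 2 _).comp (continuous_pi fun i => ?_)
  fin_cases i
  exacts [hf, hg]

theorem ctt : Continuous tt := by unfold tt; fun_prop
theorem cvv : Continuous vv := by unfold vv; fun_prop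
theorem cuu : Continuous uu := by unfold uu Kf; fun_prop
theorem coo : Continuous oo := by unfold oo; fun_prop
theorem cl0 : Continuous l0 := by unfold l0; fun_prop
theorem cl1 : Continuous l1 := by unfold l1; fun_prop
theorem cl2 : Continuous l2 := by unfold l2; fun_prop
theorem crr : Continuous rr := by unfold rr; fun_prop
theorem crp : Continuous rp := by unfold rp; fun_prop

def S (a b c : E × E → ℝ) (p : E × E) : E × E :=
  (mk ⟨oo p, l1 p⟩ ⟨rr p - 1 / 2, 1 - 2 * tt p⟩, mk ⟨a p, b p⟩ ⟨l2 p + 1 / 40, c p⟩)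

theorem cS {a b c : E × E → ℝ} (ha : Continuous a) (hb : Continuous b) (hc : Continuous c) :
    Continuous (S a b c) :=
  (emk (cmk coo cl1) (cmk (crr.sub continuous_const)
    (continuous_const.sub (continuous_const.mul ctt)))).prodMk
    (emk (cmk ha hb) (cmk (cl2.add continuous_const) hc))

theorem step (hHR : StHR) {R : ℝ} (hR : 1 ≤ R) {a b c a' b' c' : E × E → ℝ} (ha : Continuous a)
    (hb : Continuous b) (hc : Continuous c) (ha' : Continuous a') (hb' : Continuous b')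
    (hc' : Continuous c')
    (h : ∀ t : ℝ, 0 ≤ t → t ≤ 1 → ∀ p, vv p - 3 / 4 = uu p → |uu p| ≤ 1 / 100 →
      -(1 / 8) ≤ l0 p → l0 p ≤ -(1 / 40) → 0 ≤ rp p → (1 - t) * a p + t * a' p = 0 →
      (1 - t) * b p + t * b' p = 0 → (1 - t) * c p + t * c' p = 0 →
      (|uu p| < 1 / 100 ∧ -(1 / 8) < l0 p ∧ l0 p < -(1 / 40)) ∧ 0 < rp p ∧ rp p < 1) :
    HR (Om R) (Uo R) (S a b c) (S a' b' c') := by
  refine (hHR _ _ _ _).2 _ _ (cS ha hb hc).continuousOn (cS ha' hb' hc').continuousOn ?_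
  intro t ht p hp hz
  obtain ⟨-, p2, -, p4, p5, -, -, -, -, p10, -⟩ := hp
  have e1 := congrArg (fun q : E × E => (q.1 0).re) hz
  have e2 := congrArg (fun q : E × E => (q.1 0).im) hz
  have e3 := congrArg (fun q : E × E => (q.1 1).re) hz
  have e4 := congrArg (fun q : E × E => (q.1 1).im) hz
  have e5 := congrArg (fun q : E × E => (q.2 0).re) hz
  have e6 := congrArg (fun q : E × E => (q.2 0).im) hz
  have e7 := congrArg (fun q : E × E => (q.2 1).re) hz
  have e8 := congrArg (fun q : E × E => (q.2 1).im) hz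
  simp only [S, Prod.fst_add, Prod.snd_add, Prod.smul_fst, Prod.smul_snd, PiLp.add_apply,
    PiLp.smul_apply, mk0, mk1, add_re, add_im, smul_re, smul_im, smul_eq_mul, Prod.fst_zero,
    Prod.snd_zero, PiLp.zero_apply, zero_re, zero_im] at e1 e2 e3 e4 e5 e6 e7 e8
  have f1 : oo p = 0 := by linear_combination e1
  have f2 : l1 p = 0 := by linear_combination e2
  have f3 : rr p = 1 / 2 := by linear_combination e3
  have f4 : tt p = 1 / 2 := by linear_combination (-1 / 2) * e4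
  have f7 : l2 p = -(1 / 40) := by linear_combination e7
  have f8 : vv p - 3 / 4 = uu p := by
    have : (p.1 1).re = 1 / 2 := f4
    rw [uu, vv, this, Kf]; norm_num
  obtain ⟨⟨g1, g2, g3⟩, g4, g5⟩ := h t ht.1 ht.2 p f8 p2 p4 (f7 ▸ p5) p10 e5 e6 e8
  refine ⟨?_, g1, ?_, g2, ?_, ?_, ?_, ?_, ?_, g4, ?_⟩
  · rw [f4]; norm_num
  · rw [f1]; norm_num
  · exact f7 ▸ g3
  · rw [f7]; norm_num
  · rw [f2]; norm_num
  · rw [f3]; norm_num
  · linarith only [f3, hR]
  · exact g5.trans_le hR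

def zt (p : E × E) : ℝ := l0 p * (200 / 41)
def ang (p : E × E) : ℝ := ps (9 / 16 + zt p ^ 2)
def w (p : E × E) : ℝ := qw (om (uu p)) (ang p)
def x (p : E × E) : ℝ := qx (om (uu p)) (ang p)
def y (p : E × E) : ℝ := qy (om (uu p)) (ang p)
def e1 (p : E × E) : ℝ := 41 / 100 * (x p * (w p * zt p - 3 / 4 * y p))
def e2 (p : E × E) : ℝ :=
  rp p + 41 / 200 * (3 / 2 * (y p * w p) - (1 - 2 * x p ^ 2 - 2 * y p ^ 2) * zt p)
def e3 (p : E × E) : ℝ := -4 * (3 / 4 * (1 - y p ^ 2) + y p * w p * zt p)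

theorem rho0 : rho 0 = 41 / 200 := by rw [rho]; norm_num

theorem m0_eq (p : E × E) : m0 p = rot (w p) (x p) (y p) (3 / 4, ⟨0, zt p⟩) := by
  have h1 : (⟨0, l0 p⟩ : ℂ) / rho 0 = ⟨0, zt p⟩ := by
    rw [rho0, div_eq_iff (by norm_num)]
    apply Complex.ext <;> simp [zt]
    ring
  have h2 : nq (3 / 4, (⟨0, zt p⟩ : ℂ)) = 9 / 16 + zt p ^ 2 := by
    rw [nq, normSq_mk]; ring
  rw [m0, h1, mv, h2]
  rfl

theorem sys2 : Sys2 = S e1 e2 e3 := by
  funext p
  rw [Sys2, S, m0_eq, rho0]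
  congr 2
  · apply Complex.ext
    · simp only [ofReal_div, ofReal_ofNat, rot, mul_zero, add_zero, add_re, neg_re, mul_re, div_ofNat_re, re_ofNat, div_ofNat_im, im_ofNat, zero_div, zero_mul, sub_zero, e1]; ring
    · simp only [ofReal_div, ofReal_ofNat, rot, mul_zero, add_zero, add_im, neg_im, mul_im, div_ofNat_re, re_ofNat, div_ofNat_im, im_ofNat, zero_div, zero_mul, e2]; ring
  · congr 1
    simp only [rot, e3]; ring

theorem sys3 : Sys3 =
    S (fun p => vv p - 3 / 4) (fun p => rp p - 1 / 2) fun p => -(l0 p + 1 / 16) := rfl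

structure Fa (p : E × E) : Prop where
  unit : w p ^ 2 + x p ^ 2 + y p ^ 2 = 1
  y0 : 0 ≤ y p
  fu : |uu p| = 1 / 100 → w p = 1
  fl : l0 p = -(1 / 8) → w p = 1
  fr : l0 p = -(1 / 40) → y p = 0 ∧ (uu p = 0 → w p = -1)
  xu : x p * uu p ≤ 0

theorem fa (hP0 : StP0) (p : E × E) : Fa p := by
  obtain ⟨-, -, -, -, -, -, -, hu, -, ⟨-, o0, o1, o2, o3, o4, o5⟩, ⟨-, s1, s2, s3⟩, -⟩ := hP0
  have hs : 0 ≤ Real.sin (ang p) :=
    Real.sin_nonneg_of_nonneg_of_le_pi (s1 _).1
      (le_trans (s1 _).2 (by linarith only [Real.pi_pos]))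
  have hc : 0 ≤ Real.cos (ang p) :=
    Real.cos_nonneg_of_mem_Icc ⟨le_trans (by linarith only [Real.pi_pos]) (s1 _).1, (s1 _).2⟩
  refine ⟨hu _ _, mul_nonneg (mul_nonneg hs hc) (sub_nonneg.2 (Real.cos_le_one _)), fun h => ?_,
    fun h => ?_, fun h => ?_, ?_⟩
  · rcases eq_or_eq_neg_of_abs_eq h with k | k
    · rw [w, qw, o5 _ k.ge, Real.cos_two_pi]; ring
    · rw [w, qw, o4 _ k.le, Real.cos_zero]; ring
  · rw [w, qw, ang, s3 _ (by rw [zt, h]; norm_num), Real.sin_zero]; ring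
  · have : ang p = Real.pi / 2 := s2 _ (by rw [zt, h]; norm_num)
    refine ⟨by rw [y, qy, this, Real.cos_pi_div_two]; ring, fun k => ?_⟩
    rw [w, qw, this, k, o0, Real.sin_pi_div_two, Real.cos_pi]; ring
  · rcases le_total (uu p) 0 with k | k
    · exact mul_nonpos_of_nonneg_of_nonpos
        (mul_nonneg hs (Real.sin_nonneg_of_nonneg_of_le_pi (o1 _).1 (o2 _ k))) k
    · refine mul_nonpos_of_nonpos_of_nonneg (mul_nonpos_of_nonneg_of_nonpos hs ?_) k
      rw [← Real.sin_sub_two_pi]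
      exact Real.sin_nonpos_of_nonpos_of_neg_pi_le (by linarith only [(o1 (uu p)).2])
        (by linarith only [o3 _ k])

theorem inU {p : E × E} (f : Fa p) (hu : |uu p| ≤ 1 / 100) (h1 : -(1 / 8) ≤ l0 p)
    (h2 : l0 p ≤ -(1 / 40)) (hw : w p = 0) (hx : l0 p = -(1 / 40) → uu p ≠ 0 → x p = 0) :
    |uu p| < 1 / 100 ∧ -(1 / 8) < l0 p ∧ l0 p < -(1 / 40) := by
  refine ⟨hu.lt_of_ne fun k => ?_, h1.lt_of_ne fun k => ?_, h2.lt_of_ne fun k => ?_⟩
  · linarith only [f.fu k, hw]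
  · linarith only [f.fl k.symm, hw]
  · by_cases h0 : uu p = 0
    · linarith only [(f.fr k).2 h0, hw]
    · have := f.unit
      rw [hw, hx k h0, (f.fr k).1] at this
      norm_num at this

theorem e2_at {p : E × E} (f : Fa p) (hw : w p = 0) (hx : x p = 0) : e2 p = rp p + l0 p := by
  have := f.unit
  rw [hw, hx] at this
  rw [e2, hw, hx, zt]
  linear_combination 2 * l0 p * this

/-- the branch `w ≠ 0` has a negative last parameter -/
theorem branch {w y z r : ℝ} (hy : 0 ≤ y) (hz : z < 0) (hr : 0 ≤ r)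
    (h : 0 ≤ 3 / 4 * w + y * z)
    (he : r + 41 / 200 * (3 / 2 * (y * w) - (1 - 2 * 0 ^ 2 - 2 * y ^ 2) * z) = 0) : False := by
  have h1 := mul_nonneg hy h
  linarith

theorem neg_k {w x y z : ℝ} (hu : w ^ 2 + x ^ 2 + y ^ 2 = 1) (hy : 0 ≤ y)
    (h : 3 / 4 * (1 - y ^ 2) + y * w * z = 0) : w * z - 3 / 4 * y < 0 := by
  rcases hy.lt_or_eq with k | k
  · have h1 : y * (w * z) ≤ 0 := by linarith [sq_nonneg w, sq_nonneg x]
    have h2 : w * z ≤ 0 := by
      by_contra h3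
      exact absurd (mul_pos k (not_le.1 h3)) (not_lt.2 h1)
    linarith only [k, h2]
  · rw [← k] at h
    norm_num at h

end B3c5'

open B3c5' in
theorem thB3c (hHR : StHR) (hP0 : StP0) : StB3c := by
  intro R hR
  have F := fa hP0
  obtain ⟨-, -, -, -, -, -, -, -, -, ⟨co, -⟩, ⟨cp, -⟩, -⟩ := hP0
  have cz : Continuous zt := cl0.mul continuous_const
  have ca : Continuous ang := cp.comp (continuous_const.add (cz.pow 2))
  have cou : Continuous fun p => om (uu p) := co.comp cuu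
  have cw : Continuous w := by unfold w qw; fun_prop
  have cx : Continuous x := by unfold x qx; fun_prop
  have cy : Continuous y := by unfold y qy; fun_prop
  have cr := crp
  have c1 : Continuous e1 := by unfold e1; fun_prop
  have c2 : Continuous e2 := by unfold e2; fun_prop
  have c3 : Continuous e3 := by unfold e3; fun_prop
  have c4 : Continuous fun p => rp p - 1 / 2 := crp.sub continuous_const
  have c5 : Continuous fun p => vv p - 3 / 4 := cvv.sub continuous_const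
  have c6 : Continuous fun p => -(l0 p + 1 / 16) := (cl0.add continuous_const).neg
  have hz : ∀ p, l0 p ≤ -(1 / 40) → zt p < 0 := fun p h => by
    rw [zt]; linarith only [h]
  have key : ∀ p, ∀ t : ℝ, 0 ≤ t → t ≤ 1 → |uu p| ≤ 1 / 100 → -(1 / 8) ≤ l0 p →
      l0 p ≤ -(1 / 40) → 0 ≤ rp p → x p = 0 → e2 p = 0 → (1 - t) * e3 p + t * w p = 0 →
      (|uu p| < 1 / 100 ∧ -(1 / 8) < l0 p ∧ l0 p < -(1 / 40)) ∧ 0 < rp p ∧ rp p < 1 := by
    intro p t t0 t1 hu h1 h2 hr hx k2 k3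
    have un := (F p).unit
    rw [hx] at un
    have hw : w p = 0 := by
      by_contra hw
      have k4 : w p * (t - (1 - t) * (4 * (3 / 4 * w p + y p * zt p))) = 0 := by
        rw [e3] at k3
        linear_combination k3 - 3 * (1 - t) * un
      have k5 := (mul_eq_zero.1 k4).resolve_left hw
      rw [e2, hx] at k2
      refine branch (F p).y0 (hz p h2) hr ?_ k2
      by_contra k6
      have k7 := mul_nonneg (sub_nonneg.2 t1) (neg_nonneg.2 (not_le.1 k6).le)
      have k8 : t = 0 := by linarith only [k5, k7, t0]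
      rw [k8] at k5
      linarith only [not_le.1 k6, k5]
    rw [e2_at (F p) hw hx] at k2
    exact ⟨inU (F p) hu h1 h2 hw fun _ _ => hx, by linarith only [k2, h2],
      by linarith only [k2, h1]⟩
  have tr := fun a b c => (hHR (E × E) (E × E) (Om R) (Uo R)).1 a b c
  rw [sys2, sys3]
  refine tr _ _ _ (step hHR hR c1 c2 c3 cx.neg c2 c3 ?_) (tr _ _ _
    (step hHR hR cx.neg c2 c3 cx.neg c2 cw ?_) (tr _ _ _
    (step hHR hR cx.neg c2 cw cx.neg c4 cw ?_) (tr _ _ _
    (step hHR hR cx.neg c4 cw c5 c4 cw ?_) (step hHR hR c5 c4 cw c5 c4 c6 ?_))))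
  · intro t t0 t1 p _ hu h1 h2 hr k1 k2 k3
    have k3' : e3 p = 0 := by linear_combination k3
    have k4 := neg_k (z := zt p) (F p).unit (F p).y0 
      (by rw [e3] at k3'; linear_combination (-1 / 4) * k3')
    have k5 : x p * ((1 - t) * (41 / 100 * (w p * zt p - 3 / 4 * y p)) - t) = 0 := by
      rw [e1, Pi.neg_apply] at k1
      linear_combination k1
    have hx : x p = 0 := by
      refine (mul_eq_zero.1 k5).resolve_right fun k6 => ?_
      have k7 := mul_nonneg (sub_nonneg.2 t1) (neg_nonneg.2 k4.le)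
      have k8 : t = 0 := by linarith only [k6, k7, t0]
      rw [k8] at k6
      linarith only [k6, k4]
    exact key p 0 le_rfl zero_le_one hu h1 h2 hr hx (by linear_combination k2)
      (by linear_combination k3)
  · intro t t0 t1 p _ hu h1 h2 hr k1 k2 k3
    rw [Pi.neg_apply] at k1
    exact key p t t0 t1 hu h1 h2 hr (by linear_combination -k1) (by linear_combination k2) k3
  · intro t t0 t1 p _ hu h1 h2 hr k1 k2 k3
    rw [Pi.neg_apply] at k1
    have hx : x p = 0 := by linear_combination -k1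
    have hw : w p = 0 := by linear_combination k3
    rw [e2_at (F p) hw hx] at k2
    have a1 := mul_nonneg (sub_nonneg.2 t1) (sub_nonneg.2 h1)
    have a2 := mul_nonneg (sub_nonneg.2 t1) (sub_nonneg.2 h2)
    exact ⟨inU (F p) hu h1 h2 hw fun _ _ => hx, by linarith only [k2, a2, t0],
      by linarith only [k2, a1, t1]⟩
  · intro t t0 t1 p hv hu h1 h2 hr k1 k2 k3
    rw [Pi.neg_apply, hv] at k1
    refine ⟨inU (F p) hu h1 h2 (by linear_combination k3) fun _ h0 => ?_, by linarith only [k2],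
      by linarith only [k2]⟩
    have k4 := mul_nonneg (sub_nonneg.2 t1) (neg_nonneg.2 (F p).xu)
    have k5 : (1 - t) * -(x p * uu p) + t * uu p ^ 2 = 0 := by linear_combination uu p * k1
    have k6 : t * uu p ^ 2 = 0 := by
      linarith only [mul_nonneg t0 (sq_nonneg (uu p)), k4, k5]
    have k7 : t = 0 := (mul_eq_zero.1 k6).resolve_right (pow_ne_zero 2 h0)
    rw [k7] at k1
    linear_combination -k1
  · intro t t0 t1 p hv hu h1 h2 hr k1 k2 k3
    have h0 : uu p = 0 := by linear_combination k1 - hv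
    refine ⟨⟨by rw [h0]; norm_num, h1.lt_of_ne fun k => ?_, h2.lt_of_ne fun k => ?_⟩,
      by linarith only [k2], by linarith only [k2]⟩
    · rw [(F p).fl k.symm, ← k] at k3
      linarith only [k3, t1]
    · rw [((F p).fr k).2 h0, k] at k3
      linarith only [k3, t1]

end

end Pool.Agent.MP_be5fd0_gt.T

namespace Pool.Agent.MP_be5fd0_gt.T

open Complex Filter Topology Set Metric MeasureTheory
open scoped ContDiff BoundedContinuousFunction

noncomputable section

namespace NoH'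

theorem mk0 (a b : ℂ) : mk a b 0 = a := rfl
theorem mk1 (a b : ℂ) : mk a b 1 = b := rfl

theorem ext2 {x y : E} (h0 : x 0 = y 0) (h1 : x 1 = y 1) : x = y := by
  ext i; fin_cases i
  exacts [h0, h1]

theorem cmk {X : Type} [TopologicalSpace X] {f g : X → ℝ} (hf : Continuous f)
    (hg : Continuous g) : Continuous fun x => (⟨f x, g x⟩ : ℂ) :=
  Complex.equivRealProdCLM.symm.continuous.comp (hf.prodMk hg)

theorem emk {X : Type} [TopologicalSpace X] {f g : X → ℂ} (hf : Continuous f)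
    (hg : Continuous g) : Continuous fun x => mk (f x) (g x) := by
  refine (PiLp.continuous_toLp 2 _).comp (continuous_pi fun i => ?_)
  fin_cases i
  exacts [hf, hg]

theorem cgam : Continuous gam :=
  emk (cmk continuous_const (by fun_prop)) (cmk continuous_const (by fun_prop))

theorem gam0 : gam 0 = 0 := by
  refine ext2 ?_ ?_ <;> apply Complex.ext <;> norm_num [gam, mk0, mk1]

theorem gam1 : gam 1 = vc := by
  refine ext2 ?_ ?_ <;> apply Complex.ext <;> norm_num [gam, vc, mk0, mk1]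

theorem gam_re (s : ℝ) : (gam s 1).re = 0 := rfl

theorem gam_im {s : ℝ} (hs : s ∈ Icc (0 : ℝ) 1) : 0 ≤ (gam s 0).im := by
  change 0 ≤ 2 * min 1 (min (3 * s) (3 - 3 * s))
  have := hs.1
  have := hs.2
  exact mul_nonneg (by norm_num) (le_min (by norm_num) (le_min (by linarith) (by linarith)))

theorem lat_a : Lat va := ⟨⟨0, 0, by simp [va, mk0]⟩, ⟨1, 0, by simp [va, mk1]⟩⟩
theorem lat_b : Lat vb := ⟨⟨0, 0, by simp [vb, mk0]⟩, ⟨1, 1, by simp [vb, mk1]⟩⟩
theorem lat_c : Lat vc := ⟨⟨0, 0, by simp [vc, mk0]⟩, ⟨0, 1, by simp [vc, mk1]⟩⟩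

theorem ne_ab {f : E → E} (hf : Dif f) (x w : E) (hw : (w 1).re = 0) :
    f (x + w) - f x ≠ va ∧ f (x + w) - f x ≠ vb := by
  constructor <;> intro h
  · have := hf.inj ((eq_add_of_sub_eq' h).trans (hf.eqv x _ lat_a).symm)
    rw [add_left_cancel this] at hw
    norm_num [va, mk1] at hw
  · have := hf.inj ((eq_add_of_sub_eq' h).trans (hf.eqv x _ lat_b).symm)
    rw [add_left_cancel this] at hw
    norm_num [vb, mk1] at hw

theorem per {f : E → E} (hf : Dif f) (x n w : E) (hn : Lat n) :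
    f (x + n + w) = f (x + w) + n := by
  rw [add_right_comm, hf.eqv _ _ hn]

theorem htp_gam {f : E → E} (hf : Dif f) :
    Htp (fun p => f (p.1 + gam p.2) - f p.1) (Dseg f) := by
  have hc := hf.smooth.continuous
  have hg := cgam
  refine ⟨fun q => f (q.2.1 + ((1 - q.1) • gam q.2.2 + (q.1 * q.2.2) • vc)) - f q.2.1,
    by fun_prop, fun p => by simp, fun p => by simp [Dseg], fun t _ => ⟨?_, ?_, ?_, ?_⟩⟩
  · intro x s n hn
    simp only [per hf _ _ _ hn, hf.eqv x n hn]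
    abel
  · intro x
    simp [gam0]
  · intro x
    simp only [gam1, mul_one, ← add_smul, sub_add_cancel, one_smul, hf.eqv x _ lat_c]
    abel
  · intro x s _
    refine ne_ab hf x _ ?_
    simp [gam_re, vc, mk1]

def cl (a : ℝ) : ℝ := max 0 (min 1 a)

theorem cl_mem (a : ℝ) : cl a ∈ Icc (0 : ℝ) 1 :=
  ⟨le_max_left _ _, max_le zero_le_one (min_le_left _ _)⟩
theorem cl_0 {a : ℝ} (h : a ≤ 0) : cl a = 0 := max_eq_left ((min_le_right _ _).trans h)
theorem cl_1 {a : ℝ} (h : 1 ≤ a) : cl a = 1 := by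
  rw [cl, min_eq_left h, max_eq_right zero_le_one]
theorem ccl : Continuous cl := by unfold cl; fun_prop

def Ka (f : E → E) (G : ℝ × E × ℝ → E) (x e : E) : E :=
  G (cl (e 0).im, x, (e 0).re) +
    (f (x + gam (e 0).re + mk ⟨0, 2 * max (-(e 0).im) 0⟩ 0) - f (x + gam (e 0).re))
def Kb (G : ℝ × E × ℝ → E) (l : ℝ) (x e : E) : E := G (cl (max (e 0).im l), x, (e 0).re)
def Fl (f : E → E) (G : ℝ × E × ℝ → E) (l : ℝ) (x e : E) : E × E :=
  (Ka f G x e - va + mk ⟨0, (e 1).re⟩ 0, Kb G l x e - vb + mk ⟨0, (e 1).im⟩ 0)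
def Fn (f : E → E) (p : E × E) : E × E :=
  (f (p.1 + gam (p.2 0).re + mk ⟨0, -2 * (p.2 0).im⟩ 0) - f p.1 - va + mk ⟨0, (p.2 1).re⟩ 0,
   f (p.1 + gam (p.2 0).re) - f p.1 - vb + mk ⟨0, (p.2 1).im⟩ 0)
def cc : E × E := (0, mk 0 (-1))
def FF (f : E → E) (G : ℝ × E × ℝ → E) (q : ℝ × E × E) : E × E :=
  (1 - max 0 (2 * q.1 - 1)) • Fl f G (2 * q.1) q.2.1 q.2.2 + max 0 (2 * q.1 - 1) • cc

theorem cFF {f : E → E} {G : ℝ × E × ℝ → E} (hG : Continuous G) (hp : Continuous f) :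
    Continuous (FF f G) := by
  have s : Continuous fun q : ℝ × E × E => (q.2.2 0).re := by fun_prop
  have τ : Continuous fun q : ℝ × E × E => (q.2.2 0).im := by fun_prop
  have r : Continuous fun q : ℝ × E × E => (q.2.2 1).re := by fun_prop
  have r' : Continuous fun q : ℝ × E × E => (q.2.2 1).im := by fun_prop
  have x : Continuous fun q : ℝ × E × E => q.2.1 := by fun_prop
  have y : Continuous fun q : ℝ × E × E => q.2.1 + gam (q.2.2 0).re := x.add (cgam.comp s)
  have a : Continuous fun q : ℝ × E × E => Ka f G q.2.1 q.2.2 :=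
    (hG.comp ((ccl.comp τ).prodMk (x.prodMk s))).add ((hp.comp (y.add
      (emk (cmk continuous_const (continuous_const.mul (τ.neg.max continuous_const)))
        continuous_const))).sub (hp.comp y))
  have b : Continuous fun q : ℝ × E × E => Kb G (2 * q.1) q.2.1 q.2.2 :=
    hG.comp ((ccl.comp (τ.max (continuous_const.mul continuous_fst))).prodMk (x.prodMk s))
  have m : Continuous fun q : ℝ × E × E => max 0 (2 * q.1 - 1) := by fun_prop
  exact ((continuous_const.sub m).smul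
    (((a.sub continuous_const).add (emk (cmk continuous_const r) continuous_const)).prodMk
      ((b.sub continuous_const).add (emk (cmk continuous_const r') continuous_const)))).add
    (m.smul continuous_const)

theorem FF_lo (f : E → E) (G : ℝ × E × ℝ → E) {t : ℝ} (ht : t ≤ 1 / 2) (x e : E) :
    FF f G (t, x, e) = Fl f G (2 * t) x e := by
  simp only [FF, max_eq_left (show 2 * t - 1 ≤ 0 by linarith), sub_zero, one_smul, zero_smul,
    add_zero]

theorem mk_zero : mk ⟨0, 2 * 0⟩ 0 = 0 := by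
  refine ext2 ?_ ?_ <;> apply Complex.ext <;> norm_num [mk0, mk1]

theorem Ka_pos (f : E → E) (G : ℝ × E × ℝ → E) (x : E) {e : E} (h : 0 ≤ (e 0).im) :
    Ka f G x e = G (cl (e 0).im, x, (e 0).re) := by
  rw [Ka, max_eq_right (neg_nonpos.2 h), mk_zero, add_zero, sub_self, add_zero]

theorem Ka_neg {f : E → E} {G : ℝ × E × ℝ → E} (h0 : ∀ p, G (0, p) = f (p.1 + gam p.2) - f p.1) (x : E)
    {e : E} (h : (e 0).im ≤ 0) :
    Ka f G x e = f (x + gam (e 0).re + mk ⟨0, -2 * (e 0).im⟩ 0) - f x := by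
  rw [Ka, max_eq_left (neg_nonneg.2 h), cl_0 h, h0, mul_neg, neg_mul]
  abel

theorem Fl_neg {f : E → E} {G : ℝ × E × ℝ → E} (h0 : ∀ p, G (0, p) = f (p.1 + gam p.2) - f p.1) (x : E)
    {e : E} (h : (e 0).im ≤ 0) : FF f G (0, x, e) = Fn f (x, e) := by
  rw [FF_lo f G (by norm_num), Fl, Ka_neg h0 x h, Kb, cl_0 (max_le h (by norm_num)), h0]
  rfl

theorem Fl_eq {f : E → E} {G : ℝ × E × ℝ → E} {l : ℝ} {x e : E} (h : Fl f G l x e = 0) :
    ((Ka f G x e 0).im = -(e 1).re ∧ (Ka f G x e 1).re = 1 ∧ (Ka f G x e 1).im = 0 ∧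
      ((e 1).re = 0 → Ka f G x e = va)) ∧
    ((Kb G l x e 0).im = -(e 1).im ∧ (Kb G l x e 1).re = 1 ∧ (Kb G l x e 1).im = 1 ∧
      ((e 1).im = 0 → Kb G l x e = vb)) := by
  have h1 : Ka f G x e = va - mk ⟨0, (e 1).re⟩ 0 := by
    have := congrArg Prod.fst h
    simp only [Fl, Prod.fst_zero] at this
    rw [eq_sub_iff_add_eq, ← sub_eq_zero, ← this]
    abel
  have h2 : Kb G l x e = vb - mk ⟨0, (e 1).im⟩ 0 := by
    have := congrArg Prod.snd h
    simp only [Fl, Prod.snd_zero] at this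
    rw [eq_sub_iff_add_eq, ← sub_eq_zero, ← this]
    abel
  have z : mk ⟨0, 0⟩ 0 = 0 := by simpa using mk_zero
  rw [h1, h2]
  refine ⟨⟨?_, ?_, ?_, fun h => ?_⟩, ?_, ?_, ?_, fun h => ?_⟩
  · simp [va, mk0]
  · simp [va, mk1]
  · simp [va, mk1]
  · rw [h, z, sub_zero]
  · simp [vb, mk0]
  · simp [vb, mk1]
  · simp [vb, mk1]
  · rw [h, z, sub_zero]

theorem shift {f : E → E} (hb : ∀ y, ‖f y 0 - y 0‖ ≤ 9 / 10) (y y' : E) :
    (y' 0).im - (y 0).im - 9 / 5 ≤ ((f y' - f y) 0).im := by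
  have h1 := (abs_le.1 ((abs_im_le_norm _).trans (hb y))).2
  have h2 := (abs_le.1 ((abs_im_le_norm _).trans (hb y'))).1
  rw [sub_im] at h1 h2
  rw [PiLp.sub_apply, sub_im]
  linarith

theorem core {f : E → E} (hHtp : StHtp) (hDeg : StDeg) (hD : Dif f)
    (hb : ∀ y, ‖f y 0 - y 0‖ ≤ 9 / 10)
    (hB2 : ∀ R : ℝ, 1 ≤ R → ∀ x, ∀ e ∈ Qb R, (e 0).im ≤ 0 → Fn f (x, e) = 0 →
      ∃ n, Lat n ∧ (x - n, e) ∈ Uo R)
    (hB3 : ∀ R : ℝ, 1 ≤ R → HR (Om R) (Uo R) (Fn f) Sys3) (hB4 : StB4) :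
    ¬ Htp (Dseg f) D0 := by
  intro h
  obtain ⟨-, htr, -, -, -, -, -, -, hcell⟩ := hHtp
  obtain ⟨G, hG, h0, h1, hA⟩ := htr _ _ _ (htp_gam hD) h
  obtain ⟨C, hC⟩ := (isCompact_Icc.prod ((isCompact_closedBall (0 : E) 1).prod
    isCompact_Icc) : IsCompact (Icc (0 : ℝ) 1 ×ˢ closedBall (0 : E) 1 ×ˢ Icc (0 : ℝ) 1)
    ).exists_bound_of_continuousOn hG.continuousOn
  have hGb : ∀ a x, ∀ s ∈ Icc (0 : ℝ) 1, -C ≤ (G (cl a, x, s) 0).im := by
    intro a x s hs
    obtain ⟨n, hn, hx⟩ := hcell x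
    have e := (hA _ (cl_mem a)).per (x - n) s n hn
    rw [sub_add_cancel] at e
    have t1 := hC (cl a, x - n, s) ⟨cl_mem a, mem_closedBall_zero_iff.2 hx, hs⟩
    have t2 := PiLp.norm_apply_le (G (cl a, x - n, s)) 0
    have t3 := (abs_le.1 ((abs_im_le_norm _).trans (t2.trans t1))).1
    change G (cl a, x, s) = G (cl a, x - n, s) at e
    rwa [e]
  have hC0 : 0 ≤ C := (norm_nonneg _).trans
    (hC (0, 0, 0) ⟨⟨le_rfl, zero_le_one⟩, mem_closedBall_self zero_le_one, le_rfl, zero_le_one⟩)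
  have hR : 1 ≤ C + 2 := by linarith
  obtain ⟨b1, b2, b3, b4, b5, D, p₀, hp₀, hS⟩ := hB4 _ hR
  have hD0 : ∀ x s, (G (1, x, s) 1).re = 0 := fun x s => by rw [h1]; simp only [D0, ofReal_mul, ofReal_sub, ofReal_one, Fin.isValue, mk1, mul_re, ofReal_re, I_re, mul_zero, ofReal_im, I_im, mul_one, sub_self]
  refine hDeg (FF f G) (C + 2) cc p₀ (Om (C + 2)) (Uo (C + 2)) (mk 0 ⟨1 / 2, 3 / 4⟩) D
    (cFF hG hD.smooth.continuous) ?_ ?_ ?_ ?_ b1 b2 b3 (fun p hp => ⟨(b4 p hp).1, (b4 p hp).2.2⟩)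
    b5 ?_ hp₀ ?_
  · intro t x e n hn
    have e1 : ∀ a s, G (cl a, x + n, s) = G (cl a, x, s) := fun a s =>
      (hA _ (cl_mem a)).per x s n hn
    have e2 : Ka f G (x + n) e = Ka f G x e := by
      rw [Ka, Ka, e1, add_assoc (x + n), per hD _ _ _ hn, per hD _ _ _ hn, add_assoc x]
      abel
    simp only [FF, Fl, Kb, e1, e2]
  · intro t ht x e he hz
    rcases le_total t (1 / 2) with h2 | h2
    · rw [FF_lo f G h2] at hz
      obtain ⟨⟨a1, a2, -, a4⟩, c1, c2, -, c4⟩ := Fl_eq hz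
      obtain ⟨hs, hτ, hr, hr'⟩ := he
      refine ⟨⟨hs.1.lt_of_ne fun k => ?_, hs.2.lt_of_ne fun k => ?_⟩,
        ⟨hτ.1.lt_of_ne fun k => ?_, hτ.2.lt_of_ne fun k => ?_⟩,
        ⟨hr.1.lt_of_ne fun k => ?_, hr.2.lt_of_ne fun k => ?_⟩,
        hr'.1.lt_of_ne fun k => ?_, hr'.2.lt_of_ne fun k => ?_⟩
      · have : G (_, x, 0) = 0 := (hA _ (cl_mem (max (e 0).im (2 * t)))).zero x
        rw [Kb, ← k, this] at c2
        simp at c2
      · have : G (_, x, 1) = vc := (hA _ (cl_mem (max (e 0).im (2 * t)))).one x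
        rw [Kb, k, this] at c2
        simp [vc, mk1] at c2
      · have t1 := shift hb x (x + gam (e 0).re + mk ⟨0, -2 * (e 0).im⟩ 0)
        rw [← Ka_neg h0 x (by linarith only [k]), a1] at t1
        simp only [PiLp.add_apply, add_im, mk0] at t1
        linarith only [gam_im hs, hr.1, k, t1]
      · rw [Ka_pos f G x (by linarith only [k]), k, cl_1 le_rfl, hD0] at a2
        exact zero_ne_one a2
      · rcases le_total 0 (e 0).im with h3 | h3
        · have := a4 k.symm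
          rw [Ka_pos f G x h3] at this
          exact ((hA _ (cl_mem _)).ne x _ hs).1 this
        · have := a4 k.symm
          rw [Ka_neg h0 x h3, add_assoc] at this
          exact (ne_ab hD x _ (by simp [gam_re, mk1])).1 this
      · have t1 := shift hb (x + gam (e 0).re)
          (x + gam (e 0).re + mk ⟨0, 2 * max (-(e 0).im) 0⟩ 0)
        have t2 := hGb (e 0).im x _ hs
        have t3 := le_max_right (-(e 0).im) 0
        rw [Ka, PiLp.add_apply, add_im] at a1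
        rw [PiLp.add_apply (x := x + gam (e 0).re), add_im, mk0] at t1
        simp only at t1
        linarith only [a1, k, t1, t2, t3]
      · exact ((hA _ (cl_mem _)).ne x _ hs).2 (c4 k.symm)
      · have t2 := hGb (max (e 0).im (2 * t)) x _ hs
        rw [Kb] at c1
        linarith only [c1, k, t2]
    · exfalso
      have := congrArg (fun p : E × E => (p.2 1).re) hz
      have e1 : cl (max (e 0).im (2 * t)) = 1 := cl_1 (le_max_of_le_right (by linarith))
      simp only [FF, Fl, Fin.isValue, Kb, e1, vb, Prod.smul_mk, smul_add, cc, smul_zero, Prod.mk_add_mk, add_zero, PiLp.add_apply, PiLp.smul_apply, PiLp.sub_apply, mk1, real_smul, ofReal_sub, ofReal_one, smul_neg, mul_one, add_re, mul_re, sub_re, one_re, ofReal_re, hD0, I_re, zero_sub, mul_neg, neg_sub, sub_im, one_im, ofReal_im, sub_self, add_im, I_im, zero_add, zero_mul, sub_zero, neg_re, Prod.snd_zero, PiLp.zero_apply, zero_re] at this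
      linarith only [this]
  · intro k
    have := congrArg (fun p : E × E => (p.2 1).re) k
    simp [cc, mk1] at this
  · intro x e _
    norm_num [FF]
  · intro x e he hz
    rcases le_total 0 (e 0).im with h3 | h3
    · rw [FF_lo f G (by norm_num)] at hz
      obtain ⟨⟨-, -, a3, -⟩, -, -, c3, -⟩ := Fl_eq hz
      rw [Ka_pos f G x h3] at a3
      rw [Kb, mul_zero, max_eq_left h3, a3] at c3
      exact absurd c3 zero_ne_one
    · rw [Fl_neg h0 x h3] at hz
      exact hB2 _ hR x e he h3 hz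
  · obtain ⟨H, k1, k2, k3, k4⟩ := hB3 _ hR
    refine ⟨H, k1, fun p hp => (k2 p hp).trans ?_, fun p hp => (k3 p hp).trans (hS p), k4⟩
    exact (Fl_neg h0 p.1 (b4 p hp).2.1).symm

theorem Fn_phi : Fn phi = Fneg := by
  funext p
  rw [Fn, Fneg]

end NoH'

theorem thNoH (hHtp : StHtp) (hDeg : StDeg) (hHR : StHR) (hP3 : StP3) (hB2 : StB2)
    (hB3a : StB3a) (hB3b : StB3b) (hB3c : StB3c) (hB4 : StB4) : StNoH := by
  refine ⟨phi, hP3.1, NoH'.core hHtp hDeg hP3.1 hP3.2.1 ?_ (fun R hR => ?_) hB4⟩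
  · rw [NoH'.Fn_phi]
    exact hB2
  · rw [NoH'.Fn_phi]
    exact (hHR _ _ _ _).1 _ _ _ ((hHR _ _ _ _).1 _ _ _ (hB3a _ hR) (hB3b _ hR)) (hB3c _ hR)

end

end Pool.Agent.MP_be5fd0_gt.T

end

-- part MP_be5fd0_gt.H27.Main
section

/-! Assembly of the blocks. -/

namespace Pool.Agent.MP_be5fd0_gt.T

theorem okHtp : StHtp := thHtp
theorem okN0 : StN0 := thN0
theorem okN1 : StN1 := thN1 okN0
theorem okQ1 : StQ1 := thQ1 okN1
theorem okJ : StJ := thJ okHtp
theorem okSw : StSw := thSw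
theorem okT1 : StT1 := thT1
theorem okT2 : StT2 := thT2 okT1
theorem okT3 : StT3 := thT3 okT1
theorem okRr : StRr := thRr
theorem okReg : StReg := thReg okT1 okT2 okT3 okSw okRr
theorem okN2 : StN2 := thN2 okT1 okT3 okN0
theorem okEn : StEn := thEn okN1 okN2
theorem okSm : StSm := thSm
theorem okAp : StAp := thAp okT1 okT2 okT3 okSw okRr okReg okEn okSm
theorem okInt : StInt := thInt
theorem okCpt : StCpt := thCpt okSw okAp okInt
theorem okConv : StConv := thConv okCpt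
theorem okTriv : StTriv := thTriv okT3 okSw okAp
theorem okSim : StSim := thSim okT1 okT2 okT3
theorem okF : StF := thF okT1 okT3 okSim okSw okRr okReg okAp
theorem okLin : StLin := thLin okT1 okT2 okT3 okRr okReg okAp okF
theorem okH1 : StH1 := thH1
theorem okH2 : StH2 := thH2
theorem okIFa : StIFa := thIFa okT1 okT2 okSw okH1 okH2
theorem okIFT : StIFT := thIFT okT1 okT2 okT3 okSw okRr okAp okInt okLin okH1 okIFa
theorem okStr1 : StStr1 := thStr1 okSw okRr okAp okTriv okF okIFT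
theorem okL : StL := thL okSw okRr okAp okF
theorem okStr2 : StStr2 := thStr2 okT3 okQ1 okSw okRr okAp okL
theorem okOp1 : StOp1 := thOp1 okSw okAp okConv okTriv okIFT okStr1
theorem okOpen : StOpen := thOpen okSw okAp okConv okTriv okOp1
theorem okQ3 : StQ3 := thQ3
theorem okQ2 : StQ2 := thQ2
theorem okM1 : StM1 := thM1 okQ1 okQ2 okSw okAp okTriv okL
theorem okQ4 : StQ4 := thQ4 okT3 okN2
theorem okM2 : StM2 := thM2 okN2 okQ4 okSw okAp okL okM1
theorem okM3 : StM3 := thM3 okInt okSw okAp okL okM1 okM2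
theorem okM4 : StM4 := thM4 okQ3 okSw okRr okAp okL okM1 okM3
theorem okCl1 : StCl1 := thCl1 okSw okCpt okIFT okStr1 okStr2
theorem okClosed : StClosed := thClosed okSw okAp okConv okM4 okCl1
theorem okFol : StFol := thFol okSw okTriv okStr1 okStr2 okOpen okClosed
theorem okFolW : StFolW := thFolW okSw okAp okFol
theorem okPer : StPer := thPer okSw okAp okConv okTriv okFolW
theorem okGH : StGH := thGH okQ1 okHtp okJ okPer
theorem okDeg : StDeg := thDeg
theorem okHR : StHR := thHR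
theorem okP0 : StP0 := thP0
theorem okP1 : StP1 := thP1 okP0
theorem okP2 : StP2 := thP2 okP0
theorem okP3 : StP3 := thP3 okP1 okP2
theorem okB2 : StB2 := thB2 okP3
theorem okP4 : StP4 := thP4 okP0 okP1 okP2
theorem okB3a : StB3a := thB3a okHR okP0 okP3 okP4
theorem okB3b : StB3b := thB3b okHR okP0
theorem okB3c : StB3c := thB3c okHR okP0
theorem okB4 : StB4 := thB4
theorem okNoH : StNoH := thNoH okHtp okDeg okHR okP3 okB2 okB3a okB3b okB3c okB4

end Pool.Agent.MP_be5fd0_gt.T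

end
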