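import Pool.Agent.MP_be5fd0_gt.Mg.Forms

-- part MP_be5fd0_gt.Conn
section

/-! From paths of pairs of functions to paths of symplectic forms. -/

namespace Pool.Agent.MP_be5fd0_gt

open Set Filter Topology Metric
open scoped ComplexConjugate ContDiff

noncomputable section

variable (b : Module.Basis (Fin 4) ℝ E)

/-- first coefficient -/
def fF (θ : A2) : ℂ := (((θ ![b 0, b 2] : ℝ) + Complex.I * (θ ![b 1, b 2] : ℝ)) -
  Complex.I * ((θ ![b 0, b 3] : ℝ) + Complex.I * (θ ![b 1, b 3] : ℝ))) / 2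

/-- second coefficient -/
def fG (θ : A2) : ℂ := (((θ ![b 0, b 2] : ℝ) + Complex.I * (θ ![b 1, b 2] : ℝ)) +
  Complex.I * ((θ ![b 0, b 3] : ℝ) + Complex.I * (θ ![b 1, b 3] : ℝ))) / 2

/-- the mixed determinant -/
def J (θ : A2) : ℝ := θ ![b 0, b 2] * θ ![b 1, b 3] - θ ![b 0, b 3] * θ ![b 1, b 2]

theorem J_eq (θ : A2) : ‖fF b θ‖ ^ 2 - ‖fG b θ‖ ^ 2 = J b θ := by
  simp only [Complex.sq_norm, Complex.normSq_apply, fF, fG, J]
  simp
  ring

theorem J_pos_iff (θ : A2) : 0 < J b θ ↔ ‖fG b θ‖ < ‖fF b θ‖ := by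
  rw [← J_eq, sub_pos, pow_lt_pow_iff_left₀ (norm_nonneg _) (norm_nonneg _) two_ne_zero]

theorem expand (θ : A2) (u q : E) : θ ![u, q] = b.repr u 0 * θ ![b 0, q] + b.repr u 1 * θ ![b 1, q]
    + b.repr u 2 * θ ![b 2, q] + b.repr u 3 * θ ![b 3, q] := by
  simp only [← bil_apply]
  conv_lhs => rw [← b.sum_repr u, Fin.sum_univ_four]
  simp only [map_add, map_smul, LinearMap.add_apply, LinearMap.smul_apply, smul_eq_mul]

variable {b}

theorem Nd_of_J {θ : A2} (h : θ ![b 2, b 3] = 0) (hJ : J b θ ≠ 0) : Nd θ := fun u hu => by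
  by_contra hn
  push Not at hn
  have h0 := expand b θ u (b 0)
  have h1 := expand b θ u (b 1)
  have h2 := expand b θ u (b 2)
  have h3 := expand b θ u (b 3)
  rw [hn, A2_self] at h0 h1 h2 h3
  rw [A2_swap θ (b 3) (b 2), h] at h2
  rw [h] at h3
  rw [A2_swap θ (b 2), A2_swap θ (b 3)] at h0 h1
  have e0 : b.repr u 0 = 0 := by
    refine (mul_eq_zero.1 ?_).resolve_right hJ
    unfold J
    linear_combination (θ ![b 1, b 2]) * h3 - (θ ![b 1, b 3]) * h2
  have e1 : b.repr u 1 = 0 := by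
    refine (mul_eq_zero.1 ?_).resolve_right hJ
    unfold J
    linear_combination (θ ![b 0, b 3]) * h2 - (θ ![b 0, b 2]) * h3
  rw [e0, e1] at h0 h1
  have e2 : b.repr u 2 = 0 := by
    refine (mul_eq_zero.1 ?_).resolve_right hJ
    unfold J
    linear_combination (θ ![b 1, b 3]) * h0 - (θ ![b 0, b 3]) * h1
  have e3 : b.repr u 3 = 0 := by
    refine (mul_eq_zero.1 ?_).resolve_right hJ
    unfold J
    linear_combination (θ ![b 0, b 2]) * h1 - (θ ![b 1, b 2]) * h0
  apply hu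
  rw [← b.sum_repr u, Fin.sum_univ_four, e0, e1, e2, e3]
  simp

theorem J_of_Nd {θ : A2} (h : θ ![b 2, b 3] = 0) (hN : Nd θ) : J b θ ≠ 0 := fun hJ => by
  have key : ∀ c d : ℝ, c * θ ![b 0, b 2] + d * θ ![b 0, b 3] = 0 →
      c * θ ![b 1, b 2] + d * θ ![b 1, b 3] = 0 → c = 0 ∧ d = 0 := fun c d h0 h1 => by
    by_contra hne
    have hu : c • b 2 + d • b 3 ≠ 0 := fun hh => by
      have a2 := congrArg (fun u => b.repr u 2) hh
      have a3 := congrArg (fun u => b.repr u 3) hh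
      simp at a2 a3
      exact hne ⟨a2, a3⟩
    obtain ⟨u', hu'⟩ := hN _ hu
    apply hu'
    have a : ∀ p, θ ![p, c • b 2 + d • b 3] = c * θ ![p, b 2] + d * θ ![p, b 3] := fun p => by
      simp [← bil_apply]
    rw [A2_swap, expand b θ u', a, a, a, a, h0, h1, A2_self, A2_self, A2_swap θ (b 3) (b 2), h]
    simp
  unfold J at hJ
  have a1 := key (θ ![b 0, b 3]) (-θ ![b 0, b 2]) (by ring) (by linarith)
  have a2 := key (θ ![b 1, b 3]) (-θ ![b 1, b 2]) (by linarith) (by ring)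
  have a3 := key 1 0 (by linarith [a1.2]) (by linarith [a2.2])
  exact one_ne_zero a3.1

variable (b)

/-- exact perturbations of `a` with Lagrangian leaves -/
def Ad (a : A2) (θ : E → A2) : Prop := Ex a θ ∧ ∀ x, θ x ![b 2, b 3] = 0

/-- the pair of functions attached to a form -/
def Rep (θ : E → A2) (z : C4 × C4) : Prop :=
  ∀ x, z.1 (pr x) = fF b (θ x) ∧ z.2 (pr x) = fG b (θ x)

/-- the pairs attached to admissible forms -/
def Z (a : A2) : Set (C4 × C4) := {z | ∃ θ, Ad b a θ ∧ Rep b θ z}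

variable {b}

theorem isOpen_O : IsOpen O := by
  refine Metric.isOpen_iff.2 fun z hz => ?_
  obtain ⟨y0, -, h0⟩ := isCompact_univ.exists_isMinOn univ_nonempty
    (f := fun y => ‖z.1 y‖ - ‖z.2 y‖) (by fun_prop)
  have h1 : 0 < ‖z.1 y0‖ - ‖z.2 y0‖ := sub_pos.2 (hz y0)
  refine ⟨_, half_pos h1, fun z' hz' y => ?_⟩
  rw [mem_ball_iff_norm] at hz'
  have a1 : ‖z'.1 y - z.1 y‖ ≤ ‖z' - z‖ :=
    ((z' - z).1.norm_coe_le_norm y).trans (norm_fst_le _)
  have a2 : ‖z'.2 y - z.2 y‖ ≤ ‖z' - z‖ :=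
    ((z' - z).2.norm_coe_le_norm y).trans (norm_snd_le _)
  have a3 : ‖z.1 y0‖ - ‖z.2 y0‖ ≤ ‖z.1 y‖ - ‖z.2 y‖ := h0 (mem_univ y)
  have a4 := norm_sub_norm_le (z'.2 y) (z.2 y)
  have a5 := norm_sub_norm_le (z.1 y) (z'.1 y)
  rw [norm_sub_rev] at a5
  linarith

theorem rel_of_ball {a : A2} {z z1 z2 : C4 × C4} {δ : ℝ} (hb : ball z δ ⊆ O) {θ1 θ2 : E → A2}
    (h1 : Ad b a θ1) (h2 : Ad b a θ2) (r1 : Rep b θ1 z1) (r2 : Rep b θ2 z2) (m1 : z1 ∈ ball z δ)
    (m2 : z2 ∈ ball z δ) : Rel a θ1 θ2 := by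
  refine Rel.seg h1.1 h2.1 fun s hs x => Nd_of_J (b := b) (by simp [h1.2, h2.2]) (ne_of_gt ?_)
  have h3 := hb ((convex_ball z δ).add_smul_sub_mem m1 m2 hs) (pr x)
  rw [J_pos_iff]
  convert h3 using 2
  · simp [(r1 x).2, (r2 x).2, fG]; ring
  · simp [(r1 x).1, (r2 x).1, fF]; ring

theorem rel_of_joined {a : A2} {z0 z1 : C4 × C4} (h : JoinedIn (closure (Z b a) ∩ O) z0 z1)
    {θ0 θ1 : E → A2} (h0 : Ad b a θ0) (h1 : Ad b a θ1) (r0 : Rep b θ0 z0) (r1 : Rep b θ1 z1) :
    Rel a θ0 θ1 := by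
  let P : C4 × C4 → Prop := fun z => ∃ δ, 0 < δ ∧ ball z δ ⊆ O ∧ ∃ θ z', Ad b a θ ∧ Rep b θ z' ∧
    z' ∈ ball z δ ∧ Rel a θ0 θ
  have key : ∀ c ε, ball c ε ⊆ O → ∀ z ∈ closure (Z b a), ∀ z' ∈ closure (Z b a), z ∈ ball c ε →
      z' ∈ ball c ε → P z → P z' := by
    rintro c ε hc z hz z' hz' m m' ⟨δ, hδ, hδ', θ, y, ad, rp, my, rl⟩
    obtain ⟨y1, ⟨n1, n1'⟩, θ1, ad1, rp1⟩ := mem_closure_iff.1 hz _ (isOpen_ball.inter isOpen_ball)
      ⟨mem_ball_self hδ, m⟩
    obtain ⟨δ', hδ1, hδ2⟩ := Metric.isOpen_iff.1 isOpen_ball z' m'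
    obtain ⟨y2, n2, θ2, ad2, rp2⟩ := mem_closure_iff.1 hz' _ isOpen_ball (mem_ball_self hδ1)
    exact ⟨δ', hδ1, hδ2.trans hc, θ2, y2, ad2, rp2, n2,
      (rl.trans (rel_of_ball hδ' ad ad1 rp rp1 my n1)).trans
        (rel_of_ball hc ad1 ad2 rp1 rp2 n1' (hδ2 n2))⟩
  obtain ⟨γ, hγ⟩ := h
  have lc : IsLocallyConstant fun t => P (γ t) := by
    refine (IsLocallyConstant.iff_eventually_eq _).2 fun t => ?_
    obtain ⟨ε, hε, hε'⟩ := Metric.isOpen_iff.1 isOpen_O _ (hγ t).2
    filter_upwards [γ.continuous.continuousAt.preimage_mem_nhds (ball_mem_nhds (γ t) hε)] with s hs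
    exact propext ⟨key _ _ hε' _ (hγ s).1 _ (hγ t).1 hs (mem_ball_self hε),
      key _ _ hε' _ (hγ t).1 _ (hγ s).1 (mem_ball_self hε) hs⟩
  have p0 : P (γ 0) := by
    obtain ⟨ε, hε, hε'⟩ := Metric.isOpen_iff.1 isOpen_O _ (hγ 0).2
    have m : z0 ∈ ball (γ 0) ε := by simpa using hε
    exact ⟨ε, hε, hε', θ0, z0, h0, r0, m, rel_of_ball hε' h0 h0 r0 r0 m m⟩
  rw [lc.apply_eq_of_preconnectedSpace 0 1] at p0
  obtain ⟨δ, hδ, hδ', θ, y, ad, rp, my, rl⟩ := p0
  exact rl.trans (rel_of_ball hδ' ad h1 rp r1 my (by simpa using hδ))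

variable (b)

/-- the directions of the space of admissible pairs -/
def D : AddSubmonoid (C4 × C4) where
  carrier := {d | ∃ lam : E → A1, IsForm lam ∧ (∀ x, extDeriv lam x ![b 2, b 3] = 0) ∧
    Rep b (extDeriv lam) d}
  zero_mem' := ⟨fun _ => 0, isForm_const 0, fun x => by simp [extDeriv_const],
    fun x => by simp [extDeriv_const, fF, fG]⟩
  add_mem' := by
    rintro d d' ⟨l, h1, h2, h3⟩ ⟨l', h1', h2', h3'⟩
    refine ⟨fun x => l x + l' x, h1.add h1', fun x => ?_, fun x => ?_⟩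
    · simp [extDeriv_fun_add (h1.diff x) (h1'.diff x), h2, h2']
    · rw [extDeriv_fun_add (h1.diff x) (h1'.diff x)]
      constructor
      · simp [(h3 x).1, (h3' x).1, fF]; ring
      · simp [(h3 x).2, (h3' x).2, fG]; ring

variable {b}

theorem add_mem_closure {a : A2} {z d : C4 × C4} (hz : z ∈ Z b a)
    (hd : d ∈ (D b).topologicalClosure) : z + d ∈ closure (Z b a) := by
  refine map_mem_closure (f := fun d => z + d) (by fun_prop) hd ?_
  rintro d ⟨l, h1, h2, h3⟩
  obtain ⟨θ, ad, rp⟩ := hz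
  refine ⟨fun x => θ x + extDeriv l x, ⟨ad.1.add h1, fun x => by simp [ad.2, h2]⟩, fun x => ?_⟩
  constructor
  · simp [(rp x).1, (h3 x).1, fF]; ring
  · simp [(rp x).2, (h3 x).2, fG]; ring

/-- coordinate covectors -/
def cv (b : Module.Basis (Fin 4) ℝ E) (i : Fin 4) : A1 :=
  ContinuousAlternatingMap.ofSubsingleton ℝ E ℝ (0 : Fin 1)
    (LinearMap.toContinuousLinearMap (b.coord i))

theorem cv_apply (i j : Fin 4) : cv b i ![b j] = if j = i then 1 else 0 := by
  simp [cv, Finsupp.single_apply]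

theorem HD.fderiv {K K' : C4} {u : E} (hK : Sm K) (h : HD u K K') (x : E) :
    fderiv ℝ (fun x : E => K (pr x)) x u = K' (pr x) := by
  obtain ⟨K'', -, h1, h2⟩ := hK.deriv u
  rw [← h2]
  exact (h1 _).unique (h _)

theorem exists_form {K : C4} (hK : Sm K) (i j : Fin 4) : ∃ lam : E → A1, IsForm lam ∧
    ∀ (p q : Fin 4) (Kp Kq : C4), HD (b p) K Kp → HD (b q) K Kq → ∀ x,
      extDeriv lam x ![b p, b q] =
        ((Kp (pr x)).re * cv b i ![b q] + (Kp (pr x)).im * cv b j ![b q]) -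
        ((Kq (pr x)).re * cv b i ![b p] + (Kq (pr x)).im * cv b j ![b p]) := by
  have h1 : IsForm fun x : E => (K (pr x)).re • cv b i + (K (pr x)).im • cv b j := by
    refine ⟨((Complex.reCLM.contDiff.comp hK).smul contDiff_const).add
      ((Complex.imCLM.contDiff.comp hK).smul contDiff_const), fun n x => ?_⟩
    have : pr (x + fun i => (n i : ℝ)) = pr x := by
      rw [pr.map_add]; exact add_eq_left.2 (pr_iv n)
    simp only [this]
  refine ⟨_, h1, fun p q Kp Kq hp hq x => ?_⟩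
  have h2 := (hK.differentiable (by simp) x).hasFDerivAt
  have h3 : ∀ (m u : E) (K' : C4), HD u K K' →
      fderiv ℝ (fun y => ((K (pr y)).re • cv b i + (K (pr y)).im • cv b j) ![m]) x u =
        (K' (pr x)).re * cv b i ![m] + (K' (pr x)).im * cv b j ![m] := fun m u K' hu => by
    have a1 := ((Complex.reCLM.hasFDerivAt.comp x h2).mul_const (cv b i ![m])).add
      ((Complex.imCLM.hasFDerivAt.comp x h2).mul_const (cv b j ![m]))
    have a2 : HasFDerivAt (fun y => ((K (pr y)).re • cv b i + (K (pr y)).im • cv b j) ![m]) _ x := a1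
    rw [a2.fderiv]
    simp [hu.fderiv hK x, mul_comm]
  rw [d1 h1, h3 _ _ _ hp, h3 _ _ _ hq]

theorem W_sub_D {z : C4 × C4} (hz : z ∈ W (b 2) (b 3)) : z ∈ (D b).topologicalClosure := by
  have := W_ind (P := fun z => ∀ c : ℂ, c • z ∈ (D b).topologicalClosure) ?_ ?_ ?_ ?_ ?_ hz
  · simpa using this 1
  · simp only [ofPred_forall]
    exact isClosed_iInter fun c =>
      (D b).isClosed_topologicalClosure.preimage (f := fun z => c • z) (by fun_prop)
  · intro c
    convert (D b).topologicalClosure.zero_mem using 1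
    ext y <;> simp
  · intro z z' h h' c
    convert (D b).topologicalClosure.add_mem (h c) (h' c) using 1
    ext y <;> simp <;> ring
  · intro c' z h c
    rw [smul_smul]; exact h _
  · intro N c
    refine (D b).le_topologicalClosure ?_
    obtain ⟨lam, h1, h2⟩ := exists_form (b := b) ((Sm_e N).smul (-c)) 0 1
    have h3 := fun p q : Fin 4 => h2 p q _ _ ((HD_e (b p) N).smul (-c)) ((HD_e (b q) N).smul (-c))
    refine ⟨lam, h1, fun x => by simp [h3, cv_apply], fun x => ⟨?_, ?_⟩⟩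
    · simp only [fF, h3, cv_apply]
      apply Complex.ext <;> simp [gen, al] <;> ring
    · simp only [fG, h3, cv_apply]
      apply Complex.ext <;> simp [gen, bl] <;> ring

theorem W_sub_D' {z : C4 × C4} (hz : z ∈ W (b 0) (b 1)) (h1 : Lc (b 2) (b 3) z.1)
    (h2 : Lc (b 2) (b 3) z.2) : (star z.1, z.2) ∈ (D b).topologicalClosure := by
  have := W_ind (P := fun z => ∀ c : ℂ, (star (c • Pj (b 2) (b 3) z.1), c • Pj (b 2) (b 3) z.2) ∈
    (D b).topologicalClosure) ?_ ?_ ?_ ?_ ?_ hz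
  · simpa [Pj_of_Lc h1, Pj_of_Lc h2] using this 1
  · simp only [ofPred_forall]
    exact isClosed_iInter fun c => (D b).isClosed_topologicalClosure.preimage
      (f := fun z : C4 × C4 => (star (c • Pj (b 2) (b 3) z.1), c • Pj (b 2) (b 3) z.2))
      (by fun_prop)
  · intro c
    simp only [Prod.fst_zero, Prod.snd_zero, map_zero, smul_zeroC, star_zero]
    exact (D b).topologicalClosure.zero_mem
  · intro z z' h h' c
    convert (D b).topologicalClosure.add_mem (h c) (h' c) using 1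
    ext y <;> simp <;> ring
  · intro c' z h c
    convert h (c * c') using 1
    rw [Prod.smul_fst, Prod.smul_snd, map_smul, map_smul]
    ext y <;> simp <;> ring
  · intro N c
    refine (D b).le_topologicalClosure ?_
    simp only [gen, map_smul]
    by_cases hN : Zf (b 2) (b 3) N
    · rw [Pj_e_of hN]
      obtain ⟨lam, h1, h2⟩ := exists_form (b := b) ((Sm_e N).smul c) 2 3
      have h3 := fun p q : Fin 4 => h2 p q _ _ ((HD_e (b p) N).smul c) ((HD_e (b q) N).smul c)
      refine ⟨lam, h1, fun x => by simp [h3, cv_apply, hN.1, hN.2], fun x => ⟨?_, ?_⟩⟩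
      · simp only [fF, h3, cv_apply]
        apply Complex.ext <;> simp [al] <;> ring
      · simp only [fG, h3, cv_apply]
        apply Complex.ext <;> simp [bl] <;> ring
    · rw [Pj_e_of_not hN]
      simp only [smul_zeroC, star_zero]
      exact (D b).zero_mem

end

end Pool.Agent.MP_be5fd0_gt

end

-- part MP_be5fd0_gt.Main
section

/-! Symplectic forms with a linear Lagrangian foliation are joined to the constant form. -/

namespace Pool.Agent.MP_be5fd0_gt

open Set Filter Topology Metric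
open scoped ComplexConjugate ContDiff

noncomputable section

theorem cx {k : ℕ} {σ : E → E [⋀^Fin k]→L[ℝ] ℝ} (h : IsForm σ) (m m' : Fin k → E) :
    ∃ K : C4, Sm K ∧ (∀ x, K (pr x) = (σ x m : ℝ) + Complex.I * (σ x m' : ℝ)) ∧
      ∀ u, ∃ K', Sm K' ∧ HD u K K' ∧ ∀ x, K' (pr x) = (fderiv ℝ (fun y => σ y m) x u : ℝ) +
        Complex.I * (fderiv ℝ (fun y => σ y m') x u : ℝ) := by
  have h1 := h.smooth_apply m
  have h2 := h.smooth_apply m'
  have h3 : ContDiff ℝ ∞ fun x => ((σ x m : ℝ) : ℂ) + Complex.I * (σ x m' : ℝ) :=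
    (Complex.ofRealCLM.contDiff.comp h1).add
      (contDiff_const.mul (Complex.ofRealCLM.contDiff.comp h2))
  obtain ⟨K, hK⟩ := desc h3.continuous fun n x => by
    have : σ (x + iv n) = σ x := h.2 n x
    simp only [this]
  have h4 : Sm K := by unfold Sm; simpa only [hK] using h3
  refine ⟨K, h4, hK, fun u => ?_⟩
  obtain ⟨K', a1, a2, a3⟩ := h4.deriv u
  refine ⟨K', a1, a2, fun x => ?_⟩
  have a4 := (Complex.ofRealCLM.hasFDerivAt.comp x
    (h1.differentiable (by simp) x).hasFDerivAt).add ((Complex.ofRealCLM.hasFDerivAt.comp x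
      (h2.differentiable (by simp) x).hasFDerivAt).const_mul Complex.I)
  have a5 : HasFDerivAt (fun x => ((σ x m : ℝ) : ℂ) + Complex.I * (σ x m' : ℝ)) _ x := a4
  rw [a3]
  simp only [hK]
  rw [a5.fderiv]
  simp

theorem Sm.Dz {A B : C4} (h : Sm A) (h' : Sm B) : Sm (Dz A B) := (h.sub (h'.smul _)).smul _

theorem Sm.Db {A B : C4} (h : Sm A) (h' : Sm B) : Sm (Db A B) := (h.add (h'.smul _)).smul _

theorem grad_mem {v w : E} {K A B : C4} (hA : Sm A) (hB : Sm B) (h1 : HD v K A) (h2 : HD w K B) :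
    (Dz A B, Db A B) ∈ W v w := by
  have a1 : Pj v w (Db A B) = 0 := co_ext fun N => by
    by_cases hN : Zf v w N
    · rw [co_Pj_of hN, co_Db h1 h2, hN.bl]; simp
    · rw [co_Pj_of_not hN]; simp
  have a2 : Pj v w (Dz A B) = 0 := co_ext fun N => by
    by_cases hN : Zf v w N
    · rw [co_Pj_of hN, co_Dz h1 h2, hN.al]; simp
    · rw [co_Pj_of_not hN]; simp
  have := mem_W (v := v) (w := w) (hA.Dz hB).summable (hA.Db hB).summable fun N => by
    rw [co_Dz h1 h2, co_Db h1 h2]; ring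
  rwa [a1, a2, sub_zero, sub_zero] at this

theorem co_const (c : ℂ) (N : G) : co N (ContinuousMap.const _ c) = if N = 0 then c else 0 := by
  have : (ContinuousMap.const _ c : C4) = c • (1 : C4) := by ext y; simp
  rw [this, map_smul, co_one]; simp

theorem approx {v w v' w' : E} {z : C4 × C4} (hz : z ∈ W v' w') :
    (Pj v w z.1, Pj v w z.2) ∈
      closure {y : C4 × C4 | y ∈ W v' w' ∧ Sm y.1 ∧ Sm y.2 ∧ Lc v w y.1 ∧ Lc v w y.2} := by
  let Y : Submodule ℂ (C4 × C4) :=
    { carrier := {y : C4 × C4 | y ∈ W v' w' ∧ Sm y.1 ∧ Sm y.2 ∧ Lc v w y.1 ∧ Lc v w y.2}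
      zero_mem' := ⟨(W v' w').zero_mem, Sm_zero, Sm_zero, fun _ _ => rfl, fun _ _ => rfl⟩
      add_mem' := fun {y y'} h h' => ⟨(W v' w').add_mem h.1 h'.1, h.2.1.add h'.2.1,
        h.2.2.1.add h'.2.2.1, fun q x => by simp [h.2.2.2.1 q x, h'.2.2.2.1 q x],
        fun q x => by simp [h.2.2.2.2 q x, h'.2.2.2.2 q x]⟩
      smul_mem' := fun c y h => ⟨(W v' w').smul_mem c h.1, h.2.1.smul c, h.2.2.1.smul c,
        fun q x => by simp [h.2.2.2.1 q x], fun q x => by simp [h.2.2.2.2 q x]⟩ }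
  refine W_ind (P := fun z => (Pj v w z.1, Pj v w z.2) ∈ Y.topologicalClosure) ?_ ?_ ?_ ?_ ?_ hz
  · exact Y.isClosed_topologicalClosure.preimage
      (f := fun z : C4 × C4 => (Pj v w z.1, Pj v w z.2)) (by fun_prop)
  · simp only [Prod.fst_zero, Prod.snd_zero, map_zero]
    exact Y.topologicalClosure.zero_mem
  · intro z z' h h'
    simpa using Y.topologicalClosure.add_mem h h'
  · intro c z h
    rw [Prod.smul_fst, Prod.smul_snd, map_smul, map_smul]
    exact Y.topologicalClosure.smul_mem c h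
  · intro N
    refine Y.le_topologicalClosure ?_
    simp only [gen, map_smul]
    by_cases hN : Zf v w N
    · rw [Pj_e_of hN]
      exact ⟨gen_mem N, (Sm_e N).smul _, (Sm_e N).smul _, fun q x => by simp [hN.lc q x],
        fun q x => by simp [hN.lc q x]⟩
    · rw [Pj_e_of_not hN]
      simp only [smul_zeroC]
      exact Y.zero_mem

theorem joined_const {v w v' w' : E} {c1 c2 : ℂ} {z : C4 × C4} (hz : z ∈ W v' w')
    (hO : (ContinuousMap.const _ c1 + Pj v w z.1, ContinuousMap.const _ c2 + Pj v w z.2) ∈ O) :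
    JoinedIn {y | y ∈ O ∧ y - (ContinuousMap.const _ c1, ContinuousMap.const _ c2) ∈ W v' w' ∧
      Lc v w y.1 ∧ Lc v w y.2} (ContinuousMap.const _ c1, ContinuousMap.const _ c2)
      (ContinuousMap.const _ c1 + Pj v w z.1, ContinuousMap.const _ c2 + Pj v w z.2) := by
  have h0 := approx (v := v) (w := w) hz
  have h1 : (Pj v w z.1, Pj v w z.2) ∈ W v' w' :=
    closure_minimal (fun y hy => hy.1) isClosed_W h0
  have h2 : Lc v w (Pj v w z.1) := Lc_Pj _
  have h3 : Lc v w (Pj v w z.2) := Lc_Pj _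
  generalize Pj v w z.1 = p1 at *
  generalize Pj v w z.2 = p2 at *
  obtain ⟨δ, hδ, hδ'⟩ := Metric.isOpen_iff.1 isOpen_O _ hO
  obtain ⟨y, ⟨y1, y2, y3, y4, y5⟩, hy⟩ := Metric.mem_closure_iff.1 h0 δ hδ
  set c : C4 × C4 := (ContinuousMap.const _ c1, ContinuousMap.const _ c2) with hc
  have e1 : (ContinuousMap.const _ c1 + p1, ContinuousMap.const _ c2 + p2) = c + (p1, p2) := rfl
  rw [e1] at hδ' ⊢
  have m1 : c + y ∈ ball (c + (p1, p2)) δ := by
    rw [mem_ball, dist_add_left, dist_comm]; exact hy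
  have j1 := joined v' w' (range (lf v w)) (F := c.1 + y.1) (H := c.2 + y.2)
    ((Sm_const c1).add y2) ((Sm_const c2).add y3) (hδ' m1) (fun N => by
      rw [map_add, map_add, W_co y1, co_const, co_const, mul_add, ← mul_assoc, bl_mul_ul, mul_add]
      split_ifs with h
      · simp [h, al, bl, sym_zero]
      · simp)
    (by rintro _ ⟨q, rfl⟩ x; simp [hc, y4 q x]) (by rintro _ ⟨q, rfl⟩ x; simp [hc, y5 q x])
  rw [map_add, map_add, (W_Pj y1).1, (W_Pj y1).2, Pj_of_Lc (p := c.1) (fun _ _ => rfl),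
    Pj_of_Lc (p := c.2) (fun _ _ => rfl), add_zero, add_zero] at j1
  refine JoinedIn.trans (y := c + y) (j1.mono ?_) (JoinedIn.of_segment_subset ?_)
  · rintro x ⟨x1, x2, x3, x4⟩
    refine ⟨x1, ?_, fun q => x3 _ ⟨q, rfl⟩, fun q => x4 _ ⟨q, rfl⟩⟩
    convert (W v' w').add_mem x2 y1 using 1
    change x - c = x - (c + y) + y
    abel
  · intro x hx
    refine ⟨hδ' ((convex_ball _ _).segment_subset m1 (mem_ball_self hδ) hx), ?_⟩
    obtain ⟨s, t, -, -, hst, rfl⟩ := hx
    have hst' : (s : ℂ) + t = 1 := by exact_mod_cast hst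
    refine ⟨?_, fun q x => by simp [hc, y4 q x, h2 q x], fun q x => by simp [hc, y5 q x, h3 q x]⟩
    convert (W v' w').add_mem ((W v' w').smul_mem (s : ℂ) y1) ((W v' w').smul_mem (t : ℂ) h1)
      using 1
    ext x
    · simp [hc]; linear_combination c1 * hst'
    · simp [hc]; linear_combination c2 * hst'

variable {b : Module.Basis (Fin 4) ℝ E}

theorem Ad.const {a : A2} {σ : E → A2} (h : Ad b a σ) : Ad b a fun _ => a := by
  refine ⟨Ex_const a, fun _ => ?_⟩
  obtain ⟨⟨lam, hl, hσ⟩, h0⟩ := h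
  obtain ⟨K2, -, -, hK2⟩ := cx hl ![b 2] ![b 2]
  obtain ⟨K3, -, -, hK3⟩ := cx hl ![b 3] ![b 3]
  obtain ⟨A, -, hA, hA'⟩ := hK3 (b 2)
  obtain ⟨B, -, hB, hB'⟩ := hK2 (b 3)
  have e1 : B - A = ContinuousMap.const _ ((1 + Complex.I) * (a ![b 2, b 3] : ℝ)) :=
    C4_ext fun x => by
      have a1 := h0 x
      rw [hσ x, ContinuousAlternatingMap.add_apply, d1 hl] at a1
      have a2 := congrArg (fun r : ℝ => (r : ℂ)) a1
      simp only [ContinuousMap.sub_apply, hA', hB', ContinuousMap.const_apply]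
      push_cast at a2
      linear_combination (-1 - Complex.I) * a2
  have e2 := congrArg (co 0) e1
  rw [map_sub, hA.co, hB.co, sym_zero, sym_zero, co_const] at e2
  have e3 := congrArg Complex.re e2
  simpa using e3.symm

theorem main_pos {a : A2} {σ : E → A2} (h : Ad b a σ) (hJ : ∀ x, 0 < J b (σ x)) :
    Rel a (fun _ => a) σ := by
  have hf := h.1.isForm
  obtain ⟨βv, s1, v1, dv⟩ := cx hf ![b 0, b 2] ![b 1, b 2]
  obtain ⟨βw, s2, v2, dw⟩ := cx hf ![b 0, b 3] ![b 1, b 3]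
  have rp : Rep b σ (Dz βv βw, Db βv βw) := fun x => by
    constructor
    · simp [Dz, v1, v2, fF]; ring
    · simp [Db, v1, v2, fG]; ring
  have hO : (Dz βv βw, Db βv βw) ∈ O := fun y => by
    obtain ⟨x, rfl⟩ := pr_surj y
    rw [(rp x).1, (rp x).2, ← J_pos_iff]
    exact hJ x
  obtain ⟨X, -, hX, hX'⟩ := dv (b 3)
  obtain ⟨Y, -, hY, hY'⟩ := dw (b 2)
  have hXY : X = Y := C4_ext fun x => by
    have a : ∀ p, fderiv ℝ (fun y => σ y ![p, b 2]) x (b 3) =
        fderiv ℝ (fun y => σ y ![p, b 3]) x (b 2) := fun p => by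
      have a1 := d2 hf x p (b 2) (b 3)
      rw [h.1.closed] at a1
      simp only [h.2, fderiv_fun_const] at a1
      simp at a1
      linarith
    rw [hX', hY', a, a]
  have j1 := joined (b 2) (b 3) ∅ (s1.Dz s2) (s1.Db s2) hO (fun N => by
    have a1 := hX.co N
    rw [hXY, hY.co] at a1
    simp only [Dz, Db, map_smul, map_sub, map_add, al, bl, smul_eq_mul]
    linear_combination (-Complex.I / 2) * a1) (fun _ h => h.elim) (fun _ h => h.elim)
  have hZ : (Dz βv βw, Db βv βw) ∈ Z b a := ⟨σ, h, rp⟩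
  have j2 : JoinedIn (closure (Z b a) ∩ O) _ _ := j1.mono fun z hz =>
    ⟨by simpa using add_mem_closure hZ (W_sub_D hz.2.1), hz.1⟩
  obtain ⟨lam, hl, hσ⟩ := h.1
  obtain ⟨L, -, -, dL⟩ := cx hl ![b 2] ![b 3]
  obtain ⟨Λ, -, -, dΛ⟩ := cx hl ![b 0] ![b 1]
  obtain ⟨L0, l0, l0', l0''⟩ := dL (b 0)
  obtain ⟨L1, l1, l1', l1''⟩ := dL (b 1)
  obtain ⟨Λ2, l2, l2', l2''⟩ := dΛ (b 2)
  obtain ⟨Λ3, l3, l3', l3''⟩ := dΛ (b 3)
  have w1 := grad_mem l0 l1 l0' l1'
  have w2 := W_Pj (grad_mem l2 l3 l2' l3')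
  have e1 : star (Dz βv βw) = ContinuousMap.const _ (conj (fF b a)) + Dz L0 L1 - star (Dz Λ2 Λ3) :=
    C4_ext fun x => by
      apply Complex.ext <;>
        simp [Dz, v1, v2, hσ x, d1 hl, l0'', l1'', l2'', l3'', fF, map_ofNat] <;> ring
  have e2 : Db βv βw = ContinuousMap.const _ (fG b a) + Db L0 L1 - Db Λ2 Λ3 :=
    C4_ext fun x => by
      apply Complex.ext <;>
        simp [Db, v1, v2, hσ x, d1 hl, l0'', l1'', l2'', l3'', fG] <;> ring
  have e3 : star (Pj (b 2) (b 3) (Dz βv βw)) =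
      ContinuousMap.const _ (conj (fF b a)) + Pj (b 2) (b 3) (Dz L0 L1) := by
    rw [← Pj_star, e1, map_sub, map_add, Pj_star, w2.1, Pj_of_Lc (fun _ _ => rfl)]
    simp
  have e4 : Pj (b 2) (b 3) (Db βv βw) =
      ContinuousMap.const _ (fG b a) + Pj (b 2) (b 3) (Db L0 L1) := by
    rw [e2, map_sub, map_add, w2.2, Pj_of_Lc (fun _ _ => rfl)]
    simp
  have j3 := joined_const (v := b 2) (w := b 3) (c1 := conj (fF b a)) (c2 := fG b a) w1 (by
    rw [← e3, ← e4]
    intro y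
    simpa using j1.source_mem.1 y)
  rw [← e3, ← e4] at j3
  have rc : Rep b (fun _ => a) (ContinuousMap.const _ (fF b a), ContinuousMap.const _ (fG b a)) :=
    fun _ => ⟨rfl, rfl⟩
  have j4 := (j3.map (f := fun z : C4 × C4 => (star z.1, z.2)) (by fun_prop)).mono
    (V := closure (Z b a) ∩ O) (by
      rintro _ ⟨z, ⟨z1, z2, z3, z4⟩, rfl⟩
      refine ⟨?_, fun y => by simpa using z1 y⟩
      convert add_mem_closure ⟨_, h.const, rc⟩ (W_sub_D' z2 (z3.sub fun _ _ => rfl)
        (z4.sub fun _ _ => rfl)) using 1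
      ext y <;> simp)
  simp only [star_star] at j4
  refine rel_of_joined (j4.trans j2) h.const h (fun x => ⟨by simp, rfl⟩) rp

theorem main {a : A2} {σ : E → A2} (h : Sy a σ) {v w : E} (hvw : LinearIndependent ℝ ![v, w])
    (h0 : ∀ x, σ x ![v, w] = 0) : Rel a (fun _ => a) σ := by
  obtain ⟨e1, h1⟩ := exists_linearIndependent_cons_of_lt_finrank hvw (by simp)
  obtain ⟨e0, h2⟩ := exists_linearIndependent_cons_of_lt_finrank h1 (by simp)
  let b := basisOfLinearIndependentOfCardEqFinrank h2 (by simp)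
  have b2 : b 2 = v := by simp [b]
  have b3 : b 3 = w := by simp [b]
  clear_value b
  have ad : Ad b a σ := ⟨h.1, by rw [b2, b3]; exact h0⟩
  have hc : Continuous fun x => J b (σ x) := by
    have := fun m => (h.1.isForm.smooth_apply m).continuous
    exact ((this _).mul (this _)).sub ((this _).mul (this _))
  have hn : ∀ x, J b (σ x) ≠ 0 := fun x => J_of_Nd (ad.2 x) (h.2 x)
  have hs : ∀ x y, J b (σ x) < 0 → 0 < J b (σ y) → False := fun x y hx hy => by
    obtain ⟨z, hz⟩ := intermediate_value_univ x y hc ⟨hx.le, hy.le⟩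
    exact hn z hz
  rcases lt_or_gt_of_ne (hn 0) with h3 | h3
  · refine main_pos (b := b.reindex (Equiv.swap 2 3)) ⟨h.1, fun x => ?_⟩ fun x => ?_
    · rw [A2_swap]; simpa using ad.2 x
    · have a1 : J b (σ x) < 0 := lt_of_le_of_ne (not_lt.1 (hs 0 x h3)) (hn x)
      have a2 : J (b.reindex (Equiv.swap 2 3)) (σ x) = -J b (σ x) := by
        simp [J, Equiv.swap_apply_def]
      linarith
  · exact main_pos ad fun x => lt_of_le_of_ne (not_lt.1 fun hx => hs x 0 hx h3) (hn x).symm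

end

end Pool.Agent.MP_be5fd0_gt

end

-- part MP_be5fd0_gt.Hodge
section

/-! Every closed two-form on the torus is cohomologous to a constant form. -/

namespace Pool.Agent.MP_be5fd0_gt

open Set Filter Topology Metric
open scoped ComplexConjugate ContDiff

noncomputable section

/-- rapidly decreasing sequences -/
def Dec (c : G → ℂ) : Prop := ∀ k : ℕ, Summable fun N => (1 + ‖N‖) ^ k * ‖c N‖

theorem Sm.dec {F : C4} (h : Sm F) : Dec fun N => co N F := fun k => by
  obtain ⟨C, hC⟩ := Sm.decay (k + 8) h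
  refine Summable.of_nonneg_of_le (fun N => by positivity) (fun N => ?_)
    (summable_inv_pow.mul_left C)
  have h1 : 0 < (1 + ‖N‖) ^ 8 := by positivity
  rw [← div_eq_mul_inv, le_div_iff₀ h1]
  refine le_trans (le_of_eq ?_) (hC N)
  ring

theorem Dec.mul {c a : G → ℂ} (h : Dec c) {C : ℝ} (ha : ∀ N, ‖a N‖ ≤ C * (1 + ‖N‖)) :
    Dec fun N => a N * c N := fun k => by
  refine Summable.of_nonneg_of_le (fun N => by positivity) (fun N => ?_) ((h (k + 1)).mul_left C)
  rw [norm_mul]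
  calc (1 + ‖N‖) ^ k * (‖a N‖ * ‖c N‖) ≤ (1 + ‖N‖) ^ k * (C * (1 + ‖N‖) * ‖c N‖) := by
        gcongr; exact ha N
    _ = _ := by ring

theorem Dec.add {c a : G → ℂ} (h : Dec c) (h' : Dec a) : Dec fun N => c N + a N := fun k => by
  refine Summable.of_nonneg_of_le (fun N => by positivity) (fun N => ?_) ((h k).add (h' k))
  rw [← mul_add]
  gcongr
  exact norm_add_le _ _

theorem Dec.norm {c : G → ℂ} (h : Dec c) : Summable fun N => ‖c N‖ := by simpa using h 0

theorem norm_sym_le' (u : E) (N : G) : ‖sym u N‖ ≤ 2 * Real.pi * (4 * ‖u‖) * (1 + ‖N‖) := by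
  refine (norm_sym_le u N).trans ?_
  have := Real.pi_pos
  gcongr
  linarith

/-- the symbol as a linear map -/
def symL (N : G) : E →L[ℝ] ℂ :=
  LinearMap.toContinuousLinearMap
    { toFun := fun u => sym u N
      map_add' := fun u u' => by
        simp only [sym, Pi.add_apply, mul_add, Finset.sum_add_distrib]; push_cast; ring
      map_smul' := fun s u => by rw [sym_smul]; simp }

theorem norm_symL (N : G) : ‖symL N‖ ≤ 8 * Real.pi * (1 + ‖N‖) :=
  ContinuousLinearMap.opNorm_le_bound _ (by have := Real.pi_pos; positivity) fun u =>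
    (norm_sym_le' u N).trans (le_of_eq (by ring))

theorem Dec.hasFDerivAt {c : G → ℂ} (h : Dec c) :
    (∀ x, Summable fun N => (c N * e N (pr x)) • symL N) ∧ ∀ x,
    HasFDerivAt (fun x : E => ∑' N, c N * e N (pr x)) (∑' N, (c N * e N (pr x)) • symL N) x := by
  have h1 : ∀ N x, ‖(c N * e N (pr x)) • symL N‖ ≤ 8 * Real.pi * ((1 + ‖N‖) ^ 1 * ‖c N‖) :=
    fun N x => by
    rw [norm_smul, norm_mul, norm_e_apply, mul_one]
    nlinarith [mul_le_mul_of_nonneg_left (norm_symL N) (norm_nonneg (c N))]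
  have h2 := (h 1).mul_left (8 * Real.pi)
  refine ⟨fun x => Summable.of_norm_bounded h2 fun N => h1 N x, fun x => ?_⟩
  refine hasFDerivAt_tsum (x₀ := 0) h2 (fun N x => ?_) h1 ?_ x
  · simp only [e_pr]
    have := ((symL N).hasFDerivAt (x := x)).cexp.const_mul (c N)
    rw [smul_smul] at this
    exact this
  · refine Summable.of_norm_bounded h.norm fun N => ?_
    rw [norm_mul, norm_e_apply, mul_one]

theorem Dec.contDiff (n : ℕ) : ∀ {c : G → ℂ}, Dec c →
    ContDiff ℝ n fun x : E => ∑' N, c N * e N (pr x) := by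
  induction n with
  | zero =>
    exact fun h => contDiff_zero.2
      (continuous_iff_continuousAt.2 fun x => (h.hasFDerivAt.2 x).continuousAt)
  | succ n ih =>
    intro c h
    push_cast
    refine contDiff_succ_iff_fderiv_apply.2
      ⟨fun x => (h.hasFDerivAt.2 x).differentiableAt, by simp, fun u => ?_⟩
    convert ih (h.mul (norm_sym_le' u)) using 1
    funext x
    rw [(h.hasFDerivAt.2 x).fderiv]
    refine ((ContinuousLinearMap.apply ℝ ℂ u).hasSum (h.hasFDerivAt.1 x).hasSum).tsum_eq.symm.trans ?_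
    congr 1
    funext N
    change c N * e N (pr x) * sym u N = _
    ring

theorem Dec.exists {c : G → ℂ} (h : Dec c) : ∃ F : C4, Sm F ∧ ∀ N, co N F = c N := by
  have h1 : Summable fun N => c N • e N :=
    Summable.of_norm_bounded h.norm fun N => by rw [norm_smul, norm_e, mul_one]
  refine ⟨∑' N, c N • e N, ?_, co_of_hasSum h1.hasSum⟩
  have h2 : (fun x : E => (∑' N, c N • e N) (pr x)) = fun x => ∑' N, c N * e N (pr x) := by
    funext x
    exact ((ContinuousMap.evalCLM ℂ (pr x)).hasSum h1.hasSum).tsum_eq.symm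
  unfold Sm
  rw [h2]
  exact contDiff_infty.2 fun n => Dec.contDiff n h

theorem A2_ext (b : Module.Basis (Fin 4) ℝ E) {θ θ' : A2}
    (h : ∀ i j, θ ![b i, b j] = θ' ![b i, b j]) : θ = θ' := by
  have h1 : bil θ = bil θ' := LinearMap.ext_basis b b h
  ext m
  have h2 : m = ![m 0, m 1] := by funext i; fin_cases i <;> rfl
  rw [h2, ← bil_apply, h1, bil_apply]

theorem exists_const {σ : E → A2} (h : IsForm σ) (hc : extDeriv σ = 0) : ∃ a, Ex a σ := by
  let b := Pi.basisFun ℝ (Fin 4)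
  have hb : ∀ j, b j = Pi.single j 1 := fun j => Pi.basisFun_apply _ _ _
  choose S s1 s2 s3 using fun i j => cx h ![b i, b j] ![b i, b j]
  choose S' _ t2 t3 using s3
  have cl : ∀ i j k N, sym (b i) N * co N (S j k) - sym (b j) N * co N (S i k) +
      sym (b k) N * co N (S i j) = 0 := fun i j k N => by
    have a1 : S' j k (b i) - S' i k (b j) + S' i j (b k) = 0 := C4_ext fun x => by
      have a2 := d2 h x (b i) (b j) (b k)
      rw [hc] at a2
      have a3 := congrArg (fun r : ℝ => (r : ℂ)) a2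
      simp only [ContinuousMap.add_apply, ContinuousMap.sub_apply, t3]
      simp at a3 ⊢
      linear_combination (-1 - Complex.I) * a3
    have a4 := congrArg (co N) a1
    rwa [map_add, map_sub, (t2 _ _ _).co, (t2 _ _ _).co, (t2 _ _ _).co, map_zero] at a4
  let q : G → ℝ := fun N => ∑ i, ‖sym (b i) N‖ ^ 2
  have hq : ∀ N, N ≠ 0 → 1 ≤ q N := fun N hN => by
    obtain ⟨j, hj⟩ := Function.ne_iff.1 hN
    have a1 : (1 : ℝ) ≤ |(N j : ℝ)| := by exact_mod_cast Int.one_le_abs hj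
    have a2 := sym_single j N
    rw [← hb] at a2
    refine le_trans ?_ (Finset.single_le_sum (f := fun i => ‖sym (b i) N‖ ^ 2)
      (fun _ _ => by positivity) (Finset.mem_univ j))
    nlinarith
  have hq' : ∀ N, ((q N : ℝ) : ℂ) = -∑ i, sym (b i) N * sym (b i) N := fun N => by
    simp only [q]
    push_cast
    rw [← Finset.sum_neg_distrib]
    refine Finset.sum_congr rfl fun i _ => ?_
    rw [← Complex.mul_conj', conj_sym]; ring
  have hd : ∀ i k, Dec fun N => -sym (b i) N / q N * co N (S i k) := fun i k => by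
    refine (s1 i k).dec.mul (C := 2 * Real.pi * (4 * ‖b i‖)) fun N => ?_
    refine le_trans ?_ (norm_sym_le' _ N)
    by_cases hN : N = 0
    · simp [hN, sym_zero]
    · rw [norm_div, norm_neg, Complex.norm_real, Real.norm_of_nonneg (by linarith [hq N hN])]
      exact div_le_self (norm_nonneg _) (hq N hN)
  choose Λ l1 l2 using fun k => ((((hd 0 k).add (hd 1 k)).add (hd 2 k)).add (hd 3 k)).exists
  choose Λ' _ m2 _ using fun k j => (l1 k).deriv (b j)
  have key : ∀ j k, Λ' k j - Λ' j k = S j k - ContinuousMap.const _ (co 0 (S j k)) :=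
    fun j k => co_ext fun N => by
    rw [map_sub, map_sub, (m2 _ _).co, (m2 _ _).co, l2, l2, co_const]
    split_ifs with hN
    · simp [hN, sym_zero]
    · have a1 : ((q N : ℝ) : ℂ) ≠ 0 := by exact_mod_cast (by linarith [hq N hN] : q N ≠ 0)
      have a2 := hq' N
      rw [Fin.sum_univ_four] at a2
      field_simp
      rw [a2]
      linear_combination (sym (b 0) N) * cl 0 j k N + (sym (b 1) N) * cl 1 j k N +
        (sym (b 2) N) * cl 2 j k N + (sym (b 3) N) * cl 3 j k N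
  choose lam n1 n2 using fun k => exists_form (b := b) (l1 k) k k
  have n3 : IsForm fun x => (1 / 2 : ℝ) • (lam 0 x + lam 1 x + lam 2 x + lam 3 x) :=
    ((((n1 0).add (n1 1)).add (n1 2)).add (n1 3)).smul _
  have n4 : ∀ x j k, extDeriv (fun x => (1 / 2 : ℝ) • (lam 0 x + lam 1 x + lam 2 x + lam 3 x)) x
      ![b j, b k] = (1 / 2) * (((Λ' k j - Λ' j k) (pr x)).re + ((Λ' k j - Λ' j k) (pr x)).im) :=
    fun x j k => by
    have a1 : extDeriv (fun x => (1 / 2 : ℝ) • (lam 0 x + lam 1 x + lam 2 x + lam 3 x)) x =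
        (1 / 2 : ℝ) • extDeriv (fun x => lam 0 x + lam 1 x + lam 2 x + lam 3 x) x :=
      extDeriv_smul _ _
    rw [a1, extDeriv_fun_add ((((n1 0).add (n1 1)).add (n1 2)).diff x) ((n1 3).diff x),
      extDeriv_fun_add (((n1 0).add (n1 1)).diff x) ((n1 2).diff x),
      extDeriv_fun_add ((n1 0).diff x) ((n1 1).diff x)]
    simp only [ContinuousAlternatingMap.smul_apply, ContinuousAlternatingMap.add_apply,
      n2 _ j k _ _ (m2 _ _) (m2 _ _), cv_apply]
    fin_cases j <;> fin_cases k <;> simp <;> ring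
  generalize (fun x => (1 / 2 : ℝ) • (lam 0 x + lam 1 x + lam 2 x + lam 3 x)) = l at n3 n4
  refine ⟨σ 0 - extDeriv l 0, l, n3, fun x => A2_ext b fun j k => ?_⟩
  simp only [ContinuousAlternatingMap.add_apply, ContinuousAlternatingMap.sub_apply, n4, key]
  simp [s2, -map_zero]
  ring

end

end Pool.Agent.MP_be5fd0_gt

end
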